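import Mathlib
import Pool.Agent.K9h17.L.Three

/-!
# Elements of minimal rank span the part of degree one
-/

set_option linter.unusedSectionVars false

namespace Pool.Agent.K9h17.B

open Matrix Module
open Pool.Agent.Y4.G (trF trF_apply exists_dual exists_eig_range trace_idemM rank_mul_lt)
open Pool.Agent.Y4.G.Lie (pos mem_pos)
open Pool.Agent.N183.JP
open Pool.Agent.K9h17.L

variable {B : Type*} [Fintype B] [DecidableEq B]

variable {G : Submodule ℂ (Matrix B B ℂ)} {P Q : Matrix B B ℂ} {a b : ℕ}

/-- The nonzero elements of minimal rank. -/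
def IsMin (G : Submodule ℂ (Matrix B B ℂ)) (P Q e : Matrix B B ℂ) : Prop :=
  (e ∈ pos G P Q ∧ e ≠ 0) ∧ ∀ y, (y ∈ pos G P Q ∧ y ≠ 0) → e.rank ≤ y.rank

theorem exists_min (H : LieP G P Q a b) (ha : 0 < a) (hb : 0 < b) : ∃ e, IsMin G P Q e := by
  have hW := H.pos_ne_bot ha hb
  obtain ⟨x, hx, hx0⟩ := (Submodule.ne_bot_iff _).1 hW
  have hne : {y : Matrix B B ℂ | y ∈ pos G P Q ∧ y ≠ 0}.Nonempty := ⟨x, hx, hx0⟩
  obtain ⟨e, he, hmin⟩ := WellFounded.has_min (measure (fun y : Matrix B B ℂ => y.rank)).wf _ hne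
  exact ⟨e, he, fun y hy => not_lt.1 (hmin y hy)⟩

/-- A minimal element with a partner. -/
theorem trp_of_pair (H : LieP G P Q a b) {e f : Matrix B B ℂ} (hm : IsMin G P Q e)
    (hfm : f ∈ pos G Q P) (hefe : e * f * e = e) (hfef : f * e * f = f) :
    TrpP G P Q e f (e * f) (f * e) := by
  obtain ⟨⟨he, he0⟩, hmin⟩ := hm
  have hz : ∀ y ∈ pos G P Q, y.rank < e.rank → y = 0 := by
    intro y hy hlt
    by_contra h0
    exact absurd (hmin y ⟨hy, h0⟩) (not_le.2 hlt)
  obtain ⟨p, hp⟩ : ∃ p, p = e * f := ⟨_, rfl⟩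
  obtain ⟨q, hq⟩ : ∃ q, q = f * e := ⟨_, rfl⟩
  rw [← hp, ← hq]
  have hpe : p * e = e := by rw [hp, hefe]
  have heq : e * q = e := by rw [hq, ← mul_assoc, hefe]
  have hpp : p * p = p := by nth_rewrite 2 [hp]; rw [← mul_assoc, hpe, ← hp]
  have hqq : q * q = q := by nth_rewrite 1 [hq]; rw [mul_assoc, heq, ← hq]
  have hqf : q * f = f := by rw [hq, hfef]
  have hfp : f * p = f := by rw [hp, ← mul_assoc, hfef]
  have hone : ∀ x ∈ pos G P Q, p * x * q = x → ∃ c : ℂ, x = c • e := by
    intro x hx hpx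
    have hpx' : p * x = x := by rw [← hpx, ← mul_assoc, ← mul_assoc, hpp]
    have hxq' : x * q = x := by rw [← hpx, mul_assoc _ q q, hqq]
    obtain ⟨μ, w, hw, hw0, hew⟩ := exists_eig_range (N := x * f) he0 (by
      intro v _
      refine ⟨f *ᵥ ((x * f) *ᵥ v), ?_⟩
      rw [mulVecLin_apply, mulVec_mulVec _ e, ← hp, mulVec_mulVec, ← mul_assoc, hpx'])
    have h5 : (x * f - μ • 1) * e = x - μ • e := by
      rw [sub_mul, Matrix.smul_mul, one_mul, mul_assoc, ← hq, hxq']
    have h6 := hz _ (Submodule.sub_mem _ hx (Submodule.smul_mem _ μ he))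
      (by
        rw [← h5]
        refine rank_mul_lt hw hw0 ?_
        rw [sub_mulVec, hew, smul_mulVec, one_mulVec, sub_self])
    exact ⟨μ, sub_eq_zero.1 h6⟩
  have hTmem : ∀ x ∈ pos G P Q, p * x + x * q ∈ pos G P Q := by
    intro x hx
    have h1 := H.tri he hfm hx
    rwa [← hp, mul_assoc x, ← hq] at h1
  have hmem2 : ∀ x ∈ pos G P Q, p * x * q ∈ pos G P Q := by
    intro x hx
    have h1 := Submodule.smul_mem _ (2 : ℂ)⁻¹
      (Submodule.sub_mem _ (hTmem _ (hTmem x hx)) (hTmem x hx))
    have h2 : p * (p * x + x * q) + (p * x + x * q) * q - (p * x + x * q) =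
        (2 : ℂ) • (p * x * q) := by
      have h3 : p * (p * x + x * q) + (p * x + x * q) * q - (p * x + x * q) =
          (p * p) * x + p * x * q + (p * x * q + x * (q * q)) - (p * x + x * q) := by
        noncomm_ring
      rw [h3, hpp, hqq, two_smul]
      abel
    rwa [h2, smul_smul, inv_mul_cancel₀ two_ne_zero, one_smul] at h1
  have hTmem' : ∀ y ∈ pos G Q P, q * y + y * p ∈ pos G Q P := by
    intro y hy
    have h1 := H.symm.tri hfm he hy
    rwa [← hq, mul_assoc y, ← hp] at h1
  exact
    { mem := he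
      fmem := hfm
      ne := he0
      pe := hpe
      eq := heq
      pp := hpp
      qq := hqq
      ef := hp.symm
      fe := hq.symm
      qf := hqf
      fp := hfp
      Pp := by rw [hp, ← mul_assoc, he.2.1]
      pP := by rw [hp, mul_assoc, hfm.2.2]
      qQ := by rw [hq, mul_assoc, he.2.2]
      Qu := by rw [hq, ← mul_assoc, hfm.2.1]
      one := hone
      one' := fun y hy hyy => by
        obtain ⟨c, hc⟩ := hone (e * y * e) (H.quad he hy) (by
          rw [← mul_assoc, ← mul_assoc, hpe, mul_assoc _ e, heq])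
        refine ⟨c, ?_⟩
        calc y = q * y * p := hyy.symm
        _ = f * (e * y * e) * f := by rw [hq, hp]; noncomm_ring
        _ = c • f := by rw [hc, Matrix.mul_smul, Matrix.smul_mul, hfef]
      tmem := hTmem
      mem2 := hmem2
      mem2' := fun x hx => by
        have h1 := Submodule.smul_mem _ (2 : ℂ)⁻¹
          (Submodule.sub_mem _ (hTmem' _ (hTmem' x hx)) (hTmem' x hx))
        have h2 : q * (q * x + x * p) + (q * x + x * p) * p - (q * x + x * p) =
            (2 : ℂ) • (q * x * p) := by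
          have h3 : q * (q * x + x * p) + (q * x + x * p) * p - (q * x + x * p) =
              (q * q) * x + q * x * p + (q * x * p + x * (p * p)) - (q * x + x * p) := by
            noncomm_ring
          rw [h3, hpp, hqq, two_smul]
          abel
        rwa [h2, smul_smul, inv_mul_cancel₀ two_ne_zero, one_smul] at h1 }

/-- Each element has a partner. -/
theorem exists_partner (H : LieP G P Q a b) {e : Matrix B B ℂ} (he : e ∈ pos G P Q) :
    ∃ f ∈ pos G Q P, e * f * e = e ∧ f * e * f = f := by
  obtain ⟨f', hf', hef'⟩ := H.rg e he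
  obtain ⟨f, hf⟩ : ∃ f, f = f' * e * f' := ⟨_, rfl⟩
  refine ⟨f, by rw [hf]; exact H.symm.quad hf' he, ?_, ?_⟩
  · calc e * f * e = (e * f' * e) * f' * e := by rw [hf]; noncomm_ring
    _ = e := by rw [hef', hef']
  · calc f * e * f = f' * ((e * f' * e) * f' * e) * f' := by rw [hf]; noncomm_ring
    _ = f := by rw [hef', hef', hf]

/-- **Schur's lemma** for the products of elements of degree one and minus one. -/
theorem schur_xy (H : LieP G P Q a b) (hI : IrrXY G P Q) {c : Matrix B B ℂ} (h1 : P * c = c)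
    (h2 : c * P = c) (hc : ∀ x ∈ pos G P Q, ∀ y ∈ pos G Q P, c * (x * y) = (x * y) * c) :
    ∃ κ : ℂ, c = κ • P := by
  by_cases hP0 : P = 0
  · refine ⟨0, ?_⟩
    rw [← h1, hP0, zero_mul, smul_zero]
  obtain ⟨μ, v, ⟨v', hv'⟩, hv0, hcv⟩ := exists_eig_range (N := c) hP0 (by
    intro v _
    refine ⟨c *ᵥ v, ?_⟩
    rw [mulVecLin_apply, mulVec_mulVec, h1])
  rw [mulVecLin_apply] at hv'
  have hPv : P *ᵥ v = v := by rw [← hv', mulVec_mulVec, H.PP]
  let U0 : Submodule ℂ (B → ℂ) :=
    { carrier := {u | P *ᵥ u = u ∧ c *ᵥ u = μ • u}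
      zero_mem' := ⟨mulVec_zero _, by rw [mulVec_zero, smul_zero]⟩
      add_mem' := fun {x y} hx hy => ⟨by rw [mulVec_add, hx.1, hy.1],
        by rw [mulVec_add, hx.2, hy.2, smul_add]⟩
      smul_mem' := fun r x hx => ⟨by rw [mulVec_smul, hx.1],
        by rw [mulVec_smul, hx.2, smul_comm]⟩ }
  refine ⟨μ, ?_⟩
  rcases levi_xy H hI (W := U0) (fun u hu => hu.1) (fun x hx y hy u hu => by
    obtain ⟨h3, h4⟩ := hu
    refine ⟨?_, ?_⟩
    · rw [mulVec_mulVec, hx.2.1]
    · rw [mulVec_mulVec u x y, mulVec_mulVec u c, hc x hx y hy, ← mulVec_mulVec, h4,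
        mulVec_smul]) with h3 | h3
  · exfalso
    have h4 : v ∈ U0 := ⟨hPv, hcv⟩
    rw [h3, Submodule.mem_bot] at h4
    exact hv0 h4
  · refine mat_ext fun w => ?_
    have h4 := (h3 (P *ᵥ w) (by rw [mulVec_mulVec, H.PP])).2
    rw [← h2, ← mulVec_mulVec, h4, smul_mulVec]

/-- The part of degree one is irreducible. -/
theorem stab_top (H : LieP G P Q a b) (hI : IrrXY G P Q) (ha : 0 < a) (hb : 0 < b)
    {S : Submodule ℂ (Matrix B B ℂ)} (hS : S ≤ pos G P Q) (hne : S ≠ ⊥)
    (hst : ∀ s ∈ S, ∀ x ∈ pos G P Q, ∀ y ∈ pos G Q P, x * y * s + s * y * x ∈ S) :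
    pos G P Q ≤ S := by
  -- the products vanish
  have hP : ∀ y ∈ pos G Q P, (∀ s ∈ S, trace (s * y) = 0) → ∀ s ∈ S, y * s = 0 := by
    intro y hy hyS s hs
    have hx1 : ∀ x ∈ pos G P Q, s * y * x + x * y * s = 0 := by
      intro x hx
      refine H.nondeg (H.tri (hS hs) hy hx) fun y' hy' => ?_
      have h1 := hyS _ (hst s hs x hx y' hy')
      rw [trF_apply]
      have e1 : trace ((s * y * x + x * y * s) * y') = trace (y * x * y' * s) +
          trace (y * s * y' * x) := by
        rw [add_mul, trace_add]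
        congr 1
        · rw [mul_assoc s, mul_assoc s, trace_mul_comm]
        · rw [mul_assoc x, mul_assoc x, trace_mul_comm]
      have e2 : trace ((x * y' * s + s * y' * x) * y) = trace (y * x * y' * s) +
          trace (y * s * y' * x) := by
        rw [trace_mul_comm, mul_add, trace_add]
        simp only [mul_assoc]
      rw [e1, ← e2, h1]
    have hy1 : ∀ y' ∈ pos G Q P, y * s * y' + y' * s * y = 0 := by
      intro y' hy'
      refine H.symm.nondeg (H.symm.tri hy (hS hs) hy') fun x hx => ?_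
      have h1 := congrArg (fun z => trace (z * y')) (hx1 x hx)
      beta_reduce at h1
      rw [zero_mul, trace_zero] at h1
      rw [trF_apply]
      have e1 : trace ((y * s * y' + y' * s * y) * x) = trace ((s * y * x + x * y * s) * y') := by
        rw [add_mul, add_mul, trace_add, trace_add, add_comm]
        congr 1
        · rw [mul_assoc, mul_assoc y', trace_mul_comm]
          simp only [mul_assoc]
        · rw [trace_mul_comm]
          simp only [mul_assoc]
      rw [e1, h1]
    -- the second product commutes with the products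
    obtain ⟨κ, hκ⟩ := schur_xy H.symm hI.symm (c := y * s)
      (by rw [← mul_assoc, hy.2.1]) (by rw [mul_assoc, (hS hs).2.2])
      (fun y' hy' x hx => by
        have h1 := congrArg (fun z => z * x) (hy1 y' hy')
        have h2 := congrArg (fun z => y' * z) (hx1 x hx)
        beta_reduce at h1 h2
        rw [zero_mul, add_mul] at h1
        rw [mul_zero, mul_add] at h2
        have e1 : y * s * (y' * x) = -(y' * s * y * x) := by
          rw [eq_neg_iff_add_eq_zero, ← h1]
          simp only [mul_assoc]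
        have e2 : y' * x * (y * s) = -(y' * s * y * x) := by
          rw [eq_neg_iff_add_eq_zero, ← h2]
          simp only [mul_assoc]
          abel
        rw [e1, e2])
    have h3 : trace (y * s) = 0 := by rw [trace_mul_comm, hyS s hs]
    rw [hκ, trace_smul, H.trQ, smul_eq_mul] at h3
    have h4 : κ = 0 := by
      rcases mul_eq_zero.1 h3 with h | h
      · exact h
      · exfalso
        have : b = 0 := by exact_mod_cast h
        omega
    rw [hκ, h4, zero_smul]
  -- the images of the elements of `S`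
  let W : Submodule ℂ (B → ℂ) := Submodule.span ℂ {w | ∃ s ∈ S, ∃ v : B → ℂ, w = s *ᵥ v}
  have hWP : ∀ u ∈ W, P *ᵥ u = u := by
    intro u hu
    induction hu using Submodule.span_induction with
    | mem w hw =>
      obtain ⟨s, hs, v, rfl⟩ := hw
      rw [mulVec_mulVec, (hS hs).2.1]
    | zero => exact mulVec_zero _
    | add x y _ _ hx hy => rw [mulVec_add, hx, hy]
    | smul r x _ hx => rw [mulVec_smul, hx]
  have hWst : ∀ x ∈ pos G P Q, ∀ y ∈ pos G Q P, ∀ u ∈ W, x *ᵥ (y *ᵥ u) ∈ W := by
    intro x hx y hy u hu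
    induction hu using Submodule.span_induction with
    | mem w hw =>
      obtain ⟨s, hs, v, rfl⟩ := hw
      have e1 : x *ᵥ (y *ᵥ (s *ᵥ v)) = (x * y * s + s * y * x) *ᵥ v - s *ᵥ ((y * x) *ᵥ v) := by
        rw [add_mulVec]
        simp only [mulVec_mulVec, mul_assoc]
        abel
      rw [e1]
      exact W.sub_mem (Submodule.subset_span ⟨_, hst s hs x hx y hy, v, rfl⟩)
        (Submodule.subset_span ⟨s, hs, _, rfl⟩)
    | zero =>
      rw [mulVec_zero, mulVec_zero]
      exact W.zero_mem
    | add u1 u2 _ _ h1 h2 =>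
      rw [mulVec_add, mulVec_add]
      exact W.add_mem h1 h2
    | smul r u1 _ h1 =>
      rw [mulVec_smul, mulVec_smul]
      exact W.smul_mem _ h1
  have hWtop : ∀ u, P *ᵥ u = u → u ∈ W := by
    rcases levi_xy H hI hWP hWst with h1 | h1
    · exfalso
      apply hne
      rw [Submodule.eq_bot_iff]
      intro s hs
      refine mat_ext fun v => ?_
      have h2 : s *ᵥ v ∈ W := Submodule.subset_span ⟨s, hs, v, rfl⟩
      rw [h1, Submodule.mem_bot] at h2
      rw [h2, zero_mulVec]
    · exact h1
  have hzero : ∀ y ∈ pos G Q P, (∀ s ∈ S, trace (s * y) = 0) → y = 0 := by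
    intro y hy hyS
    refine mat_ext fun v => ?_
    rw [← hy.2.2, ← mulVec_mulVec, zero_mulVec]
    have h1 := hWtop (P *ᵥ v) (by rw [mulVec_mulVec, H.PP])
    generalize P *ᵥ v = u at h1
    induction h1 using Submodule.span_induction with
    | mem w hw =>
      obtain ⟨s, hs, v, rfl⟩ := hw
      rw [mulVec_mulVec, hP y hy hyS s hs, zero_mulVec]
    | zero => exact mulVec_zero _
    | add x y _ _ hx hy => rw [mulVec_add, hx, hy, add_zero]
    | smul r x _ hx => rw [mulVec_smul, hx, smul_zero]
  -- duality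
  obtain ⟨n, b', y, hy, hyb, -⟩ := exists_dual (trF B) (pos G P Q) (pos G Q P)
    (fun x hx h => H.nondeg hx h) (fun x hx h => H.symm.nondeg hx fun y hy => by
      rw [trF_apply, trace_mul_comm]
      exact h y hy)
  let S' : Submodule ℂ (pos G P Q) := S.comap (pos G P Q).subtype
  suffices hS' : S' = ⊤ by
    intro x hx
    have h1 : (⟨x, hx⟩ : pos G P Q) ∈ S' := by rw [hS']; trivial
    exact h1
  by_contra hcon
  obtain ⟨φ, hφ0, hφ⟩ := Submodule.exists_le_ker_of_lt_top S' (lt_top_iff_ne_top.2 hcon)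
  apply hφ0
  have h1 : ∑ i, φ (b' i) • y i = 0 := by
    refine hzero _ (Submodule.sum_mem _ fun i _ => Submodule.smul_mem _ _ (hy i)) fun s hs => ?_
    have h2 : φ ⟨s, hS hs⟩ = 0 := hφ (show (⟨s, hS hs⟩ : pos G P Q) ∈ S' from hs)
    rw [Finset.mul_sum, trace_sum]
    have h3 := congrArg φ (b'.sum_repr ⟨s, hS hs⟩)
    rw [map_sum, h2] at h3
    rw [← h3]
    refine Finset.sum_congr rfl fun i _ => ?_
    have h4 := hyb i ⟨s, hS hs⟩
    rw [trF_apply] at h4
    rw [mul_smul_comm, trace_smul, h4, map_smul, smul_eq_mul, smul_eq_mul, mul_comm]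
  refine LinearMap.ext fun z => ?_
  have h3 := congrArg φ (b'.sum_repr z)
  rw [map_sum] at h3
  rw [← h3, LinearMap.zero_apply]
  have h4 := congrArg (fun w => trace ((z : Matrix B B ℂ) * w)) h1
  beta_reduce at h4
  rw [mul_zero, trace_zero, Finset.mul_sum, trace_sum] at h4
  rw [← h4]
  refine Finset.sum_congr rfl fun i _ => ?_
  have h5 := hyb i z
  rw [trF_apply] at h5
  rw [mul_smul_comm, trace_smul, h5, map_smul, smul_eq_mul, smul_eq_mul, mul_comm]

/-- **The elements of minimal rank span the part of degree one.** -/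
theorem span_min (H : LieP G P Q a b) (hI : IrrXY G P Q) (ha : 0 < a) (hb : 0 < b) :
    pos G P Q ≤ Submodule.span ℂ {e | IsMin G P Q e} := by
  obtain ⟨e0, he0⟩ := exists_min H ha hb
  refine stab_top H hI ha hb (Submodule.span_le.2 fun e he => he.1.1) ?_ ?_
  · intro h0
    have h1 : e0 ∈ Submodule.span ℂ {e | IsMin G P Q e} := Submodule.subset_span he0
    rw [h0, Submodule.mem_bot] at h1
    exact he0.1.2 h1
  · intro s hs x hx y hy
    induction hs using Submodule.span_induction with
    | mem e he =>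
      have h1 := H.tri hx hy he.1.1
      have h2 : x * (y * e * y) * x ∈ pos G P Q := H.quad hx (H.symm.quad hy he.1.1)
      -- the Bergman operator
      have hB : ∀ t : ℂ, e + t • (x * y * e + e * y * x) + (t * t) • (x * (y * e * y) * x) ∈
          Submodule.span ℂ {e | IsMin G P Q e} := by
        intro t
        have hm : e + t • (x * y * e + e * y * x) + (t * t) • (x * (y * e * y) * x) ∈
            pos G P Q :=
          Submodule.add_mem _ (Submodule.add_mem _ he.1.1 (Submodule.smul_mem _ _ h1))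
            (Submodule.smul_mem _ _ h2)
        have hprod : e + t • (x * y * e + e * y * x) + (t * t) • (x * (y * e * y) * x) =
            (1 + t • (x * y)) * (e * (1 + t • (y * x))) := by
          simp only [add_mul, mul_add, one_mul, mul_one, smul_mul_assoc, mul_smul_comm, smul_smul,
            smul_add, mul_assoc]
          abel
        by_cases h0 : e + t • (x * y * e + e * y * x) + (t * t) • (x * (y * e * y) * x) = 0
        · rw [h0]
          exact Submodule.zero_mem _
        · refine Submodule.subset_span ⟨⟨hm, h0⟩, fun z hz => ?_⟩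
          refine le_trans ?_ (he.2 z hz)
          rw [hprod]
          exact le_trans (rank_mul_le_right _ _) (rank_mul_le_left _ _)
      have h3 := Submodule.smul_mem _ (2 : ℂ)⁻¹ (Submodule.sub_mem _ (hB 1) (hB (-1)))
      have e1 : (2 : ℂ)⁻¹ • (e + (1 : ℂ) • (x * y * e + e * y * x) +
          ((1 : ℂ) * 1) • (x * (y * e * y) * x) - (e + (-1 : ℂ) • (x * y * e + e * y * x) +
          ((-1 : ℂ) * -1) • (x * (y * e * y) * x))) = x * y * e + e * y * x := by
        module
      rwa [e1] at h3
    | zero =>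
      rw [mul_zero, zero_mul, zero_mul, add_zero]
      exact Submodule.zero_mem _
    | add u1 u2 _ _ h1 h2 =>
      have e1 : x * y * (u1 + u2) + (u1 + u2) * y * x =
        (x * y * u1 + u1 * y * x) + (x * y * u2 + u2 * y * x) := by noncomm_ring
      rw [e1]
      exact Submodule.add_mem _ h1 h2
    | smul r u1 _ h1 =>
      rw [mul_smul_comm, smul_mul_assoc, smul_mul_assoc, ← smul_add]
      exact Submodule.smul_mem _ _ h1

end Pool.Agent.K9h17.B
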