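import Mathlib
import Pool.Agent.K9h17.B.Min
import Pool.Agent.K9h17.L.Two
import Pool.Agent.N183.JP.Pair

/-!
# The corner of the part of degree zero
-/

set_option linter.unusedSectionVars false

namespace Pool.Agent.K9h17.B

open Matrix Module
open Pool.Agent.Y4.G (trF trF_apply exists_dual exists_eig_range trace_idemM rank_mul_lt)
open Pool.Agent.Y4.G.Lie (pos mem_pos)
open Pool.Agent.N183.JP
open Pool.Agent.K9h17.L
open Pool.Agent.Y224.TS (partner)

noncomputable section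

section irr

variable {B : Type*} [Fintype B] [DecidableEq B]

variable {G : Submodule ℂ (Matrix B B ℂ)} {P Q : Matrix B B ℂ} {a b : ℕ}

/-- The projectors of the minimal pairs act irreducibly. -/
theorem irr_min (H : LieP G P Q a b) (hI : IrrXY G P Q) (ha : 0 < a) (hb : 0 < b)
    {W : Submodule ℂ (B → ℂ)} (hW : ∀ u ∈ W, P *ᵥ u = u)
    (hst : ∀ e f : Matrix B B ℂ, IsMin G P Q e → f ∈ pos G Q P → e * f * e = e →
      f * e * f = f → ∀ u ∈ W, (e * f) *ᵥ u ∈ W) :
    W = ⊥ ∨ ∀ u, P *ᵥ u = u → u ∈ W := by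
  refine levi_xy H hI hW fun x hx y hy u hu => ?_
  have h1 := span_min H hI ha hb hx
  clear hx
  induction h1 using Submodule.span_induction with
  | mem e he =>
    obtain ⟨f, hf, hefe, hfef⟩ := exists_partner H he.1.1
    have k := trp_of_pair H he hf hefe hfef
    obtain ⟨p, hp⟩ : ∃ p, p = e * f := ⟨_, rfl⟩
    obtain ⟨q, hq⟩ : ∃ q, q = f * e := ⟨_, rfl⟩
    rw [← hp, ← hq] at k
    -- the components of `y`
    obtain ⟨c, hc⟩ := k.one' _ (k.mem2' y hy) (by
      rw [← mul_assoc, ← mul_assoc, k.qq, mul_assoc _ p p, k.pp])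
    have hT : q * y + y * p ∈ pos G Q P := by
      have h1 := H.symm.tri hf he.1.1 hy
      rwa [← hq, mul_assoc y, ← hp] at h1
    obtain ⟨y1, hy1⟩ : ∃ y1, y1 = q * y + y * p - (2 : ℂ) • (q * y * p) := ⟨_, rfl⟩
    have hy1m : y1 ∈ pos G Q P := by
      rw [hy1]
      exact Submodule.sub_mem _ hT (Submodule.smul_mem _ _ (k.mem2' y hy))
    have hqyp : q * y1 * p = 0 := by
      rw [hy1]
      have e1 : q * (q * y + y * p - (2 : ℂ) • (q * y * p)) * p =
          (q * q) * y * p + q * y * (p * p) - (2 : ℂ) • ((q * q) * y * (p * p)) := by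
        rw [mul_sub, sub_mul, mul_smul_comm, smul_mul_assoc]
        noncomm_ring
      rw [e1, k.qq, k.pp, two_smul, sub_self]
    have hey : e * y = c • p + e * y1 := by
      have e1 : e * y1 = (e * q) * y + e * y * p - (2 : ℂ) • ((e * q) * y * p) := by
        rw [hy1, mul_sub, mul_smul_comm]
        noncomm_ring
      have e2 : c • p = e * y * p := by
        rw [← k.ef, ← mul_smul_comm, ← hc, k.ef]
        calc e * (q * y * p) = (e * q) * y * p := by noncomm_ring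
        _ = _ := by rw [k.eq]
      rw [e1, e2, k.eq, two_smul]
      abel
    have he1e : e * y1 * e = 0 := by
      calc e * y1 * e = (e * q) * y1 * (p * e) := by rw [k.eq, k.pe]
      _ = e * (q * y1 * p) * e := by noncomm_ring
      _ = 0 := by rw [hqyp, mul_zero, zero_mul]
    -- the second pair
    have hf1m : f - y1 + y1 * e * y1 ∈ pos G Q P :=
      Submodule.add_mem _ (Submodule.sub_mem _ hf hy1m) (H.symm.quad hy1m he.1.1)
    have h2 : e * (f - y1 + y1 * e * y1) = p - e * y1 := by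
      have e1 : e * (f - y1 + y1 * e * y1) = e * f - e * y1 + (e * y1 * e) * y1 := by
        noncomm_ring
      rw [e1, he1e, zero_mul, add_zero, k.ef]
    have h3 : e * (f - y1 + y1 * e * y1) * e = e := by
      rw [h2, sub_mul, k.pe, he1e, sub_zero]
    have hyp1 : y1 = q * y1 + y1 * p := by
      have e1 : q * y1 + y1 * p = q * q * y + q * y * p - (2 : ℂ) • (q * q * y * p) +
          (q * y * p + y * (p * p) - (2 : ℂ) • (q * y * (p * p))) := by
        rw [hy1, mul_sub, sub_mul, mul_smul_comm, smul_mul_assoc]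
        noncomm_ring
      rw [e1, k.qq, k.pp, hy1, two_smul]
      abel
    have h4 : (f - y1 + y1 * e * y1) * e * (f - y1 + y1 * e * y1) = f - y1 + y1 * e * y1 := by
      have e1 : (f - y1 + y1 * e * y1) * e * (f - y1 + y1 * e * y1) =
          (f - y1 + y1 * e * y1) * (e * (f - y1 + y1 * e * y1)) := by noncomm_ring
      rw [e1, h2]
      have e2 : (f - y1 + y1 * e * y1) * (p - e * y1) = f * p - f * e * y1 - y1 * p +
          y1 * e * y1 + y1 * (e * y1 * p) - y1 * (e * y1 * e) * y1 := by noncomm_ring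
      have e3 : e * y1 * p = 0 := by
        calc e * y1 * p = (e * q) * y1 * p := by rw [k.eq]
        _ = e * (q * y1 * p) := by noncomm_ring
        _ = 0 := by rw [hqyp, mul_zero]
      rw [e2, e3, he1e, k.fp, k.fe, sub_sub, ← hyp1]
      simp only [mul_zero, zero_mul, add_zero, sub_zero]
    have h5 := hst e _ he hf1m h3 h4 u hu
    have h6 := hst e f he hf hefe hfef u hu
    rw [h2] at h5
    rw [k.ef] at h6
    have h7 : (e * y1) *ᵥ u ∈ W := by
      have h8 := W.sub_mem h6 h5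
      rwa [sub_mulVec, sub_sub_cancel] at h8
    rw [mulVec_mulVec, hey, add_mulVec, smul_mulVec]
    exact W.add_mem (W.smul_mem _ h6) h7
  | zero =>
    rw [zero_mulVec]
    exact W.zero_mem
  | add u1 u2 _ _ h1 h2 =>
    rw [add_mulVec]
    exact W.add_mem h1 h2
  | smul r u1 _ h1 =>
    rw [smul_mulVec]
    exact W.smul_mem _ h1

end irr

variable {B : Type} [Fintype B] [DecidableEq B]

/-- The range of a projector. -/
def VP (P : Matrix B B ℂ) : Submodule ℂ (B → ℂ) := LinearMap.range (mulVecLin P)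

theorem mem_VP {P : Matrix B B ℂ} (hP : P * P = P) {u : B → ℂ} : u ∈ VP P ↔ P *ᵥ u = u := by
  constructor
  · rintro ⟨v, rfl⟩
    rw [mulVecLin_apply, mulVec_mulVec, hP]
  · intro h
    exact ⟨u, h⟩

/-- The compression of an operator to the range of a projector. -/
def dn (P : Matrix B B ℂ) : Matrix B B ℂ →ₗ[ℂ] End ℂ (VP P) where
  toFun w := (mulVecLin P).rangeRestrict ∘ₗ (mulVecLin w) ∘ₗ (VP P).subtype
  map_add' w w' := by
    refine LinearMap.ext fun u => Subtype.ext ?_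
    change P *ᵥ ((w + w') *ᵥ (u : B → ℂ)) = P *ᵥ (w *ᵥ (u : B → ℂ)) + P *ᵥ (w' *ᵥ (u : B → ℂ))
    rw [add_mulVec, mulVec_add]
  map_smul' c w := by
    refine LinearMap.ext fun u => Subtype.ext ?_
    change P *ᵥ ((c • w) *ᵥ (u : B → ℂ)) = c • (P *ᵥ (w *ᵥ (u : B → ℂ)))
    rw [smul_mulVec, mulVec_smul]

theorem dn_apply (P w : Matrix B B ℂ) (u : VP P) :
    ((dn P w u : VP P) : B → ℂ) = P *ᵥ (w *ᵥ (u : B → ℂ)) := rfl

theorem dn_mul {P : Matrix B B ℂ} {w w' : Matrix B B ℂ} (h : w * P = w) :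
    dn P w * dn P w' = dn P (w * w') := by
  refine LinearMap.ext fun u => Subtype.ext ?_
  rw [Module.End.mul_apply, dn_apply, dn_apply, dn_apply, mulVec_mulVec _ w P, h, mulVec_mulVec _ w]

theorem dn_one {P : Matrix B B ℂ} (hP : P * P = P) : dn P P = 1 := by
  refine LinearMap.ext fun u => Subtype.ext ?_
  have h1 := (mem_VP hP).1 u.2
  rw [dn_apply, h1, h1]
  rfl

theorem dn_inj {P : Matrix B B ℂ} {w : Matrix B B ℂ} (hw : P * w = w)
    (hw' : w * P = w) (h : dn P w = 0) : w = 0 := by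
  refine mat_ext fun v => ?_
  have h1 := congrArg Subtype.val (LinearMap.congr_fun h ⟨P *ᵥ v, ⟨v, rfl⟩⟩)
  rw [dn_apply] at h1
  change P *ᵥ (w *ᵥ (P *ᵥ v)) = 0 at h1
  rw [mulVec_mulVec _ w, mulVec_mulVec _ P, hw', hw] at h1
  rw [h1, zero_mulVec]

theorem dn_trace (P w : Matrix B B ℂ) : LinearMap.trace ℂ (VP P) (dn P w) = trace (w * P) := by
  have h1 : LinearMap.trace ℂ (VP P) (dn P w) =
      LinearMap.trace ℂ (B → ℂ) (((mulVecLin w) ∘ₗ (VP P).subtype) ∘ₗ
        (mulVecLin P).rangeRestrict) :=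
    LinearMap.trace_comp_comm' _ _
  have h2 : ((mulVecLin w) ∘ₗ (VP P).subtype) ∘ₗ (mulVecLin P).rangeRestrict =
      Matrix.toLin' (w * P) := by
    refine LinearMap.ext fun v => ?_
    rw [toLin'_apply, ← mulVec_mulVec]
    rfl
  rw [h1, h2, trace_toLin'_eq]

variable {G : Submodule ℂ (Matrix B B ℂ)} {P Q : Matrix B B ℂ} {a b : ℕ}

/-- The Lie algebra of the compressions. -/
def gP (G : Submodule ℂ (Matrix B B ℂ)) (P : Matrix B B ℂ) : Submodule ℂ (End ℂ (VP P)) :=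
  (LieI.cor G P).map (dn P)

theorem cor_P (hP : P * P = P) {w : Matrix B B ℂ} (hw : w ∈ LieI.cor G P) :
    P * w = w ∧ w * P = w := by
  obtain ⟨z, hz, h1, rfl⟩ := hw
  refine ⟨by rw [← mul_assoc, hP], by rw [h1, mul_assoc, hP]⟩

theorem mem_gP (hP : P * P = P) {w : Matrix B B ℂ} (h1 : P * w = w) (h2 : w * P = w) :
    dn P w ∈ gP G P ↔ w ∈ LieI.cor G P := by
  constructor
  · rintro ⟨w', hw', h⟩
    have h3 := cor_P hP hw'
    have h4 : w' - w = 0 := by
      refine dn_inj (P := P) ?_ ?_ ?_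
      · rw [mul_sub, h3.1, h1]
      · rw [sub_mul, h3.2, h2]
      · rw [map_sub, h, sub_self]
    rw [← sub_eq_zero.1 h4]
    exact hw'
  · intro h
    exact ⟨w, h, rfl⟩

theorem gP_br (HI : LieI G P Q) : ∀ X ∈ gP G P, ∀ Y ∈ gP G P, X * Y - Y * X ∈ gP G P := by
  rintro _ ⟨w, hw, rfl⟩ _ ⟨w', hw', rfl⟩
  have h1 := cor_P HI.PP hw
  have h2 := cor_P HI.PP hw'
  refine ⟨w * w' - w' * w, ?_, by
    rw [dn_mul h1.2, dn_mul h2.2]
    exact map_sub (dn P) (w * w') (w' * w)⟩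
  have hPm : ∃ z ∈ G, P * z = z * P ∧ P = P * z := ⟨P, HI.mP, rfl, HI.PP.symm⟩
  exact (HI.cor_lieI HI.PP HI.PP HI.PP hPm).br _ hw _ hw'

theorem gP_irr (H : LieP G P Q a b) (HI : LieI G P Q) (hI : IrrXY G P Q) (ha : 0 < a)
    (hb : 0 < b) : ∀ W : Submodule ℂ (VP P),
      (∀ X ∈ gP G P, X * X = (1 / 4 : ℂ) • 1 → ∀ u ∈ W, X u ∈ W) → W = ⊥ ∨ W = ⊤ := by
  intro W hW
  have key : W.map (VP P).subtype = ⊥ ∨ ∀ u, P *ᵥ u = u → u ∈ W.map (VP P).subtype := by
    refine irr_min H hI ha hb ?_ ?_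
    · rintro _ ⟨u, hu, rfl⟩
      exact (mem_VP H.PP).1 u.2
    · rintro e f he hf hefe hfef _ ⟨u, hu, rfl⟩
      have := H.PP
      have k := trp_of_pair H he hf hefe hfef
      have h2 : e * f - (1 / 2 : ℂ) • P ∈ LieI.cor G P := by
        refine Submodule.sub_mem _ ?_ (Submodule.smul_mem _ _ ?_)
        · refine ⟨e * f - f * e, H.br _ he.1.1.1 _ hf.1, ?_, ?_⟩
          · have e1 : P * (f * e) = 0 := by rw [← hf.2.1, mul_assoc, ← mul_assoc P, H.PQ, zero_mul]
            have e2 : f * e * P = 0 := by rw [← he.1.1.2.2, mul_assoc, mul_assoc, H.QP, mul_zero,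
              mul_zero]
            rw [mul_sub, sub_mul, e1, e2, k.Pp, k.pP]
          · have e1 : P * (f * e) = 0 := by rw [← hf.2.1, mul_assoc, ← mul_assoc P, H.PQ, zero_mul]
            rw [mul_sub, e1, k.Pp, sub_zero]
        · exact ⟨P, HI.mP, rfl, H.PP.symm⟩
      have h3 : (e * f - (1 / 2 : ℂ) • P) * P = e * f - (1 / 2 : ℂ) • P := by
        rw [sub_mul, smul_mul_assoc, H.PP, k.pP]
      have h4 : dn P (e * f - (1 / 2 : ℂ) • P) * dn P (e * f - (1 / 2 : ℂ) • P) =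
          (1 / 4 : ℂ) • 1 := by
        rw [dn_mul h3, ← dn_one H.PP, ← map_smul]
        congr 1
        rw [sub_mul, mul_sub, mul_sub, k.pp, mul_smul_comm, smul_mul_assoc, smul_mul_assoc,
          mul_smul_comm, H.PP, k.pP, k.Pp]
        module
      have h5 := hW _ ⟨_, h2, rfl⟩ h4 u hu
      refine ⟨dn P (e * f - (1 / 2 : ℂ) • P) u + (1 / 2 : ℂ) • u,
        W.add_mem h5 (W.smul_mem _ hu), ?_⟩
      rw [map_add, map_smul]
      change P *ᵥ ((e * f - (1 / 2 : ℂ) • P) *ᵥ (u : B → ℂ)) + (1 / 2 : ℂ) • (u : B → ℂ) =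
        (e * f) *ᵥ (u : B → ℂ)
      have h6 := (mem_VP H.PP).1 u.2
      rw [sub_mulVec, smul_mulVec, h6, mulVec_sub, mulVec_smul, h6, mulVec_mulVec, k.Pp,
        sub_add_cancel]
  rcases key with h1 | h1
  · left
    rw [Submodule.eq_bot_iff] at h1 ⊢
    intro u hu
    exact Subtype.ext (h1 _ ⟨u, hu, rfl⟩)
  · right
    rw [eq_top_iff]
    rintro ⟨u, hu⟩ -
    obtain ⟨w, hw, hwu⟩ := h1 u ((mem_VP H.PP).1 hu)
    have h2 : w = ⟨u, hu⟩ := Subtype.ext hwu
    rwa [h2] at hw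

/-- The trace form of the corner is nondegenerate. -/
theorem cor_nd (H : LieP G P Q a b) (HI : LieI G P Q) (hI : IrrXY G P Q) (ha : 0 < a)
    (hb : 0 < b) : ∀ z ∈ LieI.cor G P, (∀ w ∈ LieI.cor G P, trace (z * w) = 0) → z = 0 := by
  intro z hz hzw
  have h1 := cor_P H.PP hz
  refine dn_inj h1.1 h1.2 (trace_nondeg (gP_br HI) (gP_irr H HI hI ha hb) ⟨z, hz, rfl⟩ ?_)
  rintro _ ⟨w, hw, rfl⟩
  rw [dn_mul h1.2, dn_trace, mul_assoc, (cor_P H.PP hw).2, hzw w hw]

/-- The elements of degree one of the corner are regular. -/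
theorem cor_rg (H : LieP G P Q a b) (HI : LieI G P Q) (hI : IrrXY G P Q) (ha : 0 < a)
    (hb : 0 < b) {r : Matrix B B ℂ} (rr : r * r = r) (hr : r ∈ LieI.cor G P) :
    ∀ x ∈ pos (LieI.cor G P) r (P - r), ∃ y ∈ pos (LieI.cor G P) (P - r) r, x * y * x = x := by
  intro x hx
  have hr' := cor_P H.PP hr
  have hx' := cor_P H.PP hx.1
  have hPc : P ∈ LieI.cor G P := ⟨P, HI.mP, rfl, H.PP.symm⟩
  have hDm : (2 : ℂ) • r - P ∈ LieI.cor G P :=
    Submodule.sub_mem _ (Submodule.smul_mem _ _ hr) hPc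
  have hD := cor_P H.PP hDm
  have hD2 : dn P ((2 : ℂ) • r - P) * dn P ((2 : ℂ) • r - P) = 1 := by
    rw [dn_mul hD.2, ← dn_one H.PP]
    congr 1
    rw [sub_mul, mul_sub, mul_sub, smul_mul_smul_comm, rr, smul_mul_assoc, mul_smul_comm, H.PP,
      hr'.1, hr'.2]
    module
  have hxr : x * r = 0 := by rw [← hx.2.2, mul_assoc, sub_mul, hr'.1, rr, sub_self, mul_zero]
  obtain ⟨f, ⟨y, hy, rfl⟩, h1, h2, h3, -⟩ := partner (gP_br HI)
    (fun y hy h => trace_nondeg (gP_br HI) (gP_irr H HI hI ha hb) hy h)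
    (D := dn P ((2 : ℂ) • r - P)) (e := dn P x) ⟨_, hDm, rfl⟩ hD2 ⟨x, hx.1, rfl⟩
    (by rw [dn_mul hD.2, sub_mul, smul_mul_assoc, hx.2.1, hx'.1, two_smul, add_sub_cancel_right])
    (by rw [dn_mul hx'.2, mul_sub, mul_smul_comm, hxr, hx'.2, smul_zero, zero_sub, map_neg])
  have hy' := cor_P H.PP hy
  rw [dn_mul hD.2, sub_mul, smul_mul_assoc, hy'.1] at h1
  rw [dn_mul hy'.2, mul_sub, mul_smul_comm, hy'.2] at h2
  rw [dn_mul hx'.2, dn_mul (by rw [mul_assoc, hy'.2])] at h3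
  have h4 : (2 : ℂ) • (r * y) - y - -y = 0 := by
    refine dn_inj (P := P) ?_ ?_ (by rw [map_sub, h1, map_neg]; exact sub_self _)
    · rw [sub_neg_eq_add, sub_add_cancel, mul_smul_comm, ← mul_assoc, hr'.1]
    · rw [sub_neg_eq_add, sub_add_cancel, smul_mul_assoc, mul_assoc, hy'.2]
  have h5 : (2 : ℂ) • (y * r) - y - y = 0 := by
    refine dn_inj (P := P) ?_ ?_ (by rw [map_sub, h2, sub_self])
    · rw [mul_sub, mul_sub, mul_smul_comm, ← mul_assoc, hy'.1]
    · rw [sub_mul, sub_mul, smul_mul_assoc, mul_assoc, hr'.2, hy'.2]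
  have h6 : x * y * x - x = 0 := by
    refine dn_inj (P := P) ?_ ?_ (by rw [map_sub, h3, sub_self])
    · rw [mul_sub, ← mul_assoc, ← mul_assoc, hx'.1]
    · rw [sub_mul, mul_assoc, hx'.2]
  refine ⟨y, ⟨hy, ?_, ?_⟩, sub_eq_zero.1 h6⟩
  · rw [sub_neg_eq_add, sub_add_cancel, smul_eq_zero] at h4
    rw [sub_mul, hy'.1, h4.resolve_left two_ne_zero, sub_zero]
  · rw [sub_sub, ← two_smul ℂ y, ← smul_sub, smul_eq_zero] at h5
    exact sub_eq_zero.1 (h5.resolve_left two_ne_zero)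

/-- The corner is a Lie algebra of the same kind. -/
theorem cor_lieP (H : LieP G P Q a b) (HI : LieI G P Q) (hI : IrrXY G P Q) (ha : 0 < a)
    (hb : 0 < b) {r : Matrix B B ℂ} (rr : r * r = r) (hr : r ∈ LieI.cor G P) {m m' : ℕ}
    (hm : trace r = m) (hm' : trace (P - r) = m') : LieP (LieI.cor G P) r (P - r) m m' := by
  have hr' := cor_P H.PP hr
  have hPc : P ∈ LieI.cor G P := ⟨P, HI.mP, rfl, H.PP.symm⟩
  have h1 := HI.cor_lieI rr hr'.1 hr'.2 hr
  have rr' : (P - r) * (P - r) = P - r := h1.QQ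
  exact
    { br := h1.br
      PP := rr
      QQ := rr'
      PQ := h1.PQ
      QP := h1.QP
      D := Submodule.sub_mem _ hr (Submodule.sub_mem _ hPc hr)
      lel := h1.lel
      ler := h1.ler
      irr := h1.irr
      rg := cor_rg H HI hI ha hb rr hr
      rg' := by
        have h2 := cor_rg H HI hI ha hb rr' (Submodule.sub_mem _ hPc hr)
        rwa [sub_sub_cancel] at h2
      trP := hm
      trQ := hm' }

end

end Pool.Agent.K9h17.B
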