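import Mathlib
import Pool.Agent.K9h17.B.Cor

/-!
# Irreducibility of the corner under its elements of degree one and minus one
-/

set_option linter.unusedSectionVars false

namespace Pool.Agent.K9h17.B

open Matrix Module
open Pool.Agent.Y4.G (trF trF_apply exists_dual exists_eig_range trace_idemM rank_mul_lt
  casimir_comm)
open Pool.Agent.Y4.G.Lie (pos mem_pos)
open Pool.Agent.N183.JP
open Pool.Agent.K9h17.L

noncomputable section

variable {B : Type*} [Fintype B] [DecidableEq B]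

variable {G : Submodule ℂ (Matrix B B ℂ)} {P Q : Matrix B B ℂ} {a b : ℕ}

/-- The Casimir element. -/
theorem cas_mem (H : LieP G P Q a b) : ∃ (n : ℕ) (x y : Fin n → Matrix B B ℂ) (κ : ℂ),
    (∀ i, x i ∈ pos G P Q) ∧ (∀ i, y i ∈ pos G Q P) ∧ ∑ i, x i * y i = κ • P ∧
      κ * a = n ∧ n = finrank ℂ (pos G P Q) := by
  obtain ⟨n, b', y, hy, hyb, hz⟩ := exists_dual (trF B) (pos G P Q) (pos G Q P)
    (fun x hx h => H.nondeg hx h) (fun x hx h => H.symm.nondeg hx fun y hy => by
      rw [trF_apply, trace_mul_comm]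
      exact h y hy)
  obtain ⟨x, hx⟩ : ∃ x : Fin n → Matrix B B ℂ, ∀ i, ((b' i : pos G P Q) : Matrix B B ℂ) = x i :=
    ⟨_, fun _ => rfl⟩
  have hxm : ∀ i, x i ∈ pos G P Q := fun i => by rw [← hx]; exact (b' i).2
  have hx1 : ∀ w ∈ pos G P Q, w = ∑ j, trace (w * y j) • x j := by
    intro w hw
    have h4 := congrArg Subtype.val (b'.sum_repr ⟨w, hw⟩)
    refine h4.symm.trans ?_
    rw [Submodule.coe_sum]
    refine Finset.sum_congr rfl fun j _ => ?_
    have h5 : trace (w * y j) = b'.repr ⟨w, hw⟩ j := hyb j ⟨w, hw⟩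
    rw [h5, ← hx]
    rfl
  have hy1 : ∀ w ∈ pos G Q P, w = ∑ j, trace (x j * w) • y j := by
    intro w hw
    refine (hz w hw).trans ?_
    exact Finset.sum_congr rfl fun j _ => by rw [trF_apply, hx]
  have hcomm : ∀ z ∈ G, P * z = z * P → (∑ i, x i * y i) * z = z * ∑ i, x i * y i := by
    intro z hzG hzP
    have hzQ := H.comm_Q hzG hzP
    exact (casimir_comm x y z (fun i => hx1 _ (H.br_pos (hxm i) hzG hzP hzQ))
      (fun i => hy1 _ (H.symm.br_pos (hy i) hzG hzQ hzP))).1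
  obtain ⟨κ, hκ⟩ := H.schur (c := ∑ i, x i * y i)
    (by
      rw [Finset.mul_sum]
      exact Finset.sum_congr rfl fun i _ => by rw [← mul_assoc, (hxm i).2.1])
    (by
      rw [Finset.sum_mul]
      exact Finset.sum_congr rfl fun i _ => by rw [mul_assoc, (hy i).2.2])
    (fun z hz hzP => hcomm z hz hzP)
  refine ⟨n, x, y, κ, hxm, hy, hκ, ?_, ?_⟩
  · have hn : ∑ i, trace (x i * y i) = (n : ℂ) := by
      have h3 : ∀ i, trace (x i * y i) = 1 := by
        intro i
        have h4 : trace (((b' i : pos G P Q) : Matrix B B ℂ) * y i) = b'.repr (b' i) i :=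
          hyb i (b' i)
        rw [hx] at h4
        rw [h4, Basis.repr_self, Finsupp.single_eq_same]
      rw [Finset.sum_congr rfl fun i _ => h3 i]
      simp
    rw [← hn, ← trace_sum, hκ, trace_smul, H.trP, smul_eq_mul]
  · rw [finrank_eq_card_basis b', Fintype.card_fin]

/-- Subspaces stable under the elements of degree one and minus one are stable under the
projector. -/
theorem p_stable (H : LieP G P Q a b) (ha : 0 < a) (hb : 0 < b) {W : Submodule ℂ (B → ℂ)}
    (hx : ∀ x ∈ pos G P Q, ∀ u ∈ W, x *ᵥ u ∈ W) (hy : ∀ y ∈ pos G Q P, ∀ u ∈ W, y *ᵥ u ∈ W) :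
    ∀ u ∈ W, P *ᵥ u ∈ W := by
  intro u hu
  obtain ⟨n, x, y, κ, hxm, hym, hκ, h1, h2⟩ := cas_mem H
  have hn : 0 < n := by
    rw [h2]
    have : Nontrivial (pos G P Q) := Submodule.nontrivial_iff_ne_bot.2 (H.pos_ne_bot ha hb)
    exact finrank_pos
  have hκ0 : κ ≠ 0 := by
    rintro rfl
    rw [zero_mul] at h1
    have : n = 0 := by exact_mod_cast h1.symm
    omega
  have h3 : κ • (P *ᵥ u) ∈ W := by
    rw [← smul_mulVec, ← hκ, Matrix.sum_mulVec]
    refine W.sum_mem fun i _ => ?_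
    rw [← mulVec_mulVec]
    exact hx _ (hxm i) _ (hy _ (hym i) _ hu)
  have h4 := W.smul_mem κ⁻¹ h3
  rwa [smul_smul, inv_mul_cancel₀ hκ0, one_smul] at h4

/-- The products are in the corner. -/
theorem xy_cor (H : LieP G P Q a b) {x y : Matrix B B ℂ} (hx : x ∈ pos G P Q)
    (hy : y ∈ pos G Q P) : x * y ∈ LieI.cor G P := by
  have e1 : P * (y * x) = 0 := by rw [← hy.2.1, mul_assoc, ← mul_assoc P, H.PQ, zero_mul]
  have e2 : y * x * P = 0 := by rw [← hx.2.2, mul_assoc, mul_assoc, H.QP, mul_zero, mul_zero]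
  have e3 : P * (x * y) = x * y := by rw [← mul_assoc, hx.2.1]
  have e4 : x * y * P = x * y := by rw [mul_assoc, hy.2.2]
  refine ⟨x * y - y * x, H.br _ hx.1 _ hy.1, ?_, ?_⟩
  · rw [mul_sub, sub_mul, e1, e2, e3, e4]
  · rw [mul_sub, e1, e3, sub_zero]

/-- **Irreducibility of the corner.** -/
theorem cor_irrXY (H : LieP G P Q a b) (hI : IrrXY G P Q) {e f p q : Matrix B B ℂ}
    (k : TrpP G P Q e f p q) (HC : LieI (LieI.cor G P) p (P - p)) {m m' : ℕ}
    (H' : LieP (LieI.cor G P) p (P - p) m m') (hm : 0 < m) (hm' : 0 < m') :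
    IrrXY (LieI.cor G P) p (P - p) := by
  intro W hWP hup hdn
  rw [add_sub_cancel] at hWP ⊢
  have hp := p_stable H' hm hm' hup hdn
  -- elements of degree zero of the corner
  have hgr : ∀ x ∈ pos G P Q, ∀ y ∈ pos G Q P, p * (x * y) * (P - p) ∈
      pos (LieI.cor G P) p (P - p) := fun x hx y hy =>
    ⟨HC.grP (xy_cor H hx hy), by rw [← mul_assoc, ← mul_assoc, k.pp],
      by rw [mul_assoc _ (P - p), HC.QQ]⟩
  have hgr' : ∀ x ∈ pos G P Q, ∀ y ∈ pos G Q P, (P - p) * (x * y) * p ∈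
      pos (LieI.cor G P) (P - p) p := fun x hx y hy =>
    ⟨HC.grQ (xy_cor H hx hy), by rw [← mul_assoc, ← mul_assoc, HC.QQ],
      by rw [mul_assoc _ p, k.pp]⟩
  -- the diagonal part
  have hdiag : ∀ x ∈ pos G P Q, ∀ y ∈ pos G Q P, ∃ μ : ℂ, p * (x * y) * p = μ • p -
      (p * (e * y) * (P - p)) * ((P - p) * (x * f) * p) := by
    intro x hx y hy
    obtain ⟨μ, hμ⟩ := k.one _ (k.mem2 _ (H.tri hx hy k.mem)) (by
      rw [← mul_assoc, ← mul_assoc, k.pp, mul_assoc _ q q, k.qq])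
    obtain ⟨c, hc⟩ := k.one' _ (k.mem2' y hy) (by
      rw [← mul_assoc, ← mul_assoc, k.qq, mul_assoc _ p p, k.pp])
    obtain ⟨c', hc'⟩ := k.one _ (k.mem2 x hx) (by
      rw [← mul_assoc, ← mul_assoc, k.pp, mul_assoc _ q q, k.qq])
    refine ⟨μ - c * c', ?_⟩
    have e1 := congrArg (fun z => z * f) hμ
    beta_reduce at e1
    have e2 : p * (x * y * e + e * y * x) * q * f = p * (x * y) * (e * (q * f)) +
        (p * e) * y * x * (q * f) := by noncomm_ring
    rw [e2, k.qf, k.ef, k.pe, smul_mul_assoc, k.ef] at e1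
    have e3 : e * y * x * f = e * y * (P * x) * f := by rw [hx.2.1]
    have e4 : e * y * (P * x) * f = (e * y * p) * (p * x * f) + e * y * (P - p) * x * f := by
      have e5 : (e * y * p) * (p * x * f) = e * y * (p * p) * x * f := by noncomm_ring
      rw [e5, k.pp]
      noncomm_ring
    have e5 : e * y * p = c • p := by
      rw [← k.ef, ← mul_smul_comm, ← hc, k.ef]
      calc e * y * p = (e * q) * y * p := by rw [k.eq]
      _ = _ := by noncomm_ring
    have e6 : p * x * f = c' • p := by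
      rw [← k.ef, ← smul_mul_assoc, ← hc', k.ef]
      calc p * x * f = p * x * (q * f) := by rw [k.qf]
      _ = _ := by noncomm_ring
    have e7 : (p * (e * y) * (P - p)) * ((P - p) * (x * f) * p) = e * y * (P - p) * x * f := by
      calc (p * (e * y) * (P - p)) * ((P - p) * (x * f) * p) =
          (p * e) * y * ((P - p) * (P - p)) * x * (f * p) := by noncomm_ring
      _ = _ := by rw [k.pe, HC.QQ, k.fp]
    have e8 : p * (x * y) * p = μ • p - e * y * x * f := by
      rw [← e1, add_sub_cancel_right]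
    rw [e8, e3, e4, e5, e6, e7, smul_mul_smul_comm, k.pp, sub_smul]
    abel
  let S : Submodule ℂ (B → ℂ) := W.map (mulVecLin p)
  have hSW : ∀ w ∈ S, w ∈ W := by
    rintro _ ⟨w, hw, rfl⟩
    exact hp w hw
  have hSp : ∀ w ∈ S, p *ᵥ w = w := by
    rintro _ ⟨w, hw, rfl⟩
    rw [mulVecLin_apply, mulVec_mulVec, k.pp]
  have hupS : ∀ x ∈ pos (LieI.cor G P) p (P - p), ∀ u ∈ W, x *ᵥ u ∈ S := by
    intro x hx u hu
    refine ⟨x *ᵥ u, hup x hx u hu, ?_⟩
    rw [mulVecLin_apply, mulVec_mulVec, hx.2.1]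
  have hpSS : ∀ x ∈ pos G P Q, ∀ y ∈ pos G Q P, ∀ w ∈ S, (p * (x * y) * p) *ᵥ w ∈ S := by
    intro x hx y hy w hw
    obtain ⟨μ, hμ⟩ := hdiag x hx y hy
    rw [hμ, sub_mulVec, smul_mulVec, hSp w hw, ← mulVec_mulVec]
    exact S.sub_mem (S.smul_mem _ hw) (hupS _ (hgr e k.mem y hy) _
      (hdn _ (hgr' x hx f k.fmem) _ (hSW w hw)))
  let T : Submodule ℂ (B → ℂ) := Submodule.span ℂ
    {t | ∃ d ∈ pos (LieI.cor G P) (P - p) p, ∃ w ∈ S, t = d *ᵥ w}
  have hTW : ∀ t ∈ T, t ∈ W := by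
    intro t ht
    have hle : T ≤ W := by
      refine Submodule.span_le.2 ?_
      rintro _ ⟨d, hd, w, hw, rfl⟩
      exact hdn d hd w (hSW w hw)
    exact hle ht
  have hTt : ∀ t ∈ T, (P - p) *ᵥ t = t := by
    intro u hu
    induction hu using Submodule.span_induction with
    | mem w hw =>
      obtain ⟨d, hd, w, hw, rfl⟩ := hw
      rw [mulVec_mulVec, hd.2.1]
    | zero => exact mulVec_zero _
    | add x y _ _ hx hy => rw [mulVec_add, hx, hy]
    | smul r x _ hx => rw [mulVec_smul, hx]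
  have hPS : ∀ u ∈ S ⊔ T, P *ᵥ u = u := by
    intro u hu
    refine hWP u ?_
    exact (sup_le hSW hTW : S ⊔ T ≤ W) hu
  have hsplit : ∀ (z : Matrix B B ℂ), P * z = z → ∀ w, z *ᵥ w = (p * z) *ᵥ w +
      ((P - p) * z) *ᵥ w := by
    intro z hz w
    rw [← add_mulVec, ← add_mul, add_sub_cancel, hz]
  have hTT : ∀ x ∈ pos G P Q, ∀ y ∈ pos G Q P, ∀ t ∈ T,
      ((P - p) * (x * y) * (P - p)) *ᵥ t ∈ T := by
    intro x hx y hy t ht
    induction ht using Submodule.span_induction with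
    | mem w hw =>
      obtain ⟨d, hd, w, hw, rfl⟩ := hw
      have hz := HC.gr0 (xy_cor H hx hy)
      have hzc := HC.gr0_comm (x * y)
      have hzQ := HC.comm_Q hz hzc
      have h1 := H'.symm.br_pos hd hz hzQ hzc
      have hdp : d * p = d := hd.2.2
      have hpd : p * d = 0 := by rw [← hd.2.1, ← mul_assoc, HC.PQ, zero_mul]
      have hdq : d * (P - p) = 0 := by rw [← hd.2.2, mul_assoc, HC.PQ, mul_zero]
      have e1 : (P - p) * (x * y) * (P - p) * d = (p * (x * y) * p + (P - p) * (x * y) * (P - p)) *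
          d - d * (p * (x * y) * p + (P - p) * (x * y) * (P - p)) + d * (p * (x * y) * p) := by
        have e2 : p * (x * y) * p * d = 0 := by rw [mul_assoc, hpd, mul_zero]
        have e3 : d * ((P - p) * (x * y) * (P - p)) = 0 := by
          rw [← mul_assoc, ← mul_assoc, hdq, zero_mul, zero_mul]
        rw [add_mul, mul_add, e2, e3]
        abel
      rw [mulVec_mulVec, e1, add_mulVec]
      refine T.add_mem (Submodule.subset_span ⟨_, h1, w, hw, rfl⟩) ?_
      rw [← mulVec_mulVec]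
      exact Submodule.subset_span ⟨d, hd, _, hpSS x hx y hy w hw, rfl⟩
    | zero =>
      rw [mulVec_zero]
      exact T.zero_mem
    | add u1 u2 _ _ h1 h2 =>
      rw [mulVec_add]
      exact T.add_mem h1 h2
    | smul r u1 _ h1 =>
      rw [mulVec_smul]
      exact T.smul_mem _ h1
  have hST : ∀ x ∈ pos G P Q, ∀ y ∈ pos G Q P, ∀ u ∈ S ⊔ T, x *ᵥ (y *ᵥ u) ∈ S ⊔ T := by
    intro x hx y hy u hu
    have hPxy : P * (x * y) = x * y := by rw [← mul_assoc, hx.2.1]
    obtain ⟨s, hs, t, ht, rfl⟩ := Submodule.mem_sup.1 hu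
    rw [mulVec_mulVec, mulVec_add]
    refine Submodule.add_mem _ ?_ ?_
    · rw [hsplit _ hPxy]
      refine Submodule.add_mem _ (Submodule.mem_sup_left ?_) (Submodule.mem_sup_right ?_)
      · have h1 := hpSS x hx y hy s hs
        rwa [← mulVec_mulVec, hSp s hs] at h1
      · refine Submodule.subset_span ⟨_, hgr' x hx y hy, s, hs, ?_⟩
        rw [← mulVec_mulVec s _ p, hSp s hs]
    · rw [hsplit _ hPxy]
      refine Submodule.add_mem _ (Submodule.mem_sup_left ?_) (Submodule.mem_sup_right ?_)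
      · have h1 := hupS _ (hgr x hx y hy) t (hTW t ht)
        rwa [← mulVec_mulVec, hTt t ht] at h1
      · have h1 := hTT x hx y hy t ht
        rwa [← mulVec_mulVec, hTt t ht] at h1
  rcases levi_xy H hI hPS hST with h1 | h1
  · left
    -- the vectors killed by the elements of degree one
    let W0 : Submodule ℂ (B → ℂ) :=
      { carrier := {u | (P - p) *ᵥ u = u ∧ ∀ x ∈ pos (LieI.cor G P) p (P - p), x *ᵥ u = 0}
        zero_mem' := ⟨mulVec_zero _, fun _ _ => mulVec_zero _⟩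
        add_mem' := fun {u v} hu hv => ⟨by rw [mulVec_add, hu.1, hv.1], fun x hx => by
          rw [mulVec_add, hu.2 x hx, hv.2 x hx, add_zero]⟩
        smul_mem' := fun c u hu => ⟨by rw [mulVec_smul, hu.1], fun x hx => by
          rw [mulVec_smul, hu.2 x hx, smul_zero]⟩ }
    have hPr : P * (P - p) = P - p := by rw [mul_sub, H.PP, k.Pp]
    have hW0P : ∀ u ∈ W0, P *ᵥ u = u := by
      intro u hu
      rw [← hu.1, mulVec_mulVec, hPr]
    have hW0 : ∀ x ∈ pos G P Q, ∀ y ∈ pos G Q P, ∀ u ∈ W0, x *ᵥ (y *ᵥ u) ∈ W0 := by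
      intro x hx y hy u hu
      have hPxy : P * (x * y) = x * y := by rw [← mul_assoc, hx.2.1]
      have h2 : (p * (x * y)) *ᵥ u = 0 := by
        have h3 := hu.2 _ (hgr x hx y hy)
        rwa [← mulVec_mulVec, hu.1] at h3
      have h3 : x *ᵥ (y *ᵥ u) = ((P - p) * (x * y) * (P - p)) *ᵥ u := by
        rw [mulVec_mulVec, hsplit _ hPxy, h2, zero_add, ← mulVec_mulVec u _ (P - p), hu.1]
      rw [h3]
      refine ⟨by rw [mulVec_mulVec, ← mul_assoc, ← mul_assoc, HC.QQ], fun c hc => ?_⟩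
      have hz := HC.gr0 (xy_cor H hx hy)
      have hzc := HC.gr0_comm (x * y)
      have hzQ := HC.comm_Q hz hzc
      have h4 := H'.br_pos hc hz hzc hzQ
      have h5 := hu.2 _ h4
      have hcp : c * p = 0 := by rw [← hc.2.2, mul_assoc, HC.QP, mul_zero]
      have e1 : c * (p * (x * y) * p + (P - p) * (x * y) * (P - p)) =
          c * ((P - p) * (x * y) * (P - p)) := by
        rw [mul_add, ← mul_assoc c (p * (x * y)), ← mul_assoc c p, hcp, zero_mul, zero_mul,
          zero_add]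
      rw [sub_mulVec, ← mulVec_mulVec, hu.2 c hc, mulVec_zero, zero_sub, e1, neg_eq_zero] at h5
      rw [mulVec_mulVec]
      exact h5
    have hW0b : W0 = ⊥ := by
      rcases levi_xy H hI hW0P hW0 with h2 | h2
      · exact h2
      · exfalso
        apply k.ne
        refine mat_ext fun v => ?_
        have h3 := h2 (e *ᵥ v) (by rw [mulVec_mulVec, k.mem.2.1])
        have h4 := h3.1
        rw [mulVec_mulVec, sub_mul, k.mem.2.1, k.pe, sub_self, zero_mulVec] at h4
        rw [← h4, zero_mulVec]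
    rw [eq_bot_iff, ← hW0b]
    intro u hu
    have hpu : p *ᵥ u = 0 := by
      have h2 : p *ᵥ u ∈ S ⊔ T := Submodule.mem_sup_left ⟨u, hu, rfl⟩
      rw [h1, Submodule.mem_bot] at h2
      exact h2
    refine ⟨by rw [sub_mulVec, hpu, sub_zero, hWP u hu], fun x hx => ?_⟩
    have h2 : x *ᵥ u ∈ S ⊔ T := Submodule.mem_sup_left (hupS x hx u hu)
    rw [h1, Submodule.mem_bot] at h2
    exact h2
  · right
    intro u hu
    exact (sup_le hSW hTW : S ⊔ T ≤ W) (h1 u hu)

end

end Pool.Agent.K9h17.B
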