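import Mathlib
import Pool.Agent.K9h17.B.Irr
import Pool.Agent.K9h17.L.RTwo
import Pool.Agent.K9h17.L.ROne

/-!
# Pairs of rank one with an orthogonal projector
-/

set_option linter.unusedSectionVars false

namespace Pool.Agent.K9h17.B

open Matrix Module
open Pool.Agent.Y4.G (trF trF_apply exists_dual exists_eig_range trace_idemM rank_mul_lt
  finrank_eq_one_of)
open Pool.Agent.Y4.G.Lie (pos mem_pos)
open Pool.Agent.N183.JP
open Pool.Agent.K9h17.L

noncomputable section

variable {B : Type*} [Fintype B] [DecidableEq B]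

variable {G : Submodule ℂ (Matrix B B ℂ)} {P Q : Matrix B B ℂ} {a b : ℕ}

theorem trp_ne {e f p q : Matrix B B ℂ} (k : TrpP G P Q e f p q) : trace p ≠ 0 := by
  intro h1
  have h2 : p = 0 := idem_zero k.pp h1
  apply k.ne
  rw [← k.pe, h2, zero_mul]

/-- The polarized quadratic identity. -/
theorem hpol (H : LieP G P Q a b) {e f p q : Matrix B B ℂ} (k : TrpP G P Q e f p q)
    (h0 : ∀ x ∈ pos G P Q, (P - p) * x * (Q - q) = 0) (u u' w : Matrix B B ℂ)
    (hu : u ∈ pos G P Q) (hu' : u' ∈ pos G P Q) (hw : w ∈ pos G Q P) :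
    trace p • (u * w * u' + u' * w * u) = trace (u * w) • u' + trace (u' * w) • u := by
  have h1 := beta H k h0 (Submodule.add_mem _ hu hu') hw
  have h2 := beta H k h0 hu hw
  have h3 := beta H k h0 hu' hw
  have e1 : (u + u') * w * (u + u') = u * w * u + (u * w * u' + u' * w * u) + u' * w * u' := by
    noncomm_ring
  rw [e1, add_mul, trace_add, smul_add, smul_add, h2, h3] at h1
  have e2 : (trace (u * w) + trace (u' * w)) • (u + u') =
      trace (u * w) • u + (trace (u * w) • u' + trace (u' * w) • u) + trace (u' * w) • u' := by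
    module
  rw [e2] at h1
  exact add_left_cancel (add_right_cancel h1)

theorem hpol' (H : LieP G P Q a b) {e f p q : Matrix B B ℂ} (k : TrpP G P Q e f p q)
    (h0 : ∀ x ∈ pos G P Q, (P - p) * x * (Q - q) = 0) (u u' w : Matrix B B ℂ)
    (hu : u ∈ pos G Q P) (hu' : u' ∈ pos G Q P) (hw : w ∈ pos G P Q) :
    trace p • (u * w * u' + u' * w * u) = trace (u * w) • u' + trace (u' * w) • u := by
  have h1 := hpol H.symm (trp_symm H k) (no_two_symm H k h0) u u' w hu hu' hw
  rwa [k.trpq] at h1

/-- Vectors killed by the elements of degree one. -/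
theorem ker_up (H : LieP G P Q a b) (hI : IrrXY G P Q) (hP : P ≠ 0) {v : B → ℂ}
    (hv : Q *ᵥ v = v) (h : ∀ x ∈ pos G P Q, x *ᵥ v = 0) : v = 0 := by
  let W0 : Submodule ℂ (B → ℂ) :=
    { carrier := {u | Q *ᵥ u = u ∧ ∀ x ∈ pos G P Q, x *ᵥ u = 0}
      zero_mem' := ⟨mulVec_zero _, fun _ _ => mulVec_zero _⟩
      add_mem' := fun {u v} hu hv => ⟨by rw [mulVec_add, hu.1, hv.1], fun x hx => by
        rw [mulVec_add, hu.2 x hx, hv.2 x hx, add_zero]⟩
      smul_mem' := fun c u hu => ⟨by rw [mulVec_smul, hu.1], fun x hx => by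
        rw [mulVec_smul, hu.2 x hx, smul_zero]⟩ }
  have hPu : ∀ u ∈ W0, P *ᵥ u = 0 := by
    intro u hu
    rw [← hu.1, mulVec_mulVec, H.PQ, zero_mulVec]
  rcases hI W0 (fun u hu => by rw [add_mulVec, hPu u hu, zero_add, hu.1])
    (fun x hx u hu => by rw [hu.2 x hx]; exact W0.zero_mem)
    (fun y hy u hu => by
      rw [← hy.2.2, ← mulVec_mulVec, hPu u hu, mulVec_zero]
      exact W0.zero_mem) with h1 | h1
  · have h2 : v ∈ W0 := ⟨hv, h⟩
    rwa [h1, Submodule.mem_bot] at h2
  · exfalso
    apply hP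
    refine mat_ext fun w => ?_
    have h2 := hPu _ (h1 (P *ᵥ w) (by rw [mulVec_mulVec, add_mul, H.PP, H.QP, add_zero]))
    rw [mulVec_mulVec, H.PP] at h2
    rw [h2, zero_mulVec]

/-- **A pair of rank one with an orthogonal projector** acts on a line. -/
theorem rank_one_pair (H : LieP G P Q a b) (hI : IrrXY G P Q) {e f p q : Matrix B B ℂ}
    (k : TrpP G P Q e f p q) (h0 : ∀ x ∈ pos G P Q, (P - p) * x * (Q - q) = 0)
    {r : Matrix B B ℂ} (hr : r ∈ G) (rr : r * r = r) (Qr : Q * r = r) (rQ : r * Q = r)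
    (r0 : r ≠ 0) (rQ0 : Q - r ≠ 0) : trace P = 1 := by
  have hc0 := trp_ne k
  obtain ⟨c, hc⟩ : ∃ c, c = trace p := ⟨_, rfl⟩
  rw [← hc] at hc0
  have pol := hpol H k h0
  have pol' := hpol' H k h0
  rw [← hc] at pol pol'
  have hP0 : P ≠ 0 := by
    intro h1
    apply k.ne
    rw [← k.mem.2.1, h1, zero_mul]
  have hPr : P * r = 0 := by rw [← Qr, ← mul_assoc, H.PQ, zero_mul]
  have hrP : r * P = 0 := by rw [← rQ, mul_assoc, H.QP, mul_zero]
  have hur : ∀ u ∈ pos G P Q, u * r ∈ pos G P Q := by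
    intro u hu
    have h1 := H.br _ hu.1 _ hr
    have h2 : r * u = 0 := by rw [← hu.2.1, ← mul_assoc, hrP, zero_mul]
    rw [h2, sub_zero] at h1
    exact ⟨h1, by rw [← mul_assoc, hu.2.1], by rw [mul_assoc, rQ]⟩
  have hry : ∀ y ∈ pos G Q P, r * y ∈ pos G Q P := by
    intro y hy
    have h1 := H.br _ hr _ hy.1
    have h2 : y * r = 0 := by rw [← hy.2.2, mul_assoc, hPr, mul_zero]
    rw [h2, sub_zero] at h1
    exact ⟨h1, by rw [← mul_assoc, Qr], by rw [mul_assoc, hy.2.2]⟩
  -- the element `x`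
  obtain ⟨x, hx, hxr, hx0⟩ : ∃ x ∈ pos G P Q, x * r = x ∧ x ≠ 0 := by
    by_contra hcon
    push Not at hcon
    apply r0
    refine mat_ext fun v => ?_
    rw [zero_mulVec]
    refine ker_up H hI hP0 (by rw [mulVec_mulVec, Qr]) fun x hx => ?_
    rw [mulVec_mulVec, hcon _ (hur x hx) (by rw [mul_assoc, rr]), zero_mulVec]
  obtain ⟨x1, hx1, hx1r⟩ : ∃ x ∈ pos G P Q, x * (Q - r) ≠ 0 := by
    by_contra hcon
    push Not at hcon
    apply rQ0
    refine mat_ext fun v => ?_
    rw [zero_mulVec]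
    refine ker_up H hI hP0 (by rw [mulVec_mulVec, mul_sub, H.QQ, Qr]) fun x hx => ?_
    rw [mulVec_mulVec, hcon x hx, zero_mulVec]
  have hx1m : x1 * (Q - r) ∈ pos G P Q := by
    rw [mul_sub, hx1.2.2]
    exact Submodule.sub_mem _ hx1 (hur x1 hx1)
  obtain ⟨y', hy', hry', hy0⟩ : ∃ y ∈ pos G Q P, r * y = 0 ∧ y ≠ 0 := by
    by_contra hcon
    push Not at hcon
    apply hx1r
    refine H.nondeg hx1m fun y hy => ?_
    have h1 : y - r * y = 0 := by
      refine hcon _ (Submodule.sub_mem _ hy (hry y hy)) ?_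
      rw [mul_sub, ← mul_assoc, rr, sub_self]
    have h2 : (Q - r) * y = 0 := by rw [sub_mul, hy.2.1, h1]
    rw [trF_apply, mul_assoc, h2, mul_zero, trace_zero]
  have hxy : x * y' = 0 := by rw [← hxr, mul_assoc, hry', mul_zero]
  -- the partner of `x`
  obtain ⟨w0, hw0, hxwx, hwxw⟩ := exists_partner H hx
  obtain ⟨p', hp'⟩ : ∃ p', p' = x * w0 := ⟨_, rfl⟩
  have pp' : p' * p' = p' := by rw [hp', ← mul_assoc, hxwx]
  have hPp' : P * p' = p' := by rw [hp', ← mul_assoc, hx.2.1]
  have hp'P : p' * P = p' := by rw [hp', mul_assoc, hw0.2.2]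
  have hp'x : p' * x = x := by rw [hp', hxwx]
  have htx : trace (x * w0) = c := by
    have h1 := pol x x w0 hx hx hw0
    rw [hxwx, ← two_smul ℂ x, ← add_smul, smul_smul] at h1
    have h2 : (c * 2 - (trace (x * w0) + trace (x * w0))) • x = 0 := by
      rw [sub_smul, h1, sub_self]
    have h3 := (smul_eq_zero.1 h2).resolve_right hx0
    linear_combination (-1 / 2 : ℂ) * h3
  -- the first relation
  have hA : ∀ u ∈ pos G P Q, ∀ w ∈ pos G Q P,
      trace (x * w) • (u * y') = trace (u * y') • (x * w) := by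
    intro u hu w hw
    have h1 := congrArg (fun z => z * y') (pol u x w hu hx hw)
    have h2 := congrArg (fun z => x * z) (pol' w y' u hw hy' hu)
    beta_reduce at h1 h2
    simp only [smul_mul_assoc, mul_smul_comm, add_mul, mul_add] at h1 h2
    have e1 : u * w * x * y' = 0 := by rw [mul_assoc _ x, hxy, mul_zero]
    have e2 : x * (y' * u * w) = 0 := by rw [← mul_assoc, ← mul_assoc, hxy, zero_mul, zero_mul]
    rw [e1, hxy, smul_zero, zero_add, zero_add] at h1
    rw [e2, hxy, smul_zero, add_zero, zero_add] at h2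
    have e3 : x * w * u * y' = x * (w * u * y') := by noncomm_ring
    rw [e3] at h1
    rw [← h1, h2, trace_mul_comm y']
  have hB : ∀ u ∈ pos G P Q, c • (u * y') = trace (u * y') • p' := by
    intro u hu
    have h1 := hA u hu w0 hw0
    rwa [htx, ← hp'] at h1
  -- an element not orthogonal to `y'`
  obtain ⟨u0, hu0, htu0⟩ : ∃ u ∈ pos G P Q, trace (u * y') = c := by
    by_contra hcon
    push Not at hcon
    apply hy0
    refine H.symm.nondeg hy' fun u hu => ?_
    rw [trF_apply, trace_mul_comm]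
    by_contra h1
    refine hcon ((c * (trace (u * y'))⁻¹) • u) (Submodule.smul_mem _ _ hu) ?_
    rw [smul_mul_assoc, trace_smul, smul_eq_mul, mul_assoc, inv_mul_cancel₀ h1, mul_one]
  have hu0y : u0 * y' = p' := by
    have h1 := hB u0 hu0
    rw [htu0] at h1
    exact smul_right_injective _ hc0 h1
  have hC : ∀ w ∈ pos G Q P, c • (x * w) = trace (x * w) • p' := by
    intro w hw
    have h1 := hA u0 hu0 w hw
    rw [htu0, hu0y] at h1
    exact h1.symm
  have hPu : ∀ u ∈ pos G P Q, ∀ z, P * (u * z) = u * z := fun u hu z => by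
    rw [← mul_assoc, hu.2.1]
  have h1p' : (P - p') * p' = 0 := by rw [sub_mul, hPp', pp', sub_self]
  have hp'1 : p' * (P - p') = 0 := by rw [mul_sub, hp'P, pp', sub_self]
  -- the second relation
  have hE1 : ∀ u ∈ pos G P Q, ∀ w ∈ pos G Q P, c • (u * w * p') = trace (u * w) • p' +
      trace (x * w) • ((P - p') * (u * w0)) := by
    intro u hu w hw
    have h1 := congrArg (fun z => z * w0) (pol u x w hu hx hw)
    beta_reduce at h1
    simp only [smul_mul_assoc, add_mul, smul_add] at h1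
    have e1 : u * w * x * w0 = u * w * p' := by rw [hp', mul_assoc]
    have e2 : c • (x * w * u * w0) = trace (x * w) • (p' * (u * w0)) := by
      rw [mul_assoc, ← smul_mul_assoc, hC w hw, smul_mul_assoc]
    rw [e1, e2, ← hp'] at h1
    rw [sub_mul, hPu u hu, smul_sub]
    rw [eq_sub_of_add_eq h1]
    abel
  have hE2 : ∀ u' ∈ pos G P Q, ∀ w ∈ pos G Q P, c • (c • (u' * w * p')) +
      c • (trace (u' * y') • (p' * (u0 * w))) = trace (w * u0) • (trace (u' * y') • p') +
        c • (c • (u' * w)) := by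
    intro u' hu' w hw
    have h1 := congrArg (fun z => u' * z) (pol' w y' u0 hw hy' hu0)
    beta_reduce at h1
    simp only [mul_smul_comm, mul_add, smul_add] at h1
    have e1 : u' * (w * u0 * y') = u' * w * p' := by rw [← hu0y]; noncomm_ring
    have e3 : u' * (y' * u0 * w) = (u' * y') * (u0 * w) := by noncomm_ring
    rw [e1, e3, trace_mul_comm y', htu0, ← smul_mul_assoc c (u' * y'), hB u' hu',
      smul_mul_assoc] at h1
    have h2 := congrArg (fun z => c • z) h1
    beta_reduce at h2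
    rw [smul_add, smul_add, smul_comm c (trace (w * u0)) (u' * y'), hB u' hu'] at h2
    exact h2
  have hN : ∀ u ∈ pos G P Q, ∀ w ∈ pos G Q P, (P - p') * (u * w) = (P - p') * (u * w) * p' := by
    intro u hu w hw
    have h1 := congrArg (fun z => (P - p') * z) (hE2 u hu w hw)
    beta_reduce at h1
    simp only [mul_smul_comm, mul_add] at h1
    rw [← mul_assoc (P - p') p', h1p', zero_mul, smul_zero, smul_zero, smul_zero,
      add_zero, zero_add, smul_smul, smul_smul] at h1
    have h2 := smul_right_injective _ (mul_ne_zero hc0 hc0) h1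
    beta_reduce at h2
    rw [mul_assoc (P - p') (u * w) p']
    exact h2.symm
  have hNc : ∀ u ∈ pos G P Q, ∀ w ∈ pos G Q P,
      c • ((P - p') * (u * w)) = trace (x * w) • ((P - p') * (u * w0)) := by
    intro u hu w hw
    have h1 := congrArg (fun z => (P - p') * z) (hE1 u hu w hw)
    beta_reduce at h1
    have h3 : (P - p') * (P - p') = P - p' := by
      rw [mul_sub, h1p', sub_zero, sub_mul, H.PP, hp'P]
    rw [mul_smul_comm, mul_add, mul_smul_comm, mul_smul_comm, h1p', smul_zero, zero_add,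
      ← mul_assoc (P - p') (P - p'), h3, ← mul_assoc, ← hN u hu w hw] at h1
    exact h1
  have hMc : ∀ u ∈ pos G P Q, ∀ w ∈ pos G Q P, c • (p' * (u * w) * (P - p')) =
      trace (u * y') • (p' * (u0 * w) * (P - p')) := by
    intro u hu w hw
    have h1 := congrArg (fun z => p' * z * (P - p')) (hE2 u hu w hw)
    beta_reduce at h1
    simp only [mul_smul_comm, smul_mul_assoc, mul_add, add_mul] at h1
    have e1 : p' * (u * w * p') * (P - p') = 0 := by
      rw [mul_assoc, mul_assoc _ p', hp'1, mul_zero, mul_zero]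
    have e2 : p' * p' * (P - p') = 0 := by rw [mul_assoc, hp'1, mul_zero]
    rw [e1, e2, smul_zero, smul_zero, smul_zero, smul_zero, zero_add, zero_add,
      ← mul_assoc p' p', pp'] at h1
    exact (smul_right_injective _ hc0 h1).symm
  have hsq : ∀ u ∈ pos G P Q, ∀ w ∈ pos G Q P, c • ((u * w) * (u * w)) =
      trace (u * w) • (u * w) := by
    intro u hu w hw
    have h1 := congrArg (fun z => z * w) (beta H k h0 hu hw)
    beta_reduce at h1
    rw [smul_mul_assoc, smul_mul_assoc, ← hc] at h1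
    rw [← mul_assoc (u * w) u]
    exact h1
  have hpup : ∀ u ∈ pos G P Q, ∀ w ∈ pos G Q P, c • (p' * (u * w) * p') =
      trace (u * w) • p' := by
    intro u hu w hw
    have h1 := congrArg (fun z => p' * z) (hE1 u hu w hw)
    beta_reduce at h1
    rw [mul_smul_comm, mul_add, mul_smul_comm, mul_smul_comm, pp', ← mul_assoc p' (P - p'),
      hp'1, zero_mul, smul_zero, add_zero, ← mul_assoc] at h1
    exact h1
  have hsp : ∀ z : Matrix B B ℂ, P * z = z → z * P = z → z = p' * z * p' + p' * z * (P - p') +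
      (P - p') * z := by
    intro z h1 h2
    have e1 : p' * z * p' + p' * z * (P - p') + (P - p') * z = p' * z * P - p' * z + P * z := by
      noncomm_ring
    rw [e1, mul_assoc, h2, h1]
    abel
  have huwP : ∀ u : Matrix B B ℂ, ∀ w ∈ pos G Q P, u * w * P = u * w := fun u w hw => by
    rw [mul_assoc, hw.2.2]
  -- the product of the two off-diagonal parts
  have hMN1 : ∀ u ∈ pos G P Q, ∀ w ∈ pos G Q P,
      (p' * (u * w) * (P - p')) * ((P - p') * (u * w)) = 0 := by
    intro u hu w hw
    have h1 := congrArg (fun z => p' * z * p') (hsq u hu w hw)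
    beta_reduce at h1
    rw [mul_smul_comm, smul_mul_assoc, mul_smul_comm, smul_mul_assoc] at h1
    have e1 : p' * (u * w * (u * w)) * p' = p' * (u * w) * p' * (p' * (u * w) * p') +
        (p' * (u * w) * (P - p')) * ((P - p') * (u * w) * p') := by
      have h3 : (P - p') * (P - p') = P - p' := by
        rw [mul_sub, h1p', sub_zero, sub_mul, H.PP, hp'P]
      have e2 : (p' * (u * w) * (P - p')) * ((P - p') * (u * w) * p') =
          p' * (u * w) * ((P - p') * (P - p')) * (u * w) * p' := by noncomm_ring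
      have e3 : p' * (u * w) * p' * (p' * (u * w) * p') = p' * (u * w) * (p' * p') * (u * w) *
          p' := by noncomm_ring
      rw [e2, e3, h3, pp']
      have e4 : p' * (u * w) * p' * (u * w) * p' + p' * (u * w) * (P - p') * (u * w) * p' =
          p' * (u * w * P) * (u * w) * p' := by noncomm_ring
      rw [e4, huwP u w hw]
      noncomm_ring
    rw [e1, ← hN u hu w hw, smul_add] at h1
    have e5 : c • (p' * (u * w) * p' * (p' * (u * w) * p')) =
        trace (u * w) • (p' * (u * w) * p') := by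
      rw [← smul_mul_assoc, hpup u hu w hw, smul_mul_assoc]
      congr 1
      rw [← mul_assoc, ← mul_assoc, pp']
    rw [e5, add_eq_left] at h1
    exact (smul_eq_zero.1 h1).resolve_left hc0
  let N : Matrix B B ℂ → Matrix B B ℂ := fun u => (P - p') * (u * w0)
  let M : Matrix B B ℂ → Matrix B B ℂ := fun w => p' * (u0 * w) * (P - p')
  have hNdef : ∀ u, N u = (P - p') * (u * w0) := fun _ => rfl
  have hMdef : ∀ w, M w = p' * (u0 * w) * (P - p') := fun _ => rfl
  have hMN2 : ∀ u ∈ pos G P Q, ∀ w ∈ pos G Q P, trace (u * y') ≠ 0 → trace (x * w) ≠ 0 →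
      M w * N u = 0 := by
    intro u hu w hw h1 h2
    have h3 := hMN1 u hu w hw
    have h4 : (c • (p' * (u * w) * (P - p'))) * (c • ((P - p') * (u * w))) = 0 := by
      rw [smul_mul_smul_comm, h3, smul_zero]
    rw [hNc u hu w hw, hMc u hu w hw, smul_mul_smul_comm] at h4
    exact (smul_eq_zero.1 h4).resolve_left (mul_ne_zero h1 h2)
  have hMN3 : ∀ u ∈ pos G P Q, ∀ w ∈ pos G Q P, trace (x * w) ≠ 0 → M w * N u = 0 := by
    intro u hu w hw h2
    by_cases h1 : trace (u * y') = 0
    · have h3 := hMN2 (u + u0) (Submodule.add_mem _ hu hu0) w hw (by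
        rw [add_mul, trace_add, h1, zero_add, htu0]
        exact hc0) h2
      have h4 := hMN2 u0 hu0 w hw (by rw [htu0]; exact hc0) h2
      have h5 : N (u + u0) = N u + N u0 := by
        rw [hNdef, hNdef, hNdef, add_mul, mul_add]
      rw [h5, mul_add, h4, add_zero] at h3
      exact h3
    · exact hMN2 u hu w hw h1 h2
  have hMN : ∀ u ∈ pos G P Q, ∀ w ∈ pos G Q P, M w * N u = 0 := by
    intro u hu w hw
    by_cases h1 : trace (x * w) = 0
    · have h3 := hMN3 u hu (w + w0) (Submodule.add_mem _ hw hw0) (by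
        rw [mul_add, trace_add, h1, zero_add, htx]
        exact hc0)
      have h4 := hMN3 u hu w0 hw0 (by rw [htx]; exact hc0)
      have h5 : M (w + w0) = M w + M w0 := by
        rw [hMdef, hMdef, hMdef, mul_add, mul_add, add_mul]
      rw [h5, add_mul, h4, add_zero] at h3
      exact h3
    · exact hMN3 u hu w hw h1
  -- the products kill the images of `N`
  have hkill : ∀ u ∈ pos G P Q, ∀ u' ∈ pos G P Q, ∀ w ∈ pos G Q P, u' * w * N u = 0 := by
    intro u hu u' hu' w hw
    have h3 : (P - p') * (P - p') = P - p' := by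
      rw [mul_sub, h1p', sub_zero, sub_mul, H.PP, hp'P]
    have hp'N : p' * N u = 0 := by rw [hNdef, ← mul_assoc, hp'1, zero_mul]
    have h1 : c • (p' * (u' * w) * (P - p') * N u) = 0 := by
      rw [← smul_mul_assoc, hMc u' hu' w hw, smul_mul_assoc, ← hMdef, hMN u hu w hw, smul_zero]
    have h2 := (smul_eq_zero.1 h1).resolve_left hc0
    rw [hsp (u' * w) (hPu u' hu' w) (huwP u' w hw), hN u' hu' w hw, add_mul, add_mul, h2,
      mul_assoc _ p' (N u), hp'N, mul_zero, mul_assoc _ p' (N u), hp'N, mul_zero]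
    simp
  have hker : ∀ v, P *ᵥ v = v → (∀ u ∈ pos G P Q, ∀ w ∈ pos G Q P, (u * w) *ᵥ v = 0) →
      v = 0 := by
    intro v hv hvk
    have h1 : ∀ w ∈ pos G Q P, w *ᵥ v = 0 := by
      intro w hw
      refine ker_up H hI hP0 (by rw [mulVec_mulVec, hw.2.1]) fun u hu => ?_
      rw [mulVec_mulVec, hvk u hu w hw]
    refine ker_up H.symm hI.symm ?_ hv h1
    intro h2
    apply k.ne
    rw [← k.mem.2.2, h2, mul_zero]
  have hN0 : ∀ u ∈ pos G P Q, N u = 0 := by
    intro u hu
    refine mat_ext fun v => ?_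
    rw [zero_mulVec]
    refine hker _ ?_ fun u' hu' w hw => by rw [mulVec_mulVec, hkill u hu u' hu' w hw, zero_mulVec]
    rw [mulVec_mulVec, hNdef, ← mul_assoc, mul_sub, H.PP, hPp']
  have hN1 : ∀ u ∈ pos G P Q, ∀ w ∈ pos G Q P, (P - p') * (u * w) = 0 := by
    intro u hu w hw
    have h1 := hNc u hu w hw
    rw [← hNdef, hN0 u hu, smul_zero] at h1
    exact (smul_eq_zero.1 h1).resolve_left hc0
  -- the projector of `x` is everything
  have hp'P' : P - p' = 0 := by
    let W : Submodule ℂ (B → ℂ) :=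
      { carrier := {u | P *ᵥ u = u ∧ p' *ᵥ u = u}
        zero_mem' := ⟨mulVec_zero _, mulVec_zero _⟩
        add_mem' := fun {u v} hu hv => ⟨by rw [mulVec_add, hu.1, hv.1], by
          rw [mulVec_add, hu.2, hv.2]⟩
        smul_mem' := fun c u hu => ⟨by rw [mulVec_smul, hu.1], by
          rw [mulVec_smul, hu.2]⟩ }
    rcases levi_xy H hI (W := W) (fun u hu => hu.1) (fun u hu w hw v hv => by
      refine ⟨by rw [mulVec_mulVec, hu.2.1], ?_⟩
      have h1 := congrArg (fun z => z *ᵥ v) (hN1 u hu w hw)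
      beta_reduce at h1
      rw [sub_mul, hPu u hu, sub_mulVec, zero_mulVec, sub_eq_zero] at h1
      rw [mulVec_mulVec v u w, mulVec_mulVec]
      exact h1.symm) with h1 | h1
    · exfalso
      apply hx0
      refine mat_ext fun v => ?_
      have h2 : x *ᵥ v ∈ W := ⟨by rw [mulVec_mulVec, hx.2.1], by rw [mulVec_mulVec, hp'x]⟩
      rw [h1, Submodule.mem_bot] at h2
      rw [h2, zero_mulVec]
    · refine mat_ext fun v => ?_
      have h2 := (h1 (P *ᵥ v) (by rw [mulVec_mulVec, H.PP])).2
      rw [mulVec_mulVec, hp'P] at h2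
      rw [sub_mulVec, h2, sub_self, zero_mulVec]
  have hp'e : p' = P := (sub_eq_zero.1 hp'P').symm
  have hsc : ∀ u ∈ pos G P Q, ∀ w ∈ pos G Q P, c • (u * w) = trace (u * w) • P := by
    intro u hu w hw
    have h1 := hpup u hu w hw
    rwa [hp'e, hPu u hu, huwP u w hw] at h1
  -- a vector
  obtain ⟨v, hPv, hv0⟩ : ∃ v : B → ℂ, P *ᵥ v = v ∧ v ≠ 0 := by
    by_contra hcon
    push Not at hcon
    apply hP0
    refine mat_ext fun w => ?_
    rw [zero_mulVec]
    exact hcon _ (by rw [mulVec_mulVec, H.PP])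
  rcases levi_xy H hI (W := Submodule.span ℂ {v}) (fun u hu => by
      obtain ⟨s, rfl⟩ := Submodule.mem_span_singleton.1 hu
      rw [mulVec_smul, hPv]) (fun u hu w hw z hz => by
      obtain ⟨s, rfl⟩ := Submodule.mem_span_singleton.1 hz
      have h1 := hsc u hu w hw
      have h2 : u * w = (c⁻¹ * trace (u * w)) • P := by
        rw [mul_smul, ← h1, smul_smul, inv_mul_cancel₀ hc0, one_smul]
      rw [mulVec_mulVec, h2, smul_mulVec, mulVec_smul, hPv, smul_smul]
      exact Submodule.smul_mem _ _ (Submodule.mem_span_singleton_self v)) with h1 | h1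
  · exfalso
    rw [Submodule.span_singleton_eq_bot] at h1
    exact hv0 h1
  · rw [trace_idemM H.PP]
    have h2 : finrank ℂ (LinearMap.range (mulVecLin P)) = 1 := by
      refine finrank_eq_one_of _ (e := v) ⟨v, hPv⟩ hv0 ?_
      rintro _ ⟨w, rfl⟩
      obtain ⟨s, hs⟩ := Submodule.mem_span_singleton.1
        (h1 (P *ᵥ w) (by rw [mulVec_mulVec, H.PP]))
      exact ⟨s, hs.symm⟩
    rw [h2, Nat.cast_one]

end

end Pool.Agent.K9h17.B
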