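import Mathlib
import Pool.Agent.K9h17.B.One

/-!
# The part of degree zero acts on the range of `P` through all operators
-/

set_option linter.unusedSectionVars false

namespace Pool.Agent.K9h17.B

open Matrix Module
open Pool.Agent.Y4.G (trF trF_apply exists_dual exists_eig_range trace_idemM rank_mul_lt
  finrank_eq_one_of)
open Pool.Agent.Y4.G.Lie (pos mem_pos)
open Pool.Agent.N183.JP
open Pool.Agent.K9h17.L

noncomputable section

section any

variable {B : Type*} [Fintype B] [DecidableEq B]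

variable {G : Submodule ℂ (Matrix B B ℂ)} {P Q : Matrix B B ℂ} {a b : ℕ}

/-- Two orthogonal idempotents: the projector is in the Lie algebra and has rank one. -/
theorem mem_one_of_two (H : LieP G P Q a b) (hR : P + Q ∈ G)
    (hnd : ∀ z ∈ G, (∀ w ∈ G, trace (z * w) = 0) → z = 0) (hirr : IrrXY G P Q) (hab : a ≠ b)
    {e f p q : Matrix B B ℂ} (k : TrpP G P Q e f p q) {x : Matrix B B ℂ} (hx : x ∈ pos G P Q)
    (hx0 : (P - p) * x * (Q - q) ≠ 0) : p ∈ G ∧ trace p = 1 := by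
  have HI := lieI_of H hR
  have hQ : Q ∈ G := by
    have h1 := Submodule.sub_mem _ hR HI.mP
    rwa [add_sub_cancel_left] at h1
  have hPp := k.idP H.PP
  have hQq := k.idQ H.QQ
  obtain ⟨u, hu⟩ : ∃ u, u = (P - p) * x * (Q - q) := ⟨_, rfl⟩
  rw [← hu] at hx0
  have hum : u ∈ pos G P Q := by rw [hu]; exact k.mem0 hx
  have hu1 : (P - p) * u = u := by rw [hu, ← mul_assoc, ← mul_assoc, hPp]
  have hu2 : u * (Q - q) = u := by rw [hu, mul_assoc, hQq]
  obtain ⟨y, hy, hxy⟩ := H.rg u hum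
  obtain ⟨w, hw⟩ : ∃ w, w = (Q - q) * y * (P - p) := ⟨_, rfl⟩
  have hwm : w ∈ pos G Q P := by rw [hw]; exact (trp_symm H k).mem0 hy
  have hw1 : (Q - q) * w = w := by rw [hw, ← mul_assoc, ← mul_assoc, hQq]
  have hw2 : w * (P - p) = w := by rw [hw, mul_assoc, hPp]
  have huwu : u * w * u = u := by
    rw [hw]
    calc u * ((Q - q) * y * (P - p)) * u = (u * (Q - q)) * y * ((P - p) * u) := by noncomm_ring
    _ = u := by rw [hu1, hu2, hxy]
  have hpu : p * u = 0 := by
    rw [← hu1, ← mul_assoc, mul_sub, k.pP, k.pp, sub_self, zero_mul]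
  have hqw : q * w = 0 := by
    rw [← hw1, ← mul_assoc, mul_sub, k.qQ, k.qq, sub_self, zero_mul]
  have htr : trace (u * w) ≠ 0 := by
    intro h0
    have h1 : u * w = 0 := idem_zero (by rw [← mul_assoc, huwu]) h0
    rw [h1, zero_mul] at huwu
    exact hx0 huwu.symm
  have htp : trace p ≠ 0 := trp_ne k
  have hpq : p - q ∈ G := by
    rw [← k.ef, ← k.fe]
    exact H.br _ k.mem.1 _ k.fmem.1
  have hp : p ∈ G := by
    refine p_mem HI hnd hQ H.trP H.trQ hab k.pp k.qq k.Pp k.pP k.Qu k.qQ hpq k.trpq htp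
      (p' := u * w) (q' := w * u) ?_ ?_ ?_ ?_ (H.br _ hum.1 _ hwm.1) (trace_mul_comm _ _) htr ?_ ?_
    · rw [← mul_assoc, hum.2.1]
    · rw [mul_assoc, hwm.2.2]
    · rw [← mul_assoc, hwm.2.1]
    · rw [mul_assoc, hum.2.2]
    · rw [← mul_assoc, hpu, zero_mul]
    · rw [← mul_assoc, hqw, zero_mul]
  have hq : q ∈ G := by
    have h1 := Submodule.sub_mem _ hp hpq
    rwa [sub_sub_cancel] at h1
  exact ⟨hp, trace_one H k hp hq hirr⟩

/-- Idempotents of rank one. -/
theorem exists_vec {r : Matrix B B ℂ} (rr : r * r = r) (htr : trace r = 1) :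
    ∃ v φ : B → ℂ, r = vecMulVec v φ ∧ φ ⬝ᵥ v = 1 ∧ r *ᵥ v = v ∧ φ ᵥ* r = φ := by
  have h1 := trace_idemM rr
  rw [htr] at h1
  have h2 : finrank ℂ (LinearMap.range (mulVecLin r)) = 1 := by exact_mod_cast h1.symm
  obtain ⟨⟨v, hv⟩, hv0, hspan⟩ := finrank_eq_one_iff'.1 h2
  have hv0' : v ≠ 0 := fun h => hv0 (Subtype.ext h)
  have hc : ∀ w, ∃ c : ℂ, c • v = r *ᵥ w := by
    intro w
    obtain ⟨c, hc⟩ := hspan ⟨r *ᵥ w, w, rfl⟩
    exact ⟨c, congrArg Subtype.val hc⟩
  choose c hc using hc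
  have hrv : r *ᵥ v = v := by
    obtain ⟨w, rfl⟩ := hv
    rw [mulVecLin_apply, mulVec_mulVec, rr]
  have hr : r = vecMulVec v (fun j => c (Pi.single j 1)) := by
    ext i j
    have h3 := congrFun (hc (Pi.single j 1)) i
    rw [mulVec_single_one] at h3
    rw [vecMulVec_apply, ← Matrix.col_apply r j i, ← h3, Pi.smul_apply, smul_eq_mul, mul_comm]
  have hφv : (fun j => c (Pi.single j 1)) ⬝ᵥ v = 1 := by
    have h3 := hrv
    rw [hr, vecMulVec_mulVec] at h3
    obtain ⟨i, hi⟩ := Function.ne_iff.1 hv0'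
    have h4 := congrFun h3 i
    rw [Pi.smul_apply, op_smul_eq_smul, smul_eq_mul] at h4
    exact mul_right_cancel₀ hi (h4.trans (one_mul _).symm)
  refine ⟨v, _, hr, hφv, hrv, ?_⟩
  rw [hr, vecMul_vecMulVec, hφv, one_smul]

/-- **An irreducible Lie algebra with an idempotent of rank one** contains all operators. -/
theorem full_of_one (HI : LieI G P Q) (hQ0 : ∀ X ∈ G, X * Q = 0 ∧ Q * X = 0) {r : Matrix B B ℂ}
    (hr : r ∈ G) (rr : r * r = r) (htr : trace r = 1) (hP : P * P = P) {w : Matrix B B ℂ}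
    (h1 : P * w = w) (h2 : w * P = w) : w ∈ G := by
  -- the units
  have hXP : ∀ X ∈ G, X * P = X := by
    intro X hX
    have h3 := HI.ler X hX
    rwa [mul_add, (hQ0 X hX).1, add_zero] at h3
  have hPX : ∀ X ∈ G, P * X = X := by
    intro X hX
    have h3 := HI.lel X hX
    rwa [add_mul, (hQ0 X hX).2, add_zero] at h3
  obtain ⟨v0, φ0, hrv, hφv, hrv0, hφr⟩ := exists_vec rr htr
  have hPr := hPX r hr
  have hrP := hXP r hr
  have hPv0 : P *ᵥ v0 = v0 := by rw [← hrv0, mulVec_mulVec, hPr]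
  have hφP : φ0 ᵥ* P = φ0 := by rw [← hφr, vecMul_vecMul, hrP]
  have hrXr : ∀ X : Matrix B B ℂ, r * X * r = (φ0 ⬝ᵥ (X *ᵥ v0)) • r := by
    intro X
    rw [mul_assoc]
    nth_rewrite 1 [hrv]
    rw [vecMulVec_mul, ← vecMul_vecMul]
    have h3 : φ0 ᵥ* X ᵥ* r = (φ0 ⬝ᵥ (X *ᵥ v0)) • φ0 := by
      rw [hrv, vecMul_vecMulVec, dotProduct_mulVec]
    rw [h3, vecMulVec_smul, ← hrv]
  -- grading by `r`
  have hup : ∀ X ∈ G, r * X * (P - r) ∈ G ∧ (P - r) * X * r ∈ G := by
    intro X hX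
    have b1 := HI.br _ hr _ hX
    have b2 := HI.br _ hr _ b1
    have e1 : r * (r * X - X * r) - (r * X - X * r) * r = (r * r) * X - (2 : ℂ) • (r * X * r) +
        X * (r * r) := by
      rw [two_smul]
      noncomm_ring
    rw [e1, rr] at b2
    have e2 : r * X * (P - r) = r * X - r * X * r := by
      rw [mul_sub, mul_assoc r X P, hXP X hX]
    have e3 : (P - r) * X * r = X * r - r * X * r := by
      rw [sub_mul, hPX X hX, sub_mul]
    refine ⟨?_, ?_⟩
    · have h3 := G.smul_mem (2 : ℂ)⁻¹ (G.add_mem b1 b2)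
      have e4 : (2 : ℂ)⁻¹ • (r * X - X * r + (r * X - (2 : ℂ) • (r * X * r) + X * r)) =
          r * X - r * X * r := by module
      rwa [e4, ← e2] at h3
    · have h3 := G.smul_mem (2 : ℂ)⁻¹ (G.sub_mem b2 b1)
      have e4 : (2 : ℂ)⁻¹ • (r * X - (2 : ℂ) • (r * X * r) + X * r - (r * X - X * r)) =
          X * r - r * X * r := by module
      rwa [e4, ← e3] at h3
  have hrX : ∀ X ∈ G, r * X ∈ G := by
    intro X hX
    have h3 : r * X = r * X * (P - r) + (φ0 ⬝ᵥ (X *ᵥ v0)) • r := by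
      rw [← hrXr, mul_sub, mul_assoc r X P, hXP X hX]
      abel
    rw [h3]
    exact G.add_mem (hup X hX).1 (G.smul_mem _ hr)
  have hXr : ∀ X ∈ G, X * r ∈ G := by
    intro X hX
    have h3 : X * r = (P - r) * X * r + (φ0 ⬝ᵥ (X *ᵥ v0)) • r := by
      rw [← hrXr, sub_mul, hPX X hX, sub_mul]
      abel
    rw [h3]
    exact G.add_mem (hup X hX).2 (G.smul_mem _ hr)
  -- rows
  have hrow : ∀ u ∈ G, r * u = u → ∀ X ∈ G, u * X ∈ G := by
    intro u hu hru X hX
    have b1 := hrX _ (HI.br _ hu _ hX)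
    have e1 : r * (u * X - X * u) = u * X - r * X * r * u := by
      rw [mul_sub, ← mul_assoc r u, hru, mul_assoc (r * X), hru, mul_assoc]
    rw [e1, hrXr, smul_mul_assoc, hru] at b1
    have h3 := G.add_mem b1 (G.smul_mem (φ0 ⬝ᵥ (X *ᵥ v0)) hu)
    rwa [sub_add_cancel] at h3
  -- columns
  have hcol : ∀ u ∈ G, u * r = u → ∀ X ∈ G, X * u ∈ G := by
    intro u hu hur X hX
    have b1 := hXr _ (HI.br _ hX _ hu)
    have e1 : (X * u - u * X) * r = X * u - u * (r * X * r) := by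
      rw [sub_mul, mul_assoc X, hur, ← mul_assoc, ← mul_assoc u r X, hur]
    rw [e1, hrXr, mul_smul_comm, hur] at b1
    have h3 := G.add_mem b1 (G.smul_mem (φ0 ⬝ᵥ (X *ᵥ v0)) hu)
    rwa [sub_add_cancel] at h3
  -- all columns
  have hallc : ∀ v, P *ᵥ v = v → vecMulVec v φ0 ∈ G := by
    let W : Submodule ℂ (B → ℂ) :=
      { carrier := {v | P *ᵥ v = v ∧ vecMulVec v φ0 ∈ G}
        zero_mem' := ⟨mulVec_zero _, by rw [zero_vecMulVec]; exact G.zero_mem⟩
        add_mem' := fun {u v} hu hv => ⟨by rw [mulVec_add, hu.1, hv.1], by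
          rw [add_vecMulVec]; exact G.add_mem hu.2 hv.2⟩
        smul_mem' := fun c u hu => ⟨by rw [mulVec_smul, hu.1], by
          rw [smul_vecMulVec]; exact G.smul_mem _ hu.2⟩ }
    have hW : W = ⊥ ∨ ∀ u, (P + Q) *ᵥ u = u → u ∈ W := by
      refine HI.irr W (fun u hu => ?_) (fun X hX u hu => ⟨?_, ?_⟩)
      · rw [add_mulVec, hu.1]
        nth_rewrite 2 [← hu.1]
        rw [mulVec_mulVec, HI.QP, zero_mulVec, add_zero]
      · rw [mulVec_mulVec, hPX X hX]
      · rw [← mul_vecMulVec]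
        refine hcol _ hu.2 ?_ X hX
        rw [vecMulVec_mul, hφr]
    rcases hW with h3 | h3
    · exfalso
      have h4 : v0 ∈ W := ⟨hPv0, by rw [← hrv]; exact hr⟩
      rw [h3, Submodule.mem_bot] at h4
      rw [h4, dotProduct_zero] at hφv
      exact zero_ne_one hφv
    · intro v hv
      exact (h3 v (by
        rw [add_mulVec, hv]
        nth_rewrite 2 [← hv]
        rw [mulVec_mulVec, HI.QP, zero_mulVec, add_zero])).2
  -- all rows
  let Φ : Submodule ℂ (B → ℂ) :=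
    { carrier := {φ | φ ᵥ* P = φ ∧ vecMulVec v0 φ ∈ G}
      zero_mem' := ⟨zero_vecMul _, by rw [vecMulVec_zero]; exact G.zero_mem⟩
      add_mem' := fun {u v} hu hv => ⟨by rw [add_vecMul, hu.1, hv.1], by
        rw [vecMulVec_add]; exact G.add_mem hu.2 hv.2⟩
      smul_mem' := fun c u hu => ⟨by rw [smul_vecMul, hu.1], by
        rw [vecMulVec_smul]; exact G.smul_mem _ hu.2⟩ }
  have hφ0 : φ0 ∈ Φ := ⟨hφP, by rw [← hrv]; exact hr⟩
  have hΦX : ∀ φ ∈ Φ, ∀ X ∈ G, φ ᵥ* X ∈ Φ := by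
    intro φ hφ X hX
    refine ⟨by rw [vecMul_vecMul, hXP X hX], ?_⟩
    rw [← vecMulVec_mul]
    refine hrow _ hφ.2 ?_ X hX
    rw [mul_vecMulVec, hrv0]
  have hallr : ∀ φ, φ ᵥ* P = φ → φ ∈ Φ := by
    intro φ hφ
    by_contra hcon
    obtain ⟨g, hg1, hg2⟩ := Submodule.exists_le_ker_of_notMem hcon
    let v : B → ℂ := P *ᵥ (fun i => g (Pi.single i 1))
    have hgv : ∀ ψ : B → ℂ, ψ ᵥ* P = ψ → g ψ = ψ ⬝ᵥ v := by
      intro ψ hψ
      have h3 : ψ = ∑ i, ψ i • (Pi.single i (1 : ℂ) : B → ℂ) := by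
        funext j
        rw [Finset.sum_apply, Finset.sum_eq_single j]
        · rw [Pi.smul_apply, Pi.single_eq_same, smul_eq_mul, mul_one]
        · intro i _ hij
          rw [Pi.smul_apply, Pi.single_eq_of_ne (Ne.symm hij), smul_zero]
        · intro h
          exact absurd (Finset.mem_univ _) h
      rw [dotProduct_mulVec, hψ]
      nth_rewrite 1 [h3]
      rw [map_sum, dotProduct]
      exact Finset.sum_congr rfl fun i _ => by rw [map_smul, smul_eq_mul]
    have hPv : P *ᵥ v = v := by rw [mulVec_mulVec, hP]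
    let V0 : Submodule ℂ (B → ℂ) :=
      { carrier := {u | P *ᵥ u = u ∧ ∀ ψ ∈ Φ, ψ ⬝ᵥ u = 0}
        zero_mem' := ⟨mulVec_zero _, fun _ _ => dotProduct_zero _⟩
        add_mem' := fun {u v} hu hv => ⟨by rw [mulVec_add, hu.1, hv.1], fun ψ hψ => by
          rw [dotProduct_add, hu.2 ψ hψ, hv.2 ψ hψ, add_zero]⟩
        smul_mem' := fun c u hu => ⟨by rw [mulVec_smul, hu.1], fun ψ hψ => by
          rw [dotProduct_smul, hu.2 ψ hψ, smul_zero]⟩ }
    have hV : V0 = ⊥ ∨ ∀ u, (P + Q) *ᵥ u = u → u ∈ V0 := by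
      refine HI.irr V0 (fun u hu => ?_) (fun X hX u hu => ⟨?_, fun ψ hψ => ?_⟩)
      · rw [add_mulVec, hu.1]
        nth_rewrite 2 [← hu.1]
        rw [mulVec_mulVec, HI.QP, zero_mulVec, add_zero]
      · rw [mulVec_mulVec, hPX X hX]
      · rw [dotProduct_mulVec]
        exact hu.2 _ (hΦX ψ hψ X hX)
    rcases hV with h3 | h3
    · have h4 : v ∈ V0 := ⟨hPv, fun ψ hψ => by
        rw [← hgv ψ hψ.1]
        exact hg2 hψ⟩
      rw [h3, Submodule.mem_bot] at h4
      apply hg1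
      rw [hgv φ hφ, h4, dotProduct_zero]
    · have h4 := (h3 v0 (by
        rw [add_mulVec, hPv0]
        nth_rewrite 2 [← hPv0]
        rw [mulVec_mulVec, HI.QP, zero_mulVec, add_zero])).2 φ0 hφ0
      rw [hφv] at h4
      exact one_ne_zero h4
  -- all operators of rank one
  have hall : ∀ v φ : B → ℂ, P *ᵥ v = v → φ ᵥ* P = φ → vecMulVec v φ ∈ G := by
    intro v φ hv hφ
    have b1 := HI.br _ (hallc v hv) _ (hallr φ hφ).2
    rw [vecMulVec_mul_vecMulVec, vecMulVec_mul_vecMulVec, hφv, one_smul] at b1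
    rw [vecMulVec_smul, ← hrv] at b1
    have h3 := G.add_mem b1 (G.smul_mem (φ ⬝ᵥ v) hr)
    rwa [sub_add_cancel] at h3
  have h3 : w = ∑ j, vecMulVec (w.col j) (Pi.single j (1 : ℂ) ᵥ* P) := by
    have h4 : w = ∑ j, vecMulVec (w.col j) (Pi.single j (1 : ℂ)) := by
      ext i l
      rw [Matrix.sum_apply, Finset.sum_eq_single l]
      · rw [vecMulVec_apply, Pi.single_eq_same, mul_one, col_apply]
      · intro j _ hj
        rw [vecMulVec_apply, Pi.single_eq_of_ne (Ne.symm hj), mul_zero]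
      · intro h
        exact absurd (Finset.mem_univ _) h
    nth_rewrite 1 [← h2, h4]
    rw [Finset.sum_mul]
    exact Finset.sum_congr rfl fun j _ => vecMulVec_mul _ _ _
  rw [h3]
  refine G.sum_mem fun j _ => hall _ _ ?_ (by rw [vecMul_vecMul, hP])
  rw [← mulVec_single_one, mulVec_mulVec, h1]

end any

variable {B : Type} [Fintype B] [DecidableEq B]

variable {G : Submodule ℂ (Matrix B B ℂ)} {P Q : Matrix B B ℂ} {a : ℕ}

/-- **All operators**: the part of degree zero acts on the range of `P` through all operators,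
if `a` is odd. -/
theorem full_P (H : LieP G P Q a a) (hR : P + Q ∈ G) (hI : IrrXY G P Q) (hodd : Odd a)
    {e f : Matrix B B ℂ} (he : IsMin G P Q e) (hf : f ∈ pos G Q P) (hefe : e * f * e = e)
    (hfef : f * e * f = f) (ht1 : trace (e * f) ≠ 1) {x : Matrix B B ℂ} (hx : x ∈ pos G P Q)
    (hx0 : (P - e * f) * x * (Q - f * e) ≠ 0) {w : Matrix B B ℂ} (h1 : P * w = w)
    (h2 : w * P = w) : w ∈ LieI.cor G P := by
  have ha : 0 < a := hodd.pos
  have HI := lieI_of H hR
  have k := trp_of_pair H he hf hefe hfef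
  obtain ⟨p, hp⟩ : ∃ p, p = e * f := ⟨_, rfl⟩
  obtain ⟨q, hq⟩ : ∃ q, q = f * e := ⟨_, rfl⟩
  rw [← hp, ← hq] at k hx0
  rw [← hp] at ht1
  -- the orthogonal pair
  obtain ⟨x', hx', hx'0⟩ : ∃ x' : Matrix B B ℂ, IsMin G P Q x' ∧ (P - p) * x' * (Q - q) ≠ 0 := by
    by_contra hcon
    push Not at hcon
    apply hx0
    have h3 := span_min H hI ha ha hx
    clear hx hx0
    induction h3 using Submodule.span_induction with
    | mem u hu => exact hcon u hu
    | zero => rw [mul_zero, zero_mul]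
    | add u v _ _ hu hv => rw [mul_add, add_mul, hu, hv, add_zero]
    | smul c u _ hu => rw [mul_smul_comm, smul_mul_assoc, hu, smul_zero]
  have hPp := k.idP H.PP
  have hQq := k.idQ H.QQ
  obtain ⟨u, hu⟩ : ∃ u, u = (P - p) * x' * (Q - q) := ⟨_, rfl⟩
  rw [← hu] at hx'0
  have hum : u ∈ pos G P Q := by rw [hu]; exact k.mem0 hx'.1.1
  have humin : IsMin G P Q u := by
    refine ⟨⟨hum, hx'0⟩, fun z hz => le_trans ?_ (hx'.2 z hz)⟩
    rw [hu]
    exact le_trans (rank_mul_le_left _ _) (rank_mul_le_right _ _)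
  have hu1 : (P - p) * u = u := by rw [hu, ← mul_assoc, ← mul_assoc, hPp]
  have hu2 : u * (Q - q) = u := by rw [hu, mul_assoc, hQq]
  obtain ⟨y, hy, hxy, hyx⟩ := exists_partner H hum
  obtain ⟨v, hv⟩ : ∃ v, v = (Q - q) * y * (P - p) := ⟨_, rfl⟩
  have hvm : v ∈ pos G Q P := by rw [hv]; exact (trp_symm H k).mem0 hy
  have huvu : u * v * u = u := by
    rw [hv]
    calc u * ((Q - q) * y * (P - p)) * u = (u * (Q - q)) * y * ((P - p) * u) := by noncomm_ring
    _ = u := by rw [hu1, hu2, hxy]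
  obtain ⟨r, hr⟩ : ∃ r, r = u * v := ⟨_, rfl⟩
  have rr : r * r = r := by rw [hr, ← mul_assoc, huvu]
  have hv2 : v * (P - p) = v := by rw [hv, mul_assoc, hPp]
  have h1r : (P - p) * r = r := by rw [hr, ← mul_assoc, hu1]
  have hr1 : r * (P - p) = r := by rw [hr, mul_assoc, hv2]
  have hrc : r ∈ LieI.cor G P := by rw [hr]; exact xy_cor H hum hvm
  have hpc : p ∈ LieI.cor G P := by rw [hp]; exact xy_cor H he.1.1 hf
  have hPc : P ∈ LieI.cor G P := ⟨P, HI.mP, rfl, H.PP.symm⟩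
  -- traces
  have hrk : u.rank = e.rank := le_antisymm (humin.2 e he.1) (he.2 u ⟨hum, hx'0⟩)
  have hidr : ∀ {e p : Matrix B B ℂ} {f : Matrix B B ℂ}, p * e = e → p = e * f →
      LinearMap.range (mulVecLin p) = LinearMap.range (mulVecLin e) := by
    intro e p f h3 h4
    apply le_antisymm
    · rintro _ ⟨w, rfl⟩
      exact ⟨f *ᵥ w, by rw [mulVecLin_apply, mulVecLin_apply, mulVec_mulVec, ← h4]⟩
    · rintro _ ⟨w, rfl⟩
      exact ⟨e *ᵥ w, by rw [mulVecLin_apply, mulVecLin_apply, mulVec_mulVec, h3]⟩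
  have htrr : trace r = trace p := by
    rw [trace_idemM rr, trace_idemM k.pp, hidr (e := u) (f := v) (by rw [hr, huvu]) hr,
      hidr (e := e) (f := f) k.pe hp]
    exact congrArg _ hrk
  obtain ⟨m, hm⟩ : ∃ m : ℕ, trace p = m := ⟨_, trace_idemM k.pp⟩
  obtain ⟨m', hm'⟩ : ∃ m' : ℕ, trace (P - p) = m' := ⟨_, trace_idemM hPp⟩
  have hsum : m + m' = a := by
    have h3 : (m : ℂ) + m' = a := by
      rw [← hm, ← hm', ← trace_add, add_sub_cancel, H.trP]
    exact_mod_cast h3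
  have hmm' : m ≠ m' := by
    rintro rfl
    obtain ⟨t, ht⟩ := hodd
    omega
  have hm0 : 0 < m := by
    rcases Nat.eq_zero_or_pos m with h3 | h3
    · exfalso
      apply trp_ne k
      rw [hm, h3, Nat.cast_zero]
    · exact h3
  have hr0 : r ≠ 0 := by
    intro h3
    rw [← hr, h3, zero_mul] at huvu
    exact hx'0 huvu.symm
  have hm'0 : 0 < m' := by
    rcases Nat.eq_zero_or_pos m' with h3 | h3
    · exfalso
      apply hr0
      have h4 : P - p = 0 := idem_zero hPp (by rw [hm', h3, Nat.cast_zero])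
      rw [← h1r, h4, zero_mul]
    · exact h3
  -- the corner
  have HC := HI.cor_lieI k.pp k.Pp k.pP hpc
  have H' := cor_lieP H HI hI ha ha k.pp hpc hm hm'
  have hI' := cor_irrXY H hI k HC H' hm0 hm'0
  obtain ⟨e', f', p', q', k'⟩ := exists_trp H' hm0 hm'0
  by_cases h0 : ∀ x ∈ pos (LieI.cor G P) p (P - p), (p - p') * x * (P - p - q') = 0
  · exfalso
    apply ht1
    refine rank_one_pair H' hI' k' h0 hrc rr h1r hr1 hr0 fun h3 => ?_
    apply hmm'
    have h4 := hm'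
    rw [sub_eq_zero.1 h3, htrr, hm] at h4
    exact_mod_cast h4
  · push Not at h0
    obtain ⟨z, hz, hz0⟩ := h0
    obtain ⟨hp'c, hp't⟩ := mem_one_of_two H' (by rw [add_sub_cancel]; exact hPc)
      (cor_nd H HI hI ha ha) hI' hmm' k' hz hz0
    have hCI : LieI (LieI.cor G P) P 0 :=
      { br := H'.br
        PP := H.PP
        QQ := by rw [mul_zero]
        PQ := by rw [mul_zero]
        QP := by rw [zero_mul]
        mP := hPc
        lel := fun X hX => by rw [add_zero]; exact (cor_P H.PP hX).1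
        ler := fun X hX => by rw [add_zero]; exact (cor_P H.PP hX).2
        irr := by
          intro U h3 h4
          rw [add_zero] at h3 ⊢
          have h5 := HC.irr U
          rw [add_sub_cancel] at h5
          exact h5 h3 h4 }
    exact full_of_one hCI (fun X _ => ⟨mul_zero _, zero_mul _⟩) hp'c k'.pp hp't H.PP h1 h2

end

end Pool.Agent.K9h17.B
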