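import Mathlib
import Pool.Agent.K9h17.B.Full

/-!
# Elements acting on one side only
-/

set_option linter.unusedSectionVars false

namespace Pool.Agent.K9h17.B

open Matrix Module
open Pool.Agent.Y4.G (trF trF_apply exists_dual exists_eig_range trace_idemM rank_mul_lt
  finrank_eq_one_of)
open Pool.Agent.Y4.G.Lie (pos mem_pos)
open Pool.Agent.N183.JP
open Pool.Agent.K9h17.L

noncomputable section

variable {B : Type*} [Fintype B] [DecidableEq B]

theorem vm (v φ u : B → ℂ) : vecMulVec v φ *ᵥ u = (φ ⬝ᵥ u) • v := by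
  rw [vecMulVec_mulVec, op_smul_eq_smul]

theorem mv (ψ v φ : B → ℂ) : ψ ᵥ* vecMulVec v φ = (ψ ⬝ᵥ v) • φ := vecMul_vecMulVec _ _ _

/-- A line below a projector. -/
theorem exists_one_below {R : Matrix B B ℂ} (RR : R * R = R) (R0 : R ≠ 0) :
    ∃ v φ : B → ℂ, φ ⬝ᵥ v = 1 ∧ R *ᵥ v = v ∧ φ ᵥ* R = φ := by
  obtain ⟨i, j, hij⟩ : ∃ i j, R i j ≠ 0 := by
    by_contra h
    push Not at h
    exact R0 (Matrix.ext h)
  refine ⟨R *ᵥ Pi.single j 1, (R i j)⁻¹ • (Pi.single i 1 ᵥ* R), ?_, ?_, ?_⟩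
  · rw [smul_dotProduct, dotProduct_mulVec, vecMul_vecMul, RR, single_one_vecMul,
      dotProduct_single_one, smul_eq_mul, Matrix.row_apply, inv_mul_cancel₀ hij]
  · rw [mulVec_mulVec, RR]
  · rw [smul_vecMul, vecMul_vecMul, RR]

theorem prime_mul {K M : Matrix B B ℂ} (h : ∀ N : Matrix B B ℂ, K * N * M = 0) :
    K = 0 ∨ M = 0 := by
  by_contra hcon
  push Not at hcon
  obtain ⟨i, j, hij⟩ : ∃ i j, K i j ≠ 0 := by
    by_contra h
    push Not at h
    exact hcon.1 (Matrix.ext h)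
  obtain ⟨l, n, hln⟩ : ∃ i j, M i j ≠ 0 := by
    by_contra h
    push Not at h
    exact hcon.2 (Matrix.ext h)
  have h1 := congrFun (congrFun (h (vecMulVec (Pi.single j 1) (Pi.single l 1))) i) n
  rw [mul_vecMulVec, vecMulVec_mul, vecMulVec_apply, mulVec_single_one, single_one_vecMul,
    col_apply, row_apply] at h1
  exact mul_ne_zero hij hln h1

variable {G : Submodule ℂ (Matrix B B ℂ)} {P Q : Matrix B B ℂ} {a b : ℕ}

/-- Elements acting on the range of `Q` only are scalars. -/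
theorem ker_scalar (H : LieP G P Q a b) (hI : IrrXY G P Q) (hP0 : P ≠ 0)
    (hNR : NR1 G P Q)
    (hf : ∀ w : Matrix B B ℂ, Q * w = w → w * Q = w → w ∈ LieI.cor G Q) {n : Matrix B B ℂ}
    (hn : n ∈ G) (h1 : Q * n = n) (h2 : n * Q = n) : ∃ c : ℂ, n = c • Q := by
  -- all vectors are eigenvectors
  have key : ∀ v, Q *ᵥ v = v → ∃ c : ℂ, n *ᵥ v = c • v := by
    intro v hv
    by_contra hcon
    push Not at hcon
    have hv0 : v ≠ 0 := by
      rintro rfl
      exact hcon 0 (by rw [mulVec_zero, smul_zero])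
    have hnm : n *ᵥ v ∉ Submodule.span ℂ {v} := by
      intro h
      obtain ⟨c, hc⟩ := Submodule.mem_span_singleton.1 h
      exact hcon c hc.symm
    obtain ⟨g, hg1, hg2⟩ := Submodule.exists_le_ker_of_notMem hnm
    obtain ⟨ψ, hψ⟩ : ∃ ψ : B → ℂ, ψ = (fun i => g (Pi.single i 1)) ᵥ* Q := ⟨_, rfl⟩
    have hgv : ∀ u : B → ℂ, Q *ᵥ u = u → g u = ψ ⬝ᵥ u := by
      intro u hu
      have h3 : u = ∑ i, u i • (Pi.single i (1 : ℂ) : B → ℂ) := by
        funext j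
        rw [Finset.sum_apply, Finset.sum_eq_single j]
        · rw [Pi.smul_apply, Pi.single_eq_same, smul_eq_mul, mul_one]
        · intro i _ hij
          rw [Pi.smul_apply, Pi.single_eq_of_ne (Ne.symm hij), smul_zero]
        · intro h
          exact absurd (Finset.mem_univ _) h
      rw [hψ, ← dotProduct_mulVec, hu]
      nth_rewrite 1 [h3]
      rw [map_sum, dotProduct]
      exact Finset.sum_congr rfl fun i _ => by rw [map_smul, smul_eq_mul, mul_comm]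
    have hψQ : ψ ᵥ* Q = ψ := by rw [hψ, vecMul_vecMul, H.QQ]
    have hψv : ψ ⬝ᵥ v = 0 := by
      rw [← hgv v hv]
      exact hg2 (Submodule.mem_span_singleton_self v)
    have hψn : ψ ⬝ᵥ (n *ᵥ v) ≠ 0 := by
      rw [← hgv _ (by rw [mulVec_mulVec, h1])]
      exact hg1
    obtain ⟨b0, hb0⟩ : ∃ b0, b0 = vecMulVec v ψ := ⟨_, rfl⟩
    have hQb : Q * b0 = b0 := by rw [hb0, mul_vecMulVec, hv]
    have hbQ : b0 * Q = b0 := by rw [hb0, vecMulVec_mul, hψQ]
    have hbb : b0 * b0 = 0 := by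
      rw [hb0, vecMulVec_mul_vecMulVec, hψv, zero_smul, vecMulVec_zero]
    have hbnb : b0 * n * b0 = (ψ ⬝ᵥ (n *ᵥ v)) • b0 := by
      rw [mul_assoc, hb0, mul_vecMulVec, vecMulVec_mul_vecMulVec, vecMulVec_smul]
    obtain ⟨z, hz, hzQ, hbz⟩ := hf b0 hQb hbQ
    have e1 : z * n - n * z = b0 * n - n * b0 := by
      nth_rewrite 1 [← h1]
      nth_rewrite 2 [← h2]
      rw [← mul_assoc, ← hzQ, ← hbz, mul_assoc n Q z, ← hbz]
    have b1 := H.br _ hz _ hn
    rw [e1] at b1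
    have b2 := H.br _ hz _ b1
    have e2 : z * (b0 * n - n * b0) - (b0 * n - n * b0) * z =
        b0 * (b0 * n - n * b0) - (b0 * n - n * b0) * b0 := by
      have e3 : Q * (b0 * n - n * b0) = b0 * n - n * b0 := by
        rw [mul_sub, ← mul_assoc, ← mul_assoc, hQb, h1]
      have e4 : (b0 * n - n * b0) * Q = b0 * n - n * b0 := by
        rw [sub_mul, mul_assoc, mul_assoc, hbQ, h2]
      nth_rewrite 1 [← e3]
      nth_rewrite 2 [← e4]
      rw [← mul_assoc z Q, ← hzQ, ← hbz, mul_assoc _ Q z, ← hbz]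
    have e5 : b0 * (b0 * n - n * b0) - (b0 * n - n * b0) * b0 =
        (b0 * b0) * n - (2 : ℂ) • (b0 * n * b0) + n * (b0 * b0) := by
      rw [two_smul]
      noncomm_ring
    rw [e2, e5, hbb, zero_mul, mul_zero, add_zero, zero_sub, hbnb] at b2
    have b3 : b0 ∈ G := by
      have h3 := G.smul_mem (-(2 * (ψ ⬝ᵥ (n *ᵥ v))))⁻¹ b2
      have e6 : (-(2 * (ψ ⬝ᵥ (n *ᵥ v))))⁻¹ • -((2 : ℂ) • (ψ ⬝ᵥ (n *ᵥ v)) • b0) = b0 := by
        rw [← neg_smul, smul_smul, smul_smul]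
        have : (-(2 * (ψ ⬝ᵥ (n *ᵥ v))))⁻¹ * -2 * (ψ ⬝ᵥ (n *ᵥ v)) = 1 := by
          field_simp
        rw [this, one_smul]
      rwa [e6] at h3
    apply hv0
    refine ker_up H hI hP0 hv fun x hx => ?_
    have hxb : x * b0 ∈ pos G P Q := by
      have h3 := H.br _ hx.1 _ b3
      have h4 : b0 * x = 0 := by
        rw [← hbQ, ← hx.2.1, mul_assoc, ← mul_assoc Q, H.QP, zero_mul, mul_zero]
      rw [h4, sub_zero] at h3
      exact ⟨h3, by rw [← mul_assoc, hx.2.1], by rw [mul_assoc, hbQ]⟩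
    have h5 := hNR _ hxb (x *ᵥ v) fun u => ⟨ψ ⬝ᵥ u, by
      rw [hb0, ← mulVec_mulVec, vm, mulVec_smul]⟩
    have h6 := congrArg (fun M => M *ᵥ (n *ᵥ v)) h5
    beta_reduce at h6
    rw [hb0, ← mulVec_mulVec, vm, mulVec_smul, zero_mulVec] at h6
    exact (smul_eq_zero.1 h6).resolve_left hψn
  -- a scalar
  by_cases hQ0 : Q = 0
  · exact ⟨0, by rw [← h1, hQ0, zero_mul, smul_zero]⟩
  obtain ⟨μ, v, ⟨v', hv'⟩, hv0, hnv⟩ := exists_eig_range (N := n) hQ0 (by
    intro v _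
    refine ⟨n *ᵥ v, ?_⟩
    rw [mulVecLin_apply, mulVec_mulVec, h1])
  rw [mulVecLin_apply] at hv'
  have hQv : Q *ᵥ v = v := by rw [← hv', mulVec_mulVec, H.QQ]
  refine ⟨μ, mat_ext fun w => ?_⟩
  rw [← h2, ← mulVec_mulVec, smul_mulVec]
  have hw : Q *ᵥ (Q *ᵥ w) = Q *ᵥ w := by rw [mulVec_mulVec, H.QQ]
  generalize Q *ᵥ w = u at hw
  obtain ⟨c, hc⟩ := key u hw
  obtain ⟨d, hd⟩ := key (v + u) (by rw [mulVec_add, hQv, hw])
  rw [mulVec_add, hnv, hc, smul_add] at hd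
  by_cases hcμ : c = μ
  · rw [hc, hcμ]
  · have h3 : (μ - d) • v = (d - c) • u := by
      rw [sub_smul, sub_smul, sub_eq_sub_iff_add_eq_add, hd, add_comm]
    by_cases hdc : d - c = 0
    · rw [hdc, zero_smul] at h3
      have h4 := (smul_eq_zero.1 h3).resolve_right hv0
      exact absurd (by rw [← sub_eq_zero.1 hdc, sub_eq_zero.1 h4]) hcμ
    · have h5 : u = ((d - c)⁻¹ * (μ - d)) • v := by
        rw [mul_smul, h3, smul_smul, inv_mul_cancel₀ hdc, one_smul]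
      rw [h5, mulVec_smul, hnv, smul_comm]

end

end Pool.Agent.K9h17.B
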