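import Mathlib
import Pool.Agent.K9h17.B.Ker

/-!
# The correspondence between the two sides
-/

set_option linter.unusedSectionVars false

namespace Pool.Agent.K9h17.B

open Matrix Module
open Pool.Agent.Y4.G (trF trF_apply exists_dual exists_eig_range trace_idemM rank_mul_lt
  finrank_eq_one_of)
open Pool.Agent.Y4.G.Lie (pos mem_pos)
open Pool.Agent.N183.JP
open Pool.Agent.K9h17.L

noncomputable section

variable {B : Type*} [Fintype B] [DecidableEq B]

/-- The data for the construction of the invariant form. -/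
structure Ctx (G : Submodule ℂ (Matrix B B ℂ)) (P Q : Matrix B B ℂ) (a : ℕ)
    (e f p q : Matrix B B ℂ) : Prop where
  H : LieP G P Q a a
  k : TrpP G P Q e f p q
  kP : ∀ n ∈ G, P * n = n → n * P = n → ∃ c : ℂ, n = c • P
  kQ : ∀ n ∈ G, Q * n = n → n * Q = n → ∃ c : ℂ, n = c • Q
  fP : ∀ w, P * w = w → w * P = w → w ∈ LieI.cor G P
  fQ : ∀ w, Q * w = w → w * Q = w → w ∈ LieI.cor G Q
  ht : trace p ≠ 1
  hPp : P - p ≠ 0

/-- Corresponding elements of degree one. -/
structure Rel (G : Submodule ℂ (Matrix B B ℂ)) (P Q p q A A' : Matrix B B ℂ) : Prop where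
  l : p * A = A
  r : A * (P - p) = A
  l' : (Q - q) * A' = A'
  r' : A' * q = A'
  m : A + A' ∈ G

namespace Rel

variable {G : Submodule ℂ (Matrix B B ℂ)} {P Q p q A A' C C' : Matrix B B ℂ}

theorem add (h : Rel G P Q p q A A') (h' : Rel G P Q p q C C') :
    Rel G P Q p q (A + C) (A' + C') where
  l := by rw [mul_add, h.l, h'.l]
  r := by rw [add_mul, h.r, h'.r]
  l' := by rw [mul_add, h.l', h'.l']
  r' := by rw [add_mul, h.r', h'.r']
  m := by
    rw [add_add_add_comm]
    exact G.add_mem h.m h'.m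

theorem smul (s : ℂ) (h : Rel G P Q p q A A') : Rel G P Q p q (s • A) (s • A') where
  l := by rw [mul_smul_comm, h.l]
  r := by rw [smul_mul_assoc, h.r]
  l' := by rw [mul_smul_comm, h.l']
  r' := by rw [smul_mul_assoc, h.r']
  m := by
    rw [← smul_add]
    exact G.smul_mem _ h.m

theorem neg (h : Rel G P Q p q A A') : Rel G P Q p q (-A) (-A') := by
  rw [← neg_one_smul ℂ A, ← neg_one_smul ℂ A']
  exact h.smul (-1)

theorem sub (h : Rel G P Q p q A A') (h' : Rel G P Q p q C C') :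
    Rel G P Q p q (A - C) (A' - C') := by
  rw [sub_eq_add_neg, sub_eq_add_neg]
  exact h.add h'.neg

theorem zero : Rel G P Q p q 0 0 where
  l := mul_zero _
  r := zero_mul _
  l' := mul_zero _
  r' := zero_mul _
  m := by rw [add_zero]; exact G.zero_mem

end Rel

namespace Ctx

variable {G : Submodule ℂ (Matrix B B ℂ)} {P Q : Matrix B B ℂ} {a : ℕ}
  {e f p q : Matrix B B ℂ} (c : Ctx G P Q a e f p q)
include c

theorem h_mem : p - q ∈ G := by
  rw [← c.k.ef, ← c.k.fe]
  exact c.H.br _ c.k.mem.1 _ c.k.fmem.1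

theorem pQ : p * Q = 0 := by rw [← c.k.pP, mul_assoc, c.H.PQ, mul_zero]
theorem Qp : Q * p = 0 := by rw [← c.k.Pp, ← mul_assoc, c.H.QP, zero_mul]
theorem qP : q * P = 0 := by rw [← c.k.qQ, mul_assoc, c.H.QP, mul_zero]
theorem Pq : P * q = 0 := by rw [← c.k.Qu, ← mul_assoc, c.H.PQ, zero_mul]
theorem pq : p * q = 0 := by rw [← c.k.Qu, ← mul_assoc, c.pQ, zero_mul]
theorem qp : q * p = 0 := by rw [← c.k.Pp, ← mul_assoc, c.qP, zero_mul]

theorem PpPp : (P - p) * (P - p) = P - p := c.k.idP c.H.PP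
theorem QqQq : (Q - q) * (Q - q) = Q - q := c.k.idQ c.H.QQ

theorem p0 : p ≠ 0 := by
  intro h0
  apply c.k.ne
  rw [← c.k.pe, h0, zero_mul]

theorem q0 : q ≠ 0 := by
  intro h0
  apply c.k.ne
  rw [← c.k.eq, h0, mul_zero]

theorem hQq : Q - q ≠ 0 := by
  intro h0
  apply c.hPp
  refine idem_zero c.PpPp ?_
  have h1 := congrArg trace h0
  rw [trace_sub, c.H.trQ, c.k.trpq, trace_zero] at h1
  rw [trace_sub, c.H.trP, h1]

/-- The part of degree one with respect to the pair. -/
theorem deg1 {z : Matrix B B ℂ} (hz : z ∈ G) (hzP : P * z = z * P) :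
    p * z * (P - p) + (Q - q) * z * q ∈ G := by
  have hzQ := c.H.comm_Q hz hzP
  have h1 := c.H.br _ c.h_mem _ hz
  have h2 := c.H.br _ c.h_mem _ h1
  have h3 := G.smul_mem (2 : ℂ)⁻¹ (G.add_mem h1 h2)
  have e1 : (p - q) * ((p - q) * z - z * (p - q)) - ((p - q) * z - z * (p - q)) * (p - q) =
      (p * p) * z - (p * q) * z - (q * p) * z + (q * q) * z -
        (2 : ℂ) • (p * z * p - p * z * q - q * z * p + q * z * q) +
        (z * (p * p) - z * (p * q) - z * (q * p) + z * (q * q)) := by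
    rw [two_smul]
    noncomm_ring
  have e2 : p * z * q = 0 := by
    rw [← c.k.pP, mul_assoc p P z, hzP, mul_assoc, mul_assoc, c.Pq, mul_zero, mul_zero]
  have e3 : q * z * p = 0 := by
    rw [← c.k.qQ, mul_assoc q Q z, hzQ, mul_assoc, mul_assoc, c.Qp, mul_zero, mul_zero]
  rw [e1, c.k.pp, c.k.qq, c.pq, c.qp, e2, e3] at h3
  have e4 : p * z * (P - p) + (Q - q) * z * q = p * z - p * z * p + (z * q - q * z * q) := by
    rw [mul_sub, mul_assoc p z P, ← hzP, ← mul_assoc p P z, c.k.pP, sub_mul, sub_mul, hzQ,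
      mul_assoc z Q q, c.k.Qu]
  have e5 : (2 : ℂ)⁻¹ • ((p - q) * z - z * (p - q) + (p * z - 0 * z - 0 * z + q * z -
      (2 : ℂ) • (p * z * p - 0 - 0 + q * z * q) + (z * p - z * 0 - z * 0 + z * q))) =
      p * z - p * z * p + (z * q - q * z * q) := by
    rw [sub_mul, mul_sub, zero_mul, mul_zero]
    module
  rw [e4, ← e5]
  exact h3

/-- The part of degree minus one with respect to the pair. -/
theorem degm {z : Matrix B B ℂ} (hz : z ∈ G) (hzP : P * z = z * P) :
    (P - p) * z * p + q * z * (Q - q) ∈ G := by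
  have hzQ := c.H.comm_Q hz hzP
  have h1 := c.H.br _ c.h_mem _ hz
  have h2 := c.H.br _ c.h_mem _ h1
  have h3 := G.smul_mem (2 : ℂ)⁻¹ (G.sub_mem h2 h1)
  have e1 : (p - q) * ((p - q) * z - z * (p - q)) - ((p - q) * z - z * (p - q)) * (p - q) =
      (p * p) * z - (p * q) * z - (q * p) * z + (q * q) * z -
        (2 : ℂ) • (p * z * p - p * z * q - q * z * p + q * z * q) +
        (z * (p * p) - z * (p * q) - z * (q * p) + z * (q * q)) := by
    rw [two_smul]
    noncomm_ring
  have e2 : p * z * q = 0 := by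
    rw [← c.k.pP, mul_assoc p P z, hzP, mul_assoc, mul_assoc, c.Pq, mul_zero, mul_zero]
  have e3 : q * z * p = 0 := by
    rw [← c.k.qQ, mul_assoc q Q z, hzQ, mul_assoc, mul_assoc, c.Qp, mul_zero, mul_zero]
  rw [e1, c.k.pp, c.k.qq, c.pq, c.qp, e2, e3] at h3
  have e4 : (P - p) * z * p + q * z * (Q - q) = z * p - p * z * p + (q * z - q * z * q) := by
    rw [mul_sub, mul_assoc q z Q, ← hzQ, ← mul_assoc q Q z, c.k.qQ, sub_mul, sub_mul, hzP,
      mul_assoc z P p, c.k.Pp]
  have e5 : (2 : ℂ)⁻¹ • ((p * z - 0 * z - 0 * z + q * z -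
      (2 : ℂ) • (p * z * p - 0 - 0 + q * z * q) + (z * p - z * 0 - z * 0 + z * q)) -
        ((p - q) * z - z * (p - q))) =
      z * p - p * z * p + (q * z - q * z * q) := by
    rw [sub_mul, mul_sub, zero_mul, mul_zero]
    module
  rw [e4, ← e5]
  exact h3

/-- The part of degree zero with respect to the pair. -/
theorem deg0 {z : Matrix B B ℂ} (hz : z ∈ G) (hzP : P * z = z * P) :
    p * z * p + (P - p) * z * (P - p) + (q * z * q + (Q - q) * z * (Q - q)) ∈ G := by
  have hzQ := c.H.comm_Q hz hzP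
  have h1 := G.sub_mem (G.sub_mem hz (c.deg1 hz hzP)) (c.degm hz hzP)
  have e1 : z - (p * z * (P - p) + (Q - q) * z * q) - ((P - p) * z * p + q * z * (Q - q)) =
      p * z * p + (P - p) * z * (P - p) + (q * z * q + (Q - q) * z * (Q - q)) := by
    have h2 : z = P * z * P + Q * z * Q := by
      rw [hzP, mul_assoc, c.H.PP, hzQ, mul_assoc, c.H.QQ, ← hzP, ← hzQ, ← add_mul, c.H.lel z hz]
    nth_rewrite 1 [h2]
    noncomm_ring
  rwa [e1] at h1

/-- Existence of the corresponding element. -/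
theorem exB {A : Matrix B B ℂ} (h1 : p * A = A) (h2 : A * (P - p) = A) :
    ∃ A', Rel G P Q p q A A' := by
  have h3 : P * A = A := by rw [← h1, ← mul_assoc, c.k.Pp]
  have h4 : A * P = A := by rw [← h2, mul_assoc, sub_mul, c.H.PP, c.k.pP]
  obtain ⟨z, hz, hzP, hPz⟩ := c.fP A h3 h4
  refine ⟨(Q - q) * z * q, h1, h2, by rw [← mul_assoc, ← mul_assoc, c.QqQq],
    by rw [mul_assoc _ q q, c.k.qq], ?_⟩
  have h5 := c.deg1 hz hzP
  have e1 : p * z * (P - p) = A := by
    have e2 : p * z = A := by rw [← c.k.pP, mul_assoc, ← hPz, h1]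
    rw [e2, h2]
  rwa [e1] at h5

theorem exA {A' : Matrix B B ℂ} (h1 : (Q - q) * A' = A') (h2 : A' * q = A') :
    ∃ A, Rel G P Q p q A A' := by
  have h3 : Q * A' = A' := by rw [← h1, ← mul_assoc, mul_sub, c.H.QQ, c.k.Qu]
  have h4 : A' * Q = A' := by rw [← h2, mul_assoc, c.k.qQ]
  obtain ⟨z, hz, hzQ, hQz⟩ := c.fQ A' h3 h4
  have hzP := c.H.symm.comm_Q hz hzQ
  refine ⟨p * z * (P - p), by rw [← mul_assoc, ← mul_assoc, c.k.pp],
    by rw [mul_assoc _ (P - p), c.PpPp], h1, h2, ?_⟩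
  have h5 := c.deg1 hz hzP
  have e1 : (Q - q) * z * q = A' := by
    have e0 : (Q - q) * Q = Q - q := by rw [sub_mul, c.H.QQ, c.k.qQ]
    have e2 : (Q - q) * z = (Q - q) * (Q * z) := by rw [← mul_assoc, e0]
    rw [e2, ← hQz, h1, h2]
  rwa [e1] at h5

theorem uniqB {A A' A'' : Matrix B B ℂ} (h : Rel G P Q p q A A') (h' : Rel G P Q p q A A'') :
    A' = A'' := by
  have h1 := G.sub_mem h.m h'.m
  rw [add_sub_add_left_eq_sub] at h1
  have hQ : Q * (Q - q) = Q - q := by rw [mul_sub, c.H.QQ, c.k.Qu]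
  obtain ⟨s, hs⟩ := c.kQ _ h1
    (by rw [mul_sub, ← h.l', ← h'.l', ← mul_assoc, ← mul_assoc, hQ])
    (by rw [sub_mul, ← h.r', ← h'.r', mul_assoc, mul_assoc A'', c.k.qQ])
  have hqQ : q * (Q - q) = 0 := by rw [mul_sub, c.k.qQ, c.k.qq, sub_self]
  have h2 := congrArg (fun z => q * z) hs
  beta_reduce at h2
  rw [mul_sub, ← h.l', ← h'.l', ← mul_assoc, ← mul_assoc, hqQ, zero_mul, zero_mul, sub_zero,
    mul_smul_comm, c.k.qQ] at h2
  have h3 := (smul_eq_zero.1 h2.symm).resolve_right c.q0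
  rw [h3, zero_smul] at hs
  exact sub_eq_zero.1 hs

theorem uniqA {A C A' : Matrix B B ℂ} (h : Rel G P Q p q A A') (h' : Rel G P Q p q C A') :
    A = C := by
  have h1 := G.sub_mem h.m h'.m
  rw [add_sub_add_right_eq_sub] at h1
  have hP : (P - p) * P = P - p := by rw [sub_mul, c.H.PP, c.k.pP]
  obtain ⟨s, hs⟩ := c.kP _ h1
    (by rw [mul_sub, ← h.l, ← h'.l, ← mul_assoc, ← mul_assoc, c.k.Pp])
    (by rw [sub_mul, ← h.r, ← h'.r, mul_assoc, mul_assoc C, hP])
  have hpP : (P - p) * p = 0 := by rw [sub_mul, c.k.Pp, c.k.pp, sub_self]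
  have h2 := congrArg (fun z => z * p) hs
  beta_reduce at h2
  rw [sub_mul, ← h.r, ← h'.r, mul_assoc, mul_assoc, hpP, mul_zero, mul_zero, sub_zero,
    smul_mul_assoc, c.k.Pp] at h2
  have h3 := (smul_eq_zero.1 h2.symm).resolve_right c.p0
  rw [h3, zero_smul] at hs
  exact sub_eq_zero.1 hs

/-- Commutators with elements of degree zero. -/
theorem rel_br {A A' z : Matrix B B ℂ} (h : Rel G P Q p q A A') (hz : z ∈ G) (hzP : P * z = z * P)
    (hzp : p * z = z * p) (hzq : q * z = z * q) :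
    Rel G P Q p q (z * A - A * z) (z * A' - A' * z) where
  l := by rw [mul_sub, ← mul_assoc, hzp, mul_assoc, h.l, ← mul_assoc, h.l]
  r := by
    have h1 : z * (P - p) = (P - p) * z := by rw [mul_sub, sub_mul, hzP, hzp]
    rw [sub_mul, mul_assoc, h.r, mul_assoc, h1, ← mul_assoc, h.r]
  l' := by
    have hzQ := c.H.comm_Q hz hzP
    have h1 : (Q - q) * z = z * (Q - q) := by rw [mul_sub, sub_mul, hzQ, hzq]
    rw [mul_sub, ← mul_assoc, h1, mul_assoc, h.l', ← mul_assoc, h.l']
  r' := by rw [sub_mul, mul_assoc, h.r', mul_assoc, ← hzq, ← mul_assoc, h.r']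
  m := by
    have h1 := c.H.br _ hz _ h.m
    have e1 : z * (A + A') - (A + A') * z = z * A - A * z + (z * A' - A' * z) := by noncomm_ring
    rwa [e1] at h1

/-- **Multiplication by a projector of rank one.** -/
theorem rel_X {X : Matrix B B ℂ} (XX : X * X = X) (hpX : p * X = X) (hXp : X * p = X)
    (hX1 : trace X = 1) {A A' : Matrix B B ℂ} (h : Rel G P Q p q A A') :
    Rel G P Q p q (X * A) (A' * (q - f * X * e)) := by
  have hPX : P * X = X := by rw [← hpX, ← mul_assoc, c.k.Pp]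
  have hXP : X * P = X := by rw [← hXp, mul_assoc, c.k.pP]
  obtain ⟨z, hz, hzP, hPz⟩ := c.fP X hPX hXP
  have hzQ := c.H.comm_Q hz hzP
  have hy := c.deg0 hz hzP
  obtain ⟨y, hyd⟩ : ∃ y, y = p * z * p + (P - p) * z * (P - p) +
    (q * z * q + (Q - q) * z * (Q - q)) := ⟨_, rfl⟩
  rw [← hyd] at hy
  have hpz : p * z = X := by rw [← c.k.pP, mul_assoc, ← hPz, hpX]
  have hPpz : (P - p) * z = 0 := by rw [sub_mul, ← hPz, hpz, sub_self]
  rw [hpz, hPpz, hXp, zero_mul, add_zero] at hyd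
  -- commutation
  have hPQq : P * (Q - q) = 0 := by rw [mul_sub, c.H.PQ, c.Pq, sub_zero]
  have hQqP : (Q - q) * P = 0 := by rw [sub_mul, c.H.QP, c.qP, sub_zero]
  have hpQq : p * (Q - q) = 0 := by rw [mul_sub, c.pQ, c.pq, sub_zero]
  have hQqp : (Q - q) * p = 0 := by rw [sub_mul, c.Qp, c.qp, sub_zero]
  have hqX : q * X = 0 := by rw [← hpX, ← mul_assoc, c.qp, zero_mul]
  have hXq : X * q = 0 := by rw [← hXp, mul_assoc, c.pq, mul_zero]
  have hQqX : (Q - q) * X = 0 := by rw [← hpX, ← mul_assoc, hQqp, zero_mul]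
  have hXQq : X * (Q - q) = 0 := by rw [← hXp, mul_assoc, hpQq, mul_zero]
  have hqQq : q * (Q - q) = 0 := by rw [mul_sub, c.k.qQ, c.k.qq, sub_self]
  have hQqq : (Q - q) * q = 0 := by rw [sub_mul, c.k.Qu, c.k.qq, sub_self]
  have hPy : P * y = X := by
    rw [hyd, mul_add, mul_add, hPX]
    simp only [← mul_assoc, c.Pq, hPQq, zero_mul, add_zero]
  have hyP : y * P = X := by
    rw [hyd, add_mul, add_mul, hXP]
    simp only [mul_assoc, c.qP, hQqP, mul_zero, add_zero]
  have hpy : p * y = X := by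
    rw [hyd, mul_add, mul_add, hpX]
    simp only [← mul_assoc, c.pq, hpQq, zero_mul, add_zero]
  have hyp : y * p = X := by
    rw [hyd, add_mul, add_mul, hXp]
    simp only [mul_assoc, c.qp, hQqp, mul_zero, add_zero]
  have hqy : q * y = q * z * q := by
    rw [hyd, mul_add, mul_add, hqX, zero_add]
    simp only [← mul_assoc, c.k.qq, hqQq, zero_mul, add_zero]
  have hyq : y * q = q * z * q := by
    rw [hyd, add_mul, add_mul, hXq, zero_add]
    simp only [mul_assoc, c.k.qq, hQqq, mul_zero, add_zero]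
  have hyQ := c.H.comm_Q hy (hPy.trans hyP.symm)
  -- the action on `e`
  have h1 : y * e - e * y ∈ pos G P Q := c.H.br_pos c.k.mem hy (hPy.trans hyP.symm) hyQ
  obtain ⟨s, hs⟩ := c.k.one _ h1 (by
    have e1 : p * (y * e) * q = y * e := by
      rw [mul_assoc, mul_assoc y, c.k.eq, ← mul_assoc, hpy, ← hyp, mul_assoc, c.k.pe]
    have e2 : p * (e * y) * q = e * y := by
      rw [← mul_assoc, c.k.pe, mul_assoc, hyq, ← hqy, ← mul_assoc, c.k.eq]
    rw [mul_sub, sub_mul, e1, e2])
  have hY1 : q * y = f * X * e - s • q := by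
    have h2 := congrArg (fun z => f * z) hs
    beta_reduce at h2
    rw [mul_sub, mul_smul_comm, c.k.fe] at h2
    have e1 : f * (y * e) = f * X * e := by
      rw [← hpy, ← mul_assoc, ← mul_assoc, c.k.fp]
    have e2 : f * (e * y) = q * y := by rw [← mul_assoc, c.k.fe]
    rw [e1, e2] at h2
    rw [← h2, sub_sub_cancel]
  -- the left factor
  obtain ⟨L, hL⟩ : ∃ L, L = (Q - q) * y + s • (Q - q) := ⟨_, rfl⟩
  obtain ⟨R, hR⟩ : ∃ R, R = f * X * e := ⟨_, rfl⟩
  have hRR : R * R = R := by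
    rw [hR]
    calc f * X * e * (f * X * e) = f * X * (e * f) * X * e := by noncomm_ring
    _ = f * (X * p * X) * e := by rw [c.k.ef]; noncomm_ring
    _ = _ := by rw [hXp, XX]
  have hqR : q * R = R := by rw [hR, ← mul_assoc, ← mul_assoc, c.k.qf]
  have hRq : R * q = R := by rw [hR, mul_assoc, c.k.eq]
  have key : ∀ {C C' : Matrix B B ℂ}, Rel G P Q p q C C' →
      Rel G P Q p q (X * C) (L * C' - C' * R) := by
    intro C C' h
    have h2 := c.rel_br h hy (hPy.trans hyP.symm) (hpy.trans hyp.symm) (hqy.trans hyq.symm)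
    have e1 : y * C - C * y = X * C := by
      have e2 : C * y = 0 := by
        rw [← h.r, mul_assoc, sub_mul, hPy, hpy, sub_self, mul_zero]
      have e3 : y * C = X * C := by rw [← h.l, ← mul_assoc, ← mul_assoc, hyp, hXp]
      rw [e2, e3, sub_zero]
    have e4 : y * C' - C' * y = L * C' - C' * R := by
      have e5 : C' * y = C' * R - s • C' := by
        rw [← h.r', mul_assoc, hY1, ← hR, mul_sub, mul_smul_comm, mul_assoc C' q R, hqR]
      have e6 : L * C' = y * C' + s • C' := by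
        have e7 : (Q - q) * y = y * (Q - q) := by rw [sub_mul, mul_sub, hyQ, hqy, hyq]
        rw [hL, add_mul, e7, mul_assoc, smul_mul_assoc, h.l']
      rw [e5, e6]
      abel
    rwa [e1, e4] at h2
  have hLl : (Q - q) * L = L := by
    rw [hL, mul_add, ← mul_assoc, mul_smul_comm, c.QqQq]
  have hLr : L * (Q - q) = L := by
    have e7 : (Q - q) * y = y * (Q - q) := by rw [sub_mul, mul_sub, hyQ, hqy, hyq]
    rw [hL, add_mul, e7, mul_assoc, smul_mul_assoc, c.QqQq]
  have hqR0 : q - R ≠ 0 := by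
    intro h0
    apply c.ht
    rw [← hX1]
    congr 1
    have h2 : e * q * f = e * R * f := by rw [sub_eq_zero.1 h0]
    rw [c.k.eq, c.k.ef] at h2
    rw [h2, hR]
    calc e * (f * X * e) * f = (e * f) * X * (e * f) := by noncomm_ring
    _ = X := by rw [c.k.ef, hpX, hXp]
  have hR0 : R ≠ 0 := by
    intro h0
    have h2 : e * R * f = X := by
      rw [hR]
      calc e * (f * X * e) * f = (e * f) * X * (e * f) := by noncomm_ring
      _ = X := by rw [c.k.ef, hpX, hXp]
    rw [h0, mul_zero, zero_mul] at h2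
    rw [← h2, trace_zero] at hX1
    exact zero_ne_one hX1
  have key2 : ∀ C' : Matrix B B ℂ, (Q - q) * C' = C' → C' * q = C' →
      L * (L * C' - C' * R) - (L * C' - C' * R) * R = L * C' - C' * R := by
    intro C' h1 h2
    obtain ⟨C, hC⟩ := c.exA h1 h2
    have h3 := key (key hC)
    rw [← mul_assoc, XX] at h3
    exact c.uniqB h3 (key hC)
  have hL2 : L * L = L := by
    have h2 : ∀ N : Matrix B B ℂ, (L * L - L) * N * (q - R) = 0 := by
      intro N
      have hqRR : (q - R) * R = 0 := by rw [sub_mul, hqR, hRR, sub_self]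
      have hqRq : (q - R) * q = q - R := by rw [sub_mul, c.k.qq, hRq]
      have h3 := key2 ((Q - q) * N * (q - R)) (by rw [← mul_assoc, ← mul_assoc, c.QqQq])
        (by rw [mul_assoc, hqRq])
      rw [mul_assoc _ (q - R) R, hqRR, mul_zero, sub_zero] at h3
      have e1 : L * ((Q - q) * N * (q - R)) = L * N * (q - R) := by
        rw [← mul_assoc, ← mul_assoc, hLr]
      rw [e1, mul_assoc _ (q - R) R, hqRR, mul_zero, sub_zero] at h3
      rw [sub_mul, sub_mul, ← h3]
      noncomm_ring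
    rcases prime_mul h2 with h3 | h3
    · exact sub_eq_zero.1 h3
    · exact absurd h3 hqR0
  have hL1 : L = Q - q := by
    have h2 : ∀ N : Matrix B B ℂ, (L - (Q - q)) * N * R = 0 := by
      intro N
      have h3 := key2 ((Q - q) * N * R) (by rw [← mul_assoc, ← mul_assoc, c.QqQq])
        (by rw [mul_assoc, hRq])
      have e1 : L * ((Q - q) * N * R) = L * N * R := by
        rw [← mul_assoc, ← mul_assoc, hLr]
      have e2 : L * (L * N * R) = L * N * R := by rw [← mul_assoc, ← mul_assoc, hL2]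
      have e3 : (L * N * R) * R = L * N * R := by rw [mul_assoc, hRR]
      have e4 : (Q - q) * N * R * R = (Q - q) * N * R := by rw [mul_assoc, hRR]
      rw [e1, e4, mul_sub, e1, e2, sub_mul, e3, e4, sub_self, zero_sub] at h3
      have h4 : L * N * R = (Q - q) * N * R := by
        have h5 : (L * N * R - (Q - q) * N * R) = -(L * N * R - (Q - q) * N * R) := h3.symm
        have h6 : (2 : ℂ) • (L * N * R - (Q - q) * N * R) = 0 := by
          rw [two_smul]
          nth_rewrite 1 [h5]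
          exact neg_add_cancel _
        exact sub_eq_zero.1 ((smul_eq_zero.1 h6).resolve_left two_ne_zero)
      rw [sub_mul, sub_mul, h4, sub_self]
    rcases prime_mul h2 with h3 | h3
    · exact sub_eq_zero.1 h3
    · exact absurd h3 hR0
  have h2 := key h
  rw [hL1, h.l'] at h2
  rw [mul_sub, h.r', ← hR]
  exact h2

end Ctx

end

end Pool.Agent.K9h17.B
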