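import Mathlib
import Pool.Agent.K9h17.B.Rel

/-!
# The duality between the two sides
-/

set_option linter.unusedSectionVars false

namespace Pool.Agent.K9h17.B

open Matrix Module
open Pool.Agent.Y4.G (trF trF_apply exists_dual exists_eig_range trace_idemM rank_mul_lt
  finrank_eq_one_of)
open Pool.Agent.Y4.G.Lie (pos mem_pos)
open Pool.Agent.N183.JP
open Pool.Agent.K9h17.L

noncomputable section

variable {B : Type*} [Fintype B] [DecidableEq B]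

/-- A projector of rank two. -/
structure Two (p : Matrix B B ℂ) (v1 φ1 v2 φ2 : B → ℂ) : Prop where
  a11 : φ1 ⬝ᵥ v1 = 1
  a22 : φ2 ⬝ᵥ v2 = 1
  a12 : φ1 ⬝ᵥ v2 = 0
  a21 : φ2 ⬝ᵥ v1 = 0
  p1 : p *ᵥ v1 = v1
  p2 : p *ᵥ v2 = v2
  r1 : φ1 ᵥ* p = φ1
  r2 : φ2 ᵥ* p = φ2

/-- Two lines below a projector. -/
theorem exists_two {R : Matrix B B ℂ} (RR : R * R = R) (R0 : R ≠ 0) (R1 : trace R ≠ 1) :
    ∃ v1 φ1 v2 φ2 : B → ℂ, Two R v1 φ1 v2 φ2 := by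
  obtain ⟨v1, φ1, h1, h2, h3⟩ := exists_one_below RR R0
  have e1 : R * vecMulVec v1 φ1 = vecMulVec v1 φ1 := by rw [mul_vecMulVec, h2]
  have e2 : vecMulVec v1 φ1 * R = vecMulVec v1 φ1 := by rw [vecMulVec_mul, h3]
  have e3 : vecMulVec v1 φ1 * vecMulVec v1 φ1 = vecMulVec v1 φ1 := by
    rw [vecMulVec_mul_vecMulVec, h1, one_smul]
  have hSS : (R - vecMulVec v1 φ1) * (R - vecMulVec v1 φ1) = R - vecMulVec v1 φ1 := by
    rw [sub_mul, mul_sub, mul_sub, RR, e1, e2, e3]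
    abel
  have hS0 : R - vecMulVec v1 φ1 ≠ 0 := by
    intro h0
    apply R1
    rw [sub_eq_zero.1 h0, trace_vecMulVec, dotProduct_comm, h1]
  obtain ⟨v2, φ2, h4, h5, h6⟩ := exists_one_below hSS hS0
  have h7 : R * (R - vecMulVec v1 φ1) = R - vecMulVec v1 φ1 := by rw [mul_sub, RR, e1]
  have h8 : (R - vecMulVec v1 φ1) * R = R - vecMulVec v1 φ1 := by rw [sub_mul, RR, e2]
  refine ⟨v1, φ1, v2, φ2, h1, h4, ?_, ?_, h2, ?_, h3, ?_⟩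
  · rw [← h5, dotProduct_mulVec, vecMul_sub, h3, mv, h1, one_smul, sub_self, zero_dotProduct]
  · rw [← h6, ← dotProduct_mulVec, sub_mulVec, h2, vm, h1, one_smul, sub_self, dotProduct_zero]
  · rw [← h5, mulVec_mulVec, h7]
  · rw [← h6, vecMul_vecMul, h8]

namespace Ctx

variable {G : Submodule ℂ (Matrix B B ℂ)} {P Q : Matrix B B ℂ} {a : ℕ}
  {e f p q : Matrix B B ℂ} (c : Ctx G P Q a e f p q)
include c

/-- Multiplication by a projector on a line. -/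
theorem rel_L {v φ : B → ℂ} (h1 : φ ⬝ᵥ v = 1) (h2 : p *ᵥ v = v) (h3 : φ ᵥ* p = φ)
    {A A' : Matrix B B ℂ} (h : Rel G P Q p q A A') :
    Rel G P Q p q (vecMulVec v φ * A) (A' * (q - f * vecMulVec v φ * e)) := by
  refine c.rel_X ?_ ?_ ?_ ?_ h
  · rw [vecMulVec_mul_vecMulVec, h1, one_smul]
  · rw [mul_vecMulVec, h2]
  · rw [vecMulVec_mul, h3]
  · rw [trace_vecMulVec, dotProduct_comm, h1]

/-- **The rank is two.** -/
theorem p_sum {v1 φ1 v2 φ2 : B → ℂ} (t : Two p v1 φ1 v2 φ2) :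
    p = vecMulVec v1 φ1 + vecMulVec v2 φ2 := by
  have key : ∀ N : Matrix B B ℂ, (Q - q) * N *
      (q - f * (vecMulVec v1 φ1 + vecMulVec v2 φ2) * e) = 0 := by
    intro N
    obtain ⟨A, hA⟩ := c.exA (A' := (Q - q) * N * q) (by rw [← mul_assoc, ← mul_assoc, c.QqQq])
      (by rw [mul_assoc, c.k.qq])
    have h1 := c.rel_L t.a11 t.p1 t.r1 (c.rel_L t.a22 t.p2 t.r2 hA)
    have e1 : vecMulVec v1 φ1 * (vecMulVec v2 φ2 * A) = 0 := by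
      rw [← mul_assoc, vecMulVec_mul_vecMulVec, t.a12, zero_smul, vecMulVec_zero, zero_mul]
    rw [e1] at h1
    have h2 := c.uniqB h1 Rel.zero
    rw [← h2]
    have e2 : (q - f * vecMulVec v2 φ2 * e) * (q - f * vecMulVec v1 φ1 * e) =
        q - f * (vecMulVec v1 φ1 + vecMulVec v2 φ2) * e := by
      have e3 : f * vecMulVec v2 φ2 * e * (f * vecMulVec v1 φ1 * e) = 0 := by
        calc f * vecMulVec v2 φ2 * e * (f * vecMulVec v1 φ1 * e) =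
            f * (vecMulVec v2 φ2 * ((e * f) * vecMulVec v1 φ1)) * e := by noncomm_ring
        _ = 0 := by
          rw [c.k.ef, mul_vecMulVec, t.p1, vecMulVec_mul_vecMulVec, t.a21, zero_smul,
            vecMulVec_zero, mul_zero, zero_mul]
      have e4 : (q - f * vecMulVec v2 φ2 * e) * (q - f * vecMulVec v1 φ1 * e) =
          q * q - (q * f) * vecMulVec v1 φ1 * e - f * vecMulVec v2 φ2 * (e * q) +
          f * vecMulVec v2 φ2 * e * (f * vecMulVec v1 φ1 * e) := by noncomm_ring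
      rw [e4, e3, c.k.qq, c.k.qf, c.k.eq]
      noncomm_ring
    have hqe : q * (q - f * (vecMulVec v1 φ1 + vecMulVec v2 φ2) * e) =
        q - f * (vecMulVec v1 φ1 + vecMulVec v2 φ2) * e := by
      rw [mul_sub, c.k.qq, ← mul_assoc, ← mul_assoc, c.k.qf]
    rw [mul_assoc _ (q - f * vecMulVec v2 φ2 * e), e2, mul_assoc _ q, hqe]
  rcases prime_mul key with h | h
  · exact absurd h c.hQq
  · have h1 : e * q * f = e * (f * (vecMulVec v1 φ1 + vecMulVec v2 φ2) * e) * f := by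
      rw [sub_eq_zero.1 h]
    have h2 : e * (f * (vecMulVec v1 φ1 + vecMulVec v2 φ2) * e) * f =
        (e * f) * (vecMulVec v1 φ1 + vecMulVec v2 φ2) * (e * f) := by noncomm_ring
    rw [h2, c.k.eq, c.k.ef, mul_add, add_mul, mul_vecMulVec, mul_vecMulVec, t.p1, t.p2,
      vecMulVec_mul, vecMulVec_mul, t.r1, t.r2] at h1
    exact h1

/-- The form of the correspondence. -/
theorem exJ {v1 φ1 v2 φ2 : B → ℂ} (t : Two p v1 φ1 v2 φ2) {φ : B → ℂ}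
    (hφ : φ ᵥ* (P - p) = φ) : ∃ j : B → ℂ, (Q - q) *ᵥ j = j ∧
      Rel G P Q p q (vecMulVec v1 φ) (vecMulVec j (φ2 ᵥ* e)) ∧
      Rel G P Q p q (vecMulVec v2 φ) (-vecMulVec j (φ1 ᵥ* e)) := by
  obtain ⟨A', hA⟩ := c.exB (A := vecMulVec v1 φ) (by rw [mul_vecMulVec, t.p1])
    (by rw [vecMulVec_mul, hφ])
  have hs := c.p_sum t
  have h1 := c.rel_L t.a11 t.p1 t.r1 hA
  have e1 : vecMulVec v1 φ1 * vecMulVec v1 φ = vecMulVec v1 φ := by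
    rw [vecMulVec_mul_vecMulVec, t.a11, one_smul]
  rw [e1] at h1
  have h2 := c.uniqB h1 hA
  have e2 : q - f * vecMulVec v1 φ1 * e = f * vecMulVec v2 φ2 * e := by
    have e3 : q = f * p * e := by rw [mul_assoc, c.k.pe, c.k.fe]
    rw [e3]
    nth_rewrite 1 [hs]
    noncomm_ring
  have h3 : A' = vecMulVec (A' *ᵥ (f *ᵥ v2)) (φ2 ᵥ* e) := by
    rw [e2] at h2
    nth_rewrite 1 [← h2]
    rw [mul_assoc f, vecMulVec_mul, mul_vecMulVec, mul_vecMulVec]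
  have hQj : (Q - q) *ᵥ (A' *ᵥ (f *ᵥ v2)) = A' *ᵥ (f *ᵥ v2) := by
    rw [mulVec_mulVec, hA.l']
  refine ⟨A' *ᵥ (f *ᵥ v2), hQj, ?_, ?_⟩
  · rw [← h3]
    exact hA
  · -- the second vector
    have h4 : (φ1 + φ2) ⬝ᵥ v2 = 1 := by rw [add_dotProduct, t.a12, t.a22, zero_add]
    have h5 := (c.rel_L h4 t.p2 (by rw [add_vecMul, t.r1, t.r2]) hA).sub
      (c.rel_L t.a22 t.p2 t.r2 hA)
    have e4 : vecMulVec v2 (φ1 + φ2) * vecMulVec v1 φ - vecMulVec v2 φ2 * vecMulVec v1 φ =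
        vecMulVec v2 φ := by
      rw [vecMulVec_mul_vecMulVec, vecMulVec_mul_vecMulVec, add_dotProduct, t.a11, t.a21,
        add_zero, one_smul, zero_smul, vecMulVec_zero, sub_zero]
    have e5 : A' * (q - f * vecMulVec v2 (φ1 + φ2) * e) - A' * (q - f * vecMulVec v2 φ2 * e) =
        -vecMulVec (A' *ᵥ (f *ᵥ v2)) (φ1 ᵥ* e) := by
      rw [← mul_sub, vecMulVec_add]
      have e6 : q - f * (vecMulVec v2 φ1 + vecMulVec v2 φ2) * e -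
          (q - f * vecMulVec v2 φ2 * e) = -(f * (vecMulVec v2 φ1 * e)) := by noncomm_ring
      rw [e6, mul_neg, vecMulVec_mul, mul_vecMulVec, mul_vecMulVec]
    rw [e4, e5] at h5
    exact h5

/-- **The duality.** -/
theorem exTheta {v1 φ1 v2 φ2 : B → ℂ} (t : Two p v1 φ1 v2 φ2) :
    ∃ Θ : (B → ℂ) →ₗ[ℂ] (B → ℂ), (∀ w, Θ w = Θ (Q *ᵥ w)) ∧ (∀ w, Θ w ᵥ* P = Θ w) ∧
      (∀ w, q *ᵥ w = w → Θ w = (φ2 ⬝ᵥ (e *ᵥ w)) • φ1 - (φ1 ⬝ᵥ (e *ᵥ w)) • φ2) ∧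
      (∀ w, (Q - q) *ᵥ w = w → Θ w ᵥ* (P - p) = Θ w) ∧
      (∀ A A', Rel G P Q p q A A' → ∀ w, Θ (A' *ᵥ w) + Θ w ᵥ* A = 0) ∧
      (∀ φ, φ ᵥ* (P - p) = φ → ∃ w, (Q - q) *ᵥ w = w ∧ Θ w = φ) ∧
      (∀ w, (Q - q) *ᵥ w = w → ∃ A A', Rel G P Q p q A A' ∧ A' *ᵥ (f *ᵥ v2) = w) := by
  have hs := c.p_sum t
  have hpe : ∀ i : B → ℂ, i ᵥ* p = i → (i ᵥ* e) ⬝ᵥ (f *ᵥ v2) = i ⬝ᵥ v2 := by
    intro i hi
    rw [← dotProduct_mulVec, mulVec_mulVec, c.k.ef, dotProduct_mulVec, hi]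
  let Φ : Submodule ℂ (B → ℂ) :=
    { carrier := {φ | φ ᵥ* (P - p) = φ}
      zero_mem' := zero_vecMul _
      add_mem' := fun {u v} hu hv => by
        change (u + v) ᵥ* (P - p) = u + v
        rw [add_vecMul, show u ᵥ* (P - p) = u from hu, show v ᵥ* (P - p) = v from hv]
      smul_mem' := fun s u hu => by
        change (s • u) ᵥ* (P - p) = s • u
        rw [smul_vecMul, show u ᵥ* (P - p) = u from hu] }
  have hex : ∀ φ : Φ, ∃ j : B → ℂ, (Q - q) *ᵥ j = j ∧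
      Rel G P Q p q (vecMulVec v1 (φ : B → ℂ)) (vecMulVec j (φ2 ᵥ* e)) ∧
      Rel G P Q p q (vecMulVec v2 (φ : B → ℂ)) (-vecMulVec j (φ1 ᵥ* e)) :=
    fun φ => c.exJ t φ.2
  choose j hj1 hj2 hj3 using hex
  have huj : ∀ (j1 j2 : B → ℂ) (A : Matrix B B ℂ),
      Rel G P Q p q A (vecMulVec j1 (φ2 ᵥ* e)) → Rel G P Q p q A (vecMulVec j2 (φ2 ᵥ* e)) →
        j1 = j2 := by
    intro j1 j2 A h1 h2
    have h3 := congrArg (fun M => M *ᵥ (f *ᵥ v2)) (c.uniqB h1 h2)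
    beta_reduce at h3
    rwa [vm, vm, hpe φ2 t.r2, t.a22, one_smul, one_smul] at h3
  let J : Φ →ₗ[ℂ] (B → ℂ) :=
    { toFun := j
      map_add' := fun x y => by
        refine huj _ _ (vecMulVec v1 ((x : B → ℂ) + (y : B → ℂ))) (hj2 (x + y)) ?_
        rw [vecMulVec_add, add_vecMulVec]
        exact (hj2 x).add (hj2 y)
      map_smul' := fun s x => by
        refine huj _ _ (vecMulVec v1 (s • (x : B → ℂ))) (hj2 (s • x)) ?_
        rw [vecMulVec_smul, RingHom.id_apply, smul_vecMulVec]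
        exact (hj2 x).smul s }
  have hJ : ∀ φ, J φ = j φ := fun _ => rfl
  have hJinj : LinearMap.ker J = ⊥ := by
    rw [LinearMap.ker_eq_bot']
    intro φ h0
    have h1 := hj2 φ
    rw [← hJ, h0, zero_vecMulVec] at h1
    have h2 := c.uniqA h1 Rel.zero
    apply Subtype.ext
    have h3 := congrArg (fun M => φ1 ᵥ* M) h2
    beta_reduce at h3
    rwa [mv, t.a11, one_smul, vecMul_zero] at h3
  obtain ⟨g, hg⟩ := J.exists_leftInverse_of_injective hJinj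
  have hgJ : ∀ φ : Φ, g (j φ) = φ := fun φ => LinearMap.congr_fun hg φ
  -- surjectivity
  have hsurj : ∀ w, (Q - q) *ᵥ w = w → ∃ φ : Φ, j φ = w := by
    intro w hw
    obtain ⟨A, hA⟩ := c.exA (A' := vecMulVec w (φ2 ᵥ* e)) (by rw [mul_vecMulVec, hw])
      (by rw [vecMulVec_mul, vecMul_vecMul, c.k.eq])
    have hAr : ∀ i : B → ℂ, i ᵥ* A ∈ Φ := fun i => by
      change (i ᵥ* A) ᵥ* (P - p) = i ᵥ* A
      rw [vecMul_vecMul, hA.r]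
    have e1 : A = vecMulVec v1 (φ1 ᵥ* A) + vecMulVec v2 (φ2 ᵥ* A) := by
      rw [← vecMulVec_mul, ← vecMulVec_mul, ← add_mul, ← hs, hA.l]
    have h1 := (hj2 ⟨φ1 ᵥ* A, hAr φ1⟩).add (hj3 ⟨φ2 ᵥ* A, hAr φ2⟩)
    change Rel G P Q p q (vecMulVec v1 (φ1 ᵥ* A) + vecMulVec v2 (φ2 ᵥ* A)) _ at h1
    rw [← e1] at h1
    have h2 := congrArg (fun M => M *ᵥ (f *ᵥ v2)) (c.uniqB hA h1)
    beta_reduce at h2
    rw [vm, add_mulVec, neg_mulVec, vm, vm, hpe φ2 t.r2, hpe φ1 t.r1, t.a22, t.a12, one_smul,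
      one_smul, zero_smul, neg_zero, add_zero] at h2
    exact ⟨_, h2.symm⟩
  -- the map
  let Θ : (B → ℂ) →ₗ[ℂ] (B → ℂ) :=
    { toFun := fun w => (φ2 ⬝ᵥ (e *ᵥ w)) • φ1 - (φ1 ⬝ᵥ (e *ᵥ w)) • φ2 -
        (g ((Q - q) *ᵥ w) : B → ℂ)
      map_add' := fun x y => by
        simp only [mulVec_add, dotProduct_add, map_add, Submodule.coe_add]
        module
      map_smul' := fun s x => by
        simp only [mulVec_smul, dotProduct_smul, map_smul, Submodule.coe_smul, smul_eq_mul,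
          RingHom.id_apply]
        module }
  have hΘ : ∀ w, Θ w = (φ2 ⬝ᵥ (e *ᵥ w)) • φ1 - (φ1 ⬝ᵥ (e *ᵥ w)) • φ2 -
        (g ((Q - q) *ᵥ w) : B → ℂ) := fun _ => rfl
  have heQq : e * (Q - q) = 0 := by rw [mul_sub, c.k.mem.2.2, c.k.eq, sub_self]
  have hΘj : ∀ φ : Φ, Θ (j φ) = -(φ : B → ℂ) := by
    intro φ
    have h1 : e *ᵥ j φ = 0 := by rw [← hj1, mulVec_mulVec, heQq, zero_mulVec]
    rw [hΘ, h1, hj1, hgJ, dotProduct_zero, dotProduct_zero]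
    module
  have hgP : ∀ w, (g w : B → ℂ) ᵥ* (P - p) = (g w : B → ℂ) := fun w => (g w).2
  have hPpP : (P - p) * P = P - p := by rw [sub_mul, c.H.PP, c.k.pP]
  have hgv : ∀ w (v : B → ℂ), p *ᵥ v = v → (g w : B → ℂ) ⬝ᵥ v = 0 := by
    intro w v hv
    rw [← hgP, ← dotProduct_mulVec, ← hv, mulVec_mulVec, sub_mul, c.k.Pp, c.k.pp, sub_self,
      zero_mulVec, dotProduct_zero]
  have hΘ1 : ∀ w, Θ w ⬝ᵥ v1 = φ2 ⬝ᵥ (e *ᵥ w) := by
    intro w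
    rw [hΘ, sub_dotProduct, sub_dotProduct, smul_dotProduct, smul_dotProduct, t.a11, t.a21,
      hgv _ v1 t.p1, smul_eq_mul, smul_eq_mul]
    ring
  have hΘ2 : ∀ w, Θ w ⬝ᵥ v2 = -(φ1 ⬝ᵥ (e *ᵥ w)) := by
    intro w
    rw [hΘ, sub_dotProduct, sub_dotProduct, smul_dotProduct, smul_dotProduct, t.a12, t.a22,
      hgv _ v2 t.p2, smul_eq_mul, smul_eq_mul]
    ring
  refine ⟨Θ, ?_, ?_, ?_, ?_, ?_, ?_, ?_⟩
  · intro w
    have h1 : (Q - q) *ᵥ (Q *ᵥ w) = (Q - q) *ᵥ w := by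
      rw [mulVec_mulVec, sub_mul, c.H.QQ, c.k.qQ]
    rw [hΘ, hΘ (Q *ᵥ w), h1, mulVec_mulVec w e Q, c.k.mem.2.2]
  · intro w
    rw [hΘ, sub_vecMul, sub_vecMul, smul_vecMul, smul_vecMul]
    have h1 : φ1 ᵥ* P = φ1 := by rw [← t.r1, vecMul_vecMul, c.k.pP]
    have h2 : φ2 ᵥ* P = φ2 := by rw [← t.r2, vecMul_vecMul, c.k.pP]
    have h3 : (g ((Q - q) *ᵥ w) : B → ℂ) ᵥ* P = (g ((Q - q) *ᵥ w) : B → ℂ) := by
      rw [← hgP, vecMul_vecMul, hPpP]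
    rw [h1, h2, h3]
  · intro w hw
    have h1 : (Q - q) *ᵥ w = 0 := by
      rw [← hw, mulVec_mulVec, sub_mul, c.k.Qu, c.k.qq, sub_self, zero_mulVec]
    rw [hΘ, h1, map_zero, Submodule.coe_zero, sub_zero]
  · intro w hw
    have h1 : e *ᵥ w = 0 := by rw [← hw, mulVec_mulVec, heQq, zero_mulVec]
    rw [hΘ, h1, dotProduct_zero, dotProduct_zero, zero_smul, zero_smul, sub_zero, zero_sub,
      neg_vecMul, hgP]
  · intro A A' hA w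
    have hAr : ∀ i : B → ℂ, i ᵥ* A ∈ Φ := fun i => by
      change (i ᵥ* A) ᵥ* (P - p) = i ᵥ* A
      rw [vecMul_vecMul, hA.r]
    have e1 : A = vecMulVec v1 (φ1 ᵥ* A) + vecMulVec v2 (φ2 ᵥ* A) := by
      rw [← vecMulVec_mul, ← vecMulVec_mul, ← add_mul, ← hs, hA.l]
    have h1 := (hj2 ⟨φ1 ᵥ* A, hAr φ1⟩).add (hj3 ⟨φ2 ᵥ* A, hAr φ2⟩)
    change Rel G P Q p q (vecMulVec v1 (φ1 ᵥ* A) + vecMulVec v2 (φ2 ᵥ* A)) _ at h1
    have e3 : Θ w ᵥ* A = (φ2 ⬝ᵥ e *ᵥ w) • (φ1 ᵥ* A) + -(φ1 ⬝ᵥ e *ᵥ w) • (φ2 ᵥ* A) := by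
      have e4 : Θ w ᵥ* A =
          Θ w ᵥ* (vecMulVec v1 (φ1 ᵥ* A) + vecMulVec v2 (φ2 ᵥ* A)) := by rw [← e1]
      rw [e4, vecMul_add, mv, mv, hΘ1, hΘ2]
    rw [← e1] at h1
    rw [c.uniqB hA h1, e3, add_mulVec, neg_mulVec, vm, vm, map_add, map_neg, map_smul, map_smul,
      hΘj, hΘj, ← dotProduct_mulVec, ← dotProduct_mulVec]
    change (φ2 ⬝ᵥ e *ᵥ w) • -(φ1 ᵥ* A) + -((φ1 ⬝ᵥ e *ᵥ w) • -(φ2 ᵥ* A)) + _ = 0
    module
  · intro φ hφ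
    refine ⟨-j ⟨φ, hφ⟩, by rw [mulVec_neg, hj1], ?_⟩
    rw [map_neg, hΘj, neg_neg]
  · intro w hw
    obtain ⟨φ, rfl⟩ := hsurj w hw
    refine ⟨_, _, hj2 φ, ?_⟩
    rw [vm, hpe φ2 t.r2, t.a22, one_smul]

end Ctx

end

end Pool.Agent.K9h17.B
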