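import Mathlib
import Pool.Agent.K9h17.B.Theta

/-!
# The invariant symmetric form
-/

set_option linter.unusedSectionVars false

namespace Pool.Agent.K9h17.B

open Matrix Module
open Pool.Agent.Y4.G (trF trF_apply exists_dual exists_eig_range trace_idemM rank_mul_lt
  finrank_eq_one_of)
open Pool.Agent.Y4.G.Lie (pos mem_pos)
open Pool.Agent.N183.JP
open Pool.Agent.K9h17.L

noncomputable section

variable {B : Type*} [Fintype B] [DecidableEq B]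

/-- The properties of the duality between the two sides. -/
structure IsTheta (G : Submodule ℂ (Matrix B B ℂ)) (P Q e f p q : Matrix B B ℂ)
    (φ1 φ2 v2 : B → ℂ) (Θ : (B → ℂ) →ₗ[ℂ] (B → ℂ)) : Prop where
  T0 : ∀ w, Θ w = Θ (Q *ᵥ w)
  T1 : ∀ w, Θ w ᵥ* P = Θ w
  T2 : ∀ w, q *ᵥ w = w → Θ w = (φ2 ⬝ᵥ (e *ᵥ w)) • φ1 - (φ1 ⬝ᵥ (e *ᵥ w)) • φ2
  T3 : ∀ w, (Q - q) *ᵥ w = w → Θ w ᵥ* (P - p) = Θ w
  T4 : ∀ A A', Rel G P Q p q A A' → ∀ w, Θ (A' *ᵥ w) + Θ w ᵥ* A = 0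
  T5 : ∀ φ, φ ᵥ* (P - p) = φ → ∃ w, (Q - q) *ᵥ w = w ∧ Θ w = φ
  T6 : ∀ w, (Q - q) *ᵥ w = w → ∃ A A', Rel G P Q p q A A' ∧ A' *ᵥ (f *ᵥ v2) = w

/-- The action on the duality. -/
def TT (Θ : (B → ℂ) →ₗ[ℂ] (B → ℂ)) (z : Matrix B B ℂ) (w : B → ℂ) : B → ℂ :=
  Θ (z *ᵥ w) + Θ w ᵥ* z

theorem TT_add (Θ : (B → ℂ) →ₗ[ℂ] (B → ℂ)) (z z' : Matrix B B ℂ) (w : B → ℂ) :
    TT Θ (z + z') w = TT Θ z w + TT Θ z' w := by
  unfold TT
  rw [add_mulVec, map_add, vecMul_add]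
  abel

theorem TT_br (Θ : (B → ℂ) →ₗ[ℂ] (B → ℂ)) {x : Matrix B B ℂ} (hx : ∀ w, TT Θ x w = 0)
    (z : Matrix B B ℂ) (w : B → ℂ) :
    TT Θ (x * z - z * x) w = -TT Θ z (x *ᵥ w) - TT Θ z w ᵥ* x := by
  have h1 := hx (z *ᵥ w)
  have h2 : TT Θ x w ᵥ* z = 0 := by rw [hx, zero_vecMul]
  unfold TT at h1 h2 ⊢
  rw [mulVec_mulVec] at h1
  rw [add_vecMul, vecMul_vecMul] at h2
  have e1 : Θ ((x * z) *ᵥ w) = -(Θ (z *ᵥ w) ᵥ* x) := eq_neg_of_add_eq_zero_left h1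
  have e2 : Θ w ᵥ* (x * z) = -(Θ (x *ᵥ w) ᵥ* z) := eq_neg_of_add_eq_zero_right h2
  rw [sub_mulVec, map_sub, vecMul_sub, e1, e2, add_vecMul, vecMul_vecMul, mulVec_mulVec]
  abel

namespace Ctx

variable {G : Submodule ℂ (Matrix B B ℂ)} {P Q : Matrix B B ℂ} {a : ℕ}
  {e f p q : Matrix B B ℂ} (c : Ctx G P Q a e f p q)
  {v1 φ1 v2 φ2 : B → ℂ} (t : Two p v1 φ1 v2 φ2) {Θ : (B → ℂ) →ₗ[ℂ] (B → ℂ)}
  (hΘ : IsTheta G P Q e f p q φ1 φ2 v2 Θ)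
include c

theorem tq {z : Matrix B B ℂ} (hzQ : Q * z = z * Q)
    (hΘ : IsTheta G P Q e f p q φ1 φ2 v2 Θ) (w : B → ℂ) :
    TT Θ z w = TT Θ z (q *ᵥ w) + TT Θ z ((Q - q) *ᵥ w) := by
  unfold TT
  have e1 : Q *ᵥ w = q *ᵥ w + (Q - q) *ᵥ w := by
    rw [← add_mulVec, add_sub_cancel]
  rw [hΘ.T0 (z *ᵥ w), hΘ.T0 w, mulVec_mulVec, hzQ, ← mulVec_mulVec, e1, mulVec_add, map_add,
    map_add, add_vecMul]
  abel

theorem tt_rel (hΘ : IsTheta G P Q e f p q φ1 φ2 v2 Θ) {A A' : Matrix B B ℂ}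
    (h : Rel G P Q p q A A') (w : B → ℂ) : TT Θ (A + A') w = 0 := by
  have h1 : Θ (A *ᵥ w) = 0 := by
    rw [hΘ.T0, mulVec_mulVec, ← h.l, ← mul_assoc, c.Qp, zero_mul, zero_mulVec, map_zero]
  have h2 : Θ w ᵥ* A' = 0 := by
    have e1 : P * (Q - q) = 0 := by rw [mul_sub, c.H.PQ, c.Pq, sub_zero]
    rw [← hΘ.T1, vecMul_vecMul, ← h.l', ← mul_assoc, e1, zero_mul, vecMul_zero]
  unfold TT
  rw [add_mulVec, map_add, vecMul_add, h1, h2, zero_add, add_zero]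
  exact hΘ.T4 A A' h w

include t in
/-- The elements of degree zero. -/
theorem tt_zero (hΘ : IsTheta G P Q e f p q φ1 φ2 v2 Θ) {z : Matrix B B ℂ} (hz : z ∈ G)
    (hzP : P * z = z * P) (hzp : p * z = z * p) (hzq : q * z = z * q) :
    ∃ μ : ℂ, ∀ w, TT Θ z w = μ • Θ w := by
  have hzQ := c.H.comm_Q hz hzP
  have h1 : z * e - e * z ∈ pos G P Q := c.H.br_pos c.k.mem hz hzP hzQ
  obtain ⟨s, hs⟩ := c.k.one _ h1 (by
    have e1 : p * (z * e) * q = z * e := by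
      rw [mul_assoc, mul_assoc z, c.k.eq, ← mul_assoc, hzp, mul_assoc, c.k.pe]
    have e2 : p * (e * z) * q = e * z := by
      rw [← mul_assoc, c.k.pe, mul_assoc, ← hzq, ← mul_assoc, c.k.eq]
    rw [mul_sub, sub_mul, e1, e2])
  have hps := c.p_sum t
  -- the vectors below `q`
  have hv : ∀ w, q *ᵥ w = w →
      TT Θ z w = (φ1 ⬝ᵥ (z *ᵥ v1) + φ2 ⬝ᵥ (z *ᵥ v2) - s) • Θ w := by
    intro w hw
    have hzw : q *ᵥ (z *ᵥ w) = z *ᵥ w := by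
      rw [mulVec_mulVec, hzq, ← mulVec_mulVec, hw]
    have hu : e *ᵥ w = (φ1 ⬝ᵥ (e *ᵥ w)) • v1 + (φ2 ⬝ᵥ (e *ᵥ w)) • v2 := by
      nth_rewrite 1 [← c.k.pe]
      rw [← mulVec_mulVec, hps, add_mulVec, vm, vm]
    have hez : e *ᵥ (z *ᵥ w) = z *ᵥ (e *ᵥ w) - s • (e *ᵥ w) := by
      rw [mulVec_mulVec, mulVec_mulVec, ← smul_mulVec, ← sub_mulVec, ← hs, sub_sub_cancel]
    have hφ : ∀ φ : B → ℂ, φ ᵥ* p = φ → φ ᵥ* z = (φ ⬝ᵥ (z *ᵥ v1)) • φ1 + (φ ⬝ᵥ (z *ᵥ v2)) • φ2 := by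
      intro φ hφ
      have e1 : φ ᵥ* z = (φ ᵥ* z) ᵥ* p := by
        rw [vecMul_vecMul, ← hzp, ← vecMul_vecMul, hφ]
      rw [e1, hps, vecMul_add, mv, mv, ← dotProduct_mulVec, ← dotProduct_mulVec]
    have hzu : z *ᵥ (e *ᵥ w) = (φ1 ⬝ᵥ (e *ᵥ w)) • (z *ᵥ v1) + (φ2 ⬝ᵥ (e *ᵥ w)) • (z *ᵥ v2) := by
      nth_rewrite 1 [hu]
      rw [mulVec_add, mulVec_smul, mulVec_smul]
    unfold TT
    rw [hΘ.T2 w hw, hΘ.T2 _ hzw, hez, hzu, sub_vecMul, smul_vecMul, smul_vecMul, hφ φ1 t.r1,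
      hφ φ2 t.r2]
    simp only [dotProduct_sub, dotProduct_add, dotProduct_smul, smul_eq_mul]
    module
  refine ⟨φ1 ⬝ᵥ (z *ᵥ v1) + φ2 ⬝ᵥ (z *ᵥ v2) - s, fun w => ?_⟩
  rw [c.tq hzQ hΘ]
  have h2 := hv (q *ᵥ w) (by rw [mulVec_mulVec, c.k.qq])
  have h3 : ∀ w, (Q - q) *ᵥ w = w →
      TT Θ z w = (φ1 ⬝ᵥ (z *ᵥ v1) + φ2 ⬝ᵥ (z *ᵥ v2) - s) • Θ w := by
    intro w hw
    obtain ⟨A, A', hA, hAw⟩ := hΘ.T6 w hw
    have h4 := hv (f *ᵥ v2) (by rw [mulVec_mulVec, c.k.qf])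
    have h5 := hΘ.T4 _ _ (c.rel_br hA hz hzP hzp hzq) (f *ᵥ v2)
    have h6 := hΘ.T4 _ _ hA (z *ᵥ (f *ᵥ v2))
    have h7 := hΘ.T4 _ _ hA (f *ᵥ v2)
    have h8 : TT Θ z (f *ᵥ v2) ᵥ* A =
        ((φ1 ⬝ᵥ (z *ᵥ v1) + φ2 ⬝ᵥ (z *ᵥ v2) - s) • Θ (f *ᵥ v2)) ᵥ* A := by rw [h4]
    have e1 : z *ᵥ w = (z * A' - A' * z) *ᵥ (f *ᵥ v2) + A' *ᵥ (z *ᵥ (f *ᵥ v2)) := by
      rw [← hAw, sub_mulVec, mulVec_mulVec _ z A', mulVec_mulVec _ A' z, sub_add_cancel]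
    have e2 : Θ w = -(Θ (f *ᵥ v2) ᵥ* A) := by
      rw [← hAw]
      exact eq_neg_of_add_eq_zero_left h7
    unfold TT at h8 ⊢
    rw [add_vecMul, smul_vecMul] at h8
    rw [e2, smul_neg, ← h8, e1, map_add, eq_neg_of_add_eq_zero_left h5,
      eq_neg_of_add_eq_zero_left h6, neg_vecMul, vecMul_vecMul, vecMul_sub, vecMul_vecMul]
    abel
  rw [h2, h3 _ (by rw [mulVec_mulVec, c.QqQq]), ← smul_add]
  congr 1
  rw [← map_add, ← add_mulVec, add_sub_cancel, ← hΘ.T0]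

include t in
/-- The elements of degree minus one. -/
theorem tt_neg (hΘ : IsTheta G P Q e f p q φ1 φ2 v2 Θ) (h3 : trace (P - p) ≠ 1)
    {Z Y : Matrix B B ℂ} (hZ : (P - p) * Z = Z) (hZ' : Z * p = Z) (hY : q * Y = Y)
    (hY' : Y * (Q - q) = Y) (hm : Z + Y ∈ G) (w : B → ℂ) : TT Θ (Z + Y) w = 0 := by
  have hPp0 : p * (P - p) = 0 := by rw [mul_sub, c.k.pP, c.k.pp, sub_self]
  have hqQq : q * (Q - q) = 0 := by rw [mul_sub, c.k.qQ, c.k.qq, sub_self]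
  have hQqq : (Q - q) * q = 0 := by rw [sub_mul, c.k.Qu, c.k.qq, sub_self]
  have hpQq : p * (Q - q) = 0 := by rw [mul_sub, c.pQ, c.pq, sub_zero]
  have hQqp : (Q - q) * p = 0 := by rw [sub_mul, c.Qp, c.qp, sub_zero]
  have hPpq : (P - p) * q = 0 := by rw [sub_mul, c.Pq, c.pq, sub_zero]
  have hqPp : q * (P - p) = 0 := by rw [mul_sub, c.qP, c.qp, sub_zero]
  have hPPp : P * (P - p) = P - p := by rw [mul_sub, c.H.PP, c.k.Pp]
  have hPQq : P * (Q - q) = 0 := by rw [mul_sub, c.H.PQ, c.Pq, sub_zero]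
  have hQqP : (Q - q) * P = 0 := by rw [sub_mul, c.H.QP, c.qP, sub_zero]
  have hPpP : (P - p) * P = P - p := by rw [sub_mul, c.H.PP, c.k.pP]
  have hpZ : p * Z = 0 := by rw [← hZ, ← mul_assoc, hPp0, zero_mul]
  have hqZ : q * Z = 0 := by rw [← hZ, ← mul_assoc, hqPp, zero_mul]
  have hZq : Z * q = 0 := by rw [← hZ', mul_assoc, c.pq, mul_zero]
  have hpY : p * Y = 0 := by rw [← hY, ← mul_assoc, c.pq, zero_mul]
  have hYq : Y * q = 0 := by rw [← hY', mul_assoc, hQqq, mul_zero]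
  have hYp : Y * p = 0 := by rw [← hY', mul_assoc, hQqp, mul_zero]
  have hPZ : P * Z = Z := by rw [← hZ, ← mul_assoc, hPPp]
  have hZP : Z * P = Z := by rw [← hZ', mul_assoc, c.k.pP]
  have hPY : P * Y = 0 := by rw [← hY, ← mul_assoc, c.Pq, zero_mul]
  have hYP : Y * P = 0 := by rw [← hY', mul_assoc, hQqP, mul_zero]
  have hzP : P * (Z + Y) = (Z + Y) * P := by rw [mul_add, add_mul, hPZ, hZP, hPY, hYP]
  rw [c.tq (c.H.comm_Q hm hzP) hΘ]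
  -- below `q`
  have h1 : TT Θ (Z + Y) (q *ᵥ w) = 0 := by
    have h2 : ∀ φ : B → ℂ, φ ᵥ* p = φ → φ ᵥ* (Z + Y) = 0 := by
      intro φ hφ
      rw [← hφ, vecMul_vecMul, mul_add, hpZ, hpY, add_zero, vecMul_zero]
    unfold TT
    rw [mulVec_mulVec, add_mul, hZq, hYq, add_zero, zero_mulVec, map_zero,
      hΘ.T2 (q *ᵥ w) (by rw [mulVec_mulVec, c.k.qq]), sub_vecMul, smul_vecMul, smul_vecMul,
      h2 φ1 t.r1, h2 φ2 t.r2, smul_zero, smul_zero, sub_zero, add_zero]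
  rw [h1, zero_add]
  obtain ⟨u, hu⟩ : ∃ u, u = (Q - q) *ᵥ w := ⟨_, rfl⟩
  have hu' : (Q - q) *ᵥ u = u := by rw [hu, mulVec_mulVec, c.QqQq]
  rw [← hu]
  clear h1 hu
  -- the values are below `p`
  have h4 : ∀ u, (Q - q) *ᵥ u = u → TT Θ (Z + Y) u ᵥ* p = TT Θ (Z + Y) u := by
    intro u hu'
    have e1 : Z *ᵥ u = 0 := by
      rw [← hu', mulVec_mulVec, ← hZ', mul_assoc, hpQq, mul_zero, zero_mulVec]
    have e2 : Θ u ᵥ* Y = 0 := by
      rw [← hΘ.T1, vecMul_vecMul, hPY, vecMul_zero]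
    have e3 : (Θ u ᵥ* Z) ᵥ* p = Θ u ᵥ* Z := by rw [vecMul_vecMul, hZ']
    have e4 : Θ (Y *ᵥ u) ᵥ* p = Θ (Y *ᵥ u) := by
      rw [hΘ.T2 (Y *ᵥ u) (by rw [mulVec_mulVec, hY]), sub_vecMul, smul_vecMul, smul_vecMul, t.r1,
        t.r2]
    unfold TT
    rw [add_mulVec, vecMul_add, e1, e2, zero_add, add_zero, add_vecMul, e3, e4]
  -- commutators
  obtain ⟨v3, φ3, v4, φ4, t'⟩ := exists_two c.PpPp c.hPp h3
  have h5 : ∀ v : B → ℂ, p *ᵥ v = v → ∀ u, (Q - q) *ᵥ u = u → TT Θ (Z + Y) u ⬝ᵥ v = 0 := by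
    intro v hv
    obtain ⟨A', hA⟩ := c.exB (A := vecMulVec v φ3) (by rw [mul_vecMulVec, hv])
      (by rw [vecMulVec_mul, t'.r1])
    obtain ⟨A, hAd⟩ : ∃ A, A = vecMulVec v φ3 := ⟨_, rfl⟩
    rw [← hAd] at hA
    have hpA' : p * A' = 0 := by rw [← hA.l', ← mul_assoc, hpQq, zero_mul]
    have hA'p : A' * p = 0 := by rw [← hA.r', mul_assoc, c.qp, mul_zero]
    have hqA' : q * A' = 0 := by rw [← hA.l', ← mul_assoc, hqQq, zero_mul]
    have hqA : q * A = 0 := by rw [← hA.l, ← mul_assoc, c.qp, zero_mul]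
    have hAq : A * q = 0 := by rw [← hA.r, mul_assoc, hPpq, mul_zero]
    have hAp : A * p = 0 := by
      have e1 : (P - p) * p = 0 := by rw [sub_mul, c.k.Pp, c.k.pp, sub_self]
      rw [← hA.r, mul_assoc, e1, mul_zero]
    have hPA : P * A = A := by rw [← hA.l, ← mul_assoc, c.k.Pp]
    have hAP : A * P = A := by rw [← hA.r, mul_assoc, hPpP]
    have hPA' : P * A' = 0 := by rw [← hA.l', ← mul_assoc, hPQq, zero_mul]
    have hA'P : A' * P = 0 := by rw [← hA.r', mul_assoc, c.qP, mul_zero]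
    have hx : (p - q) * (A + A') - (A + A') * (p - q) = A + A' := by
      rw [sub_mul, mul_sub, mul_add, mul_add, add_mul, add_mul, hA.l, hpA', hqA, hqA', hAp, hA'p,
        hAq, hA.r']
      abel
    have hz : (p - q) * (Z + Y) - (Z + Y) * (p - q) = -(Z + Y) := by
      rw [sub_mul, mul_sub, mul_add, mul_add, add_mul, add_mul, hpZ, hpY, hqZ, hY, hZ', hYp,
        hZq, hYq]
      abel
    have hxP : P * (A + A') = (A + A') * P := by rw [mul_add, add_mul, hPA, hAP, hPA', hA'P]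
    have hy := c.H.br _ hA.m _ hm
    have hyP : P * ((A + A') * (Z + Y) - (Z + Y) * (A + A')) =
        ((A + A') * (Z + Y) - (Z + Y) * (A + A')) * P := by
      rw [mul_sub, sub_mul, ← mul_assoc, ← mul_assoc, hxP, hzP, mul_assoc, mul_assoc, hzP, hxP,
        mul_assoc, mul_assoc]
    have hyh : (p - q) * ((A + A') * (Z + Y) - (Z + Y) * (A + A')) =
        ((A + A') * (Z + Y) - (Z + Y) * (A + A')) * (p - q) := by
      have e1 : (p - q) * (A + A') = (A + A') * (p - q) + (A + A') := by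
        rw [← sub_eq_iff_eq_add', hx]
      have e2 : (p - q) * (Z + Y) = (Z + Y) * (p - q) - (Z + Y) := by
        have e3 := sub_eq_iff_eq_add'.1 hz
        rw [e3, ← sub_eq_add_neg]
      rw [mul_sub, ← mul_assoc, ← mul_assoc, e1, e2, add_mul, sub_mul, mul_assoc, mul_assoc, e1,
        e2]
      noncomm_ring
    have hpe : p = P * (p - q) := by rw [mul_sub, c.k.Pp, c.Pq, sub_zero]
    have hqe : q = p - (p - q) := by abel
    have hyp : p * ((A + A') * (Z + Y) - (Z + Y) * (A + A')) =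
        ((A + A') * (Z + Y) - (Z + Y) * (A + A')) * p := by
      generalize (A + A') * (Z + Y) - (Z + Y) * (A + A') = y at hyP hyh
      have e1 : (p - q) * P = p := by rw [sub_mul, c.k.pP, c.qP, sub_zero]
      rw [hpe, mul_assoc, hyh, ← mul_assoc, hyP, mul_assoc]
    have hyq : q * ((A + A') * (Z + Y) - (Z + Y) * (A + A')) =
        ((A + A') * (Z + Y) - (Z + Y) * (A + A')) * q := by
      generalize (A + A') * (Z + Y) - (Z + Y) * (A + A') = y at hyp hyh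
      rw [hqe, sub_mul, mul_sub, hyp, hyh]
    obtain ⟨μ, hμ⟩ := c.tt_zero t hΘ hy hyP hyp hyq
    have h6 : ∀ u, (Q - q) *ᵥ u = u → (TT Θ (Z + Y) u ⬝ᵥ v) • φ3 = -(μ • Θ u) := by
      intro u hu
      have h7 := TT_br Θ (c.tt_rel hΘ hA) (Z + Y) u
      rw [hμ] at h7
      have e1 : (A + A') *ᵥ u = 0 := by
        rw [← hu, mulVec_mulVec, ← hA.r', ← hA.r, add_mul, mul_assoc, mul_assoc, hqQq]
        have e2 : (P - p) * (Q - q) = 0 := by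
          rw [sub_mul, hPQq, hpQq, sub_zero]
        rw [e2, mul_zero, mul_zero, add_zero, zero_mulVec]
      have e3 : TT Θ (Z + Y) 0 = 0 := by
        unfold TT
        rw [mulVec_zero, map_zero, zero_vecMul, add_zero]
      have e4 : TT Θ (Z + Y) u ᵥ* (A + A') = (TT Θ (Z + Y) u ⬝ᵥ v) • φ3 := by
        have e5 : TT Θ (Z + Y) u ᵥ* A' = 0 := by
          rw [← h4 u hu, vecMul_vecMul, hpA', vecMul_zero]
        rw [vecMul_add, e5, add_zero, hAd, mv]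
      rw [e1, e3, neg_zero, zero_sub, e4] at h7
      rw [h7, neg_neg]
    obtain ⟨w4, hw4, hΘ4⟩ := hΘ.T5 φ4 t'.r2
    have h7 := congrArg (fun z => z ⬝ᵥ v4) (h6 w4 hw4)
    beta_reduce at h7
    rw [hΘ4, smul_dotProduct, neg_dotProduct, smul_dotProduct, t'.a12, t'.a22, smul_zero,
      smul_eq_mul, mul_one] at h7
    have hμ0 : μ = 0 := neg_eq_zero.1 h7.symm
    intro u hu
    have h8 := congrArg (fun z => z ⬝ᵥ v3) (h6 u hu)
    beta_reduce at h8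
    rw [hμ0, zero_smul, neg_zero, smul_dotProduct, t'.a11, zero_dotProduct, smul_eq_mul,
      mul_one] at h8
    exact h8
  rw [← h4 u hu', c.p_sum t, vecMul_add, mv, mv, h5 v1 t.p1 u hu', h5 v2 t.p2 u hu', zero_smul,
    zero_smul, add_zero]

include t in
/-- **The elements commuting with the projectors.** -/
theorem tt_comm (hΘ : IsTheta G P Q e f p q φ1 φ2 v2 Θ) (h3 : trace (P - p) ≠ 1)
    {z : Matrix B B ℂ} (hz : z ∈ G) (hzP : P * z = z * P) :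
    ∃ μ : ℂ, ∀ w, TT Θ z w = μ • Θ w := by
  have hzQ := c.H.comm_Q hz hzP
  have h1 := c.deg1 hz hzP
  have h2 := c.degm hz hzP
  have h0 := c.deg0 hz hzP
  obtain ⟨y, hy⟩ : ∃ y, y = p * z * p + (P - p) * z * (P - p) +
    (q * z * q + (Q - q) * z * (Q - q)) := ⟨_, rfl⟩
  rw [← hy] at h0
  have hPpp : (P - p) * p = 0 := by rw [sub_mul, c.k.Pp, c.k.pp, sub_self]
  have hPp0 : p * (P - p) = 0 := by rw [mul_sub, c.k.pP, c.k.pp, sub_self]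
  have hqQq : q * (Q - q) = 0 := by rw [mul_sub, c.k.qQ, c.k.qq, sub_self]
  have hQqq : (Q - q) * q = 0 := by rw [sub_mul, c.k.Qu, c.k.qq, sub_self]
  have hpQq : p * (Q - q) = 0 := by rw [mul_sub, c.pQ, c.pq, sub_zero]
  have hQqp : (Q - q) * p = 0 := by rw [sub_mul, c.Qp, c.qp, sub_zero]
  have hPpq : (P - p) * q = 0 := by rw [sub_mul, c.Pq, c.pq, sub_zero]
  have hqPp : q * (P - p) = 0 := by rw [mul_sub, c.qP, c.qp, sub_zero]
  have hPPp : P * (P - p) = P - p := by rw [mul_sub, c.H.PP, c.k.Pp]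
  have hPQq : P * (Q - q) = 0 := by rw [mul_sub, c.H.PQ, c.Pq, sub_zero]
  have hQqP : (Q - q) * P = 0 := by rw [sub_mul, c.H.QP, c.qP, sub_zero]
  have hPpP : (P - p) * P = P - p := by rw [sub_mul, c.H.PP, c.k.pP]
  have hyP : P * y = y * P := by
    rw [hy]
    simp only [mul_add, add_mul, ← mul_assoc, c.k.Pp, hPPp, c.Pq, hPQq, zero_mul, add_zero]
    simp only [mul_assoc, c.k.pP, hPpP, c.qP, hQqP, mul_zero, add_zero]
  have hyp : p * y = y * p := by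
    rw [hy]
    simp only [mul_add, add_mul, ← mul_assoc, c.k.pp, hPp0, c.pq, hpQq, zero_mul, add_zero]
    simp only [mul_assoc, c.k.pp, hPpp, c.qp, hQqp, mul_zero, add_zero]
  have hyq : q * y = y * q := by
    rw [hy]
    simp only [mul_add, add_mul, ← mul_assoc, c.qp, hqPp, c.k.qq, hqQq, zero_mul, add_zero,
      zero_add]
    simp only [mul_assoc, c.pq, hPpq, c.k.qq, hQqq, mul_zero, add_zero, zero_add]
  obtain ⟨μ, hμ⟩ := c.tt_zero t hΘ h0 hyP hyp hyq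
  refine ⟨μ, fun w => ?_⟩
  have h4 : Rel G P Q p q (p * z * (P - p)) ((Q - q) * z * q) :=
    ⟨by rw [← mul_assoc, ← mul_assoc, c.k.pp], by rw [mul_assoc _ (P - p), c.PpPp],
      by rw [← mul_assoc, ← mul_assoc, c.QqQq], by rw [mul_assoc _ q, c.k.qq], h1⟩
  have h5 := c.tt_neg t hΘ h3 (Z := (P - p) * z * p) (Y := q * z * (Q - q))
    (by rw [← mul_assoc, ← mul_assoc, c.PpPp]) (by rw [mul_assoc _ p, c.k.pp])
    (by rw [← mul_assoc, ← mul_assoc, c.k.qq]) (by rw [mul_assoc _ (Q - q), c.QqQq]) h2 w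
  have e1 : z = y + (p * z * (P - p) + (Q - q) * z * q) + ((P - p) * z * p + q * z * (Q - q)) := by
    have h2 : z = P * z * P + Q * z * Q := by
      rw [hzP, mul_assoc, c.H.PP, hzQ, mul_assoc, c.H.QQ, ← hzP, ← hzQ, ← add_mul, c.H.lel z hz]
    rw [hy]
    nth_rewrite 1 [h2]
    noncomm_ring
  rw [e1, TT_add, TT_add, hμ, c.tt_rel hΘ h4, h5, add_zero, add_zero]

include t in
/-- The elements of degree one. -/
theorem d_pos (hΘ : IsTheta G P Q e f p q φ1 φ2 v2 Θ) (h3 : trace (P - p) ≠ 1)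
    (hI : IrrXY G P Q) (ha : 0 < a) {x : Matrix B B ℂ} (hx : x ∈ pos G P Q) (w w' : B → ℂ) :
    Θ w' ⬝ᵥ (x *ᵥ w) + Θ w ⬝ᵥ (x *ᵥ w') = 0 := by
  let S : Submodule ℂ (Matrix B B ℂ) :=
    { carrier := {x | x ∈ pos G P Q ∧ ∀ w w', Θ w' ⬝ᵥ (x *ᵥ w) + Θ w ⬝ᵥ (x *ᵥ w') = 0}
      zero_mem' := ⟨Submodule.zero_mem _, fun w w' => by
        rw [zero_mulVec, zero_mulVec, dotProduct_zero, dotProduct_zero, add_zero]⟩
      add_mem' := fun {x y} hx hy => ⟨Submodule.add_mem _ hx.1 hy.1, fun w w' => by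
        rw [add_mulVec, add_mulVec, dotProduct_add, dotProduct_add, add_add_add_comm, hx.2, hy.2,
          add_zero]⟩
      smul_mem' := fun r x hx => ⟨Submodule.smul_mem _ _ hx.1, fun w w' => by
        rw [smul_mulVec, smul_mulVec, dotProduct_smul, dotProduct_smul, ← smul_add, hx.2,
          smul_zero]⟩ }
  have he : e ∈ S := by
    refine ⟨c.k.mem, ?_⟩
    have h4 : ∀ w w', Θ w' ⬝ᵥ (e *ᵥ w) =
        (φ2 ⬝ᵥ (e *ᵥ w')) * (φ1 ⬝ᵥ (e *ᵥ w)) - (φ1 ⬝ᵥ (e *ᵥ w')) * (φ2 ⬝ᵥ (e *ᵥ w)) := by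
      intro w w'
      have e1 : e *ᵥ w = p *ᵥ (e *ᵥ w) := by rw [mulVec_mulVec, c.k.pe]
      have e2 : Θ w' = Θ (q *ᵥ w') + Θ ((Q - q) *ᵥ w') := by
        rw [← map_add, ← add_mulVec, add_sub_cancel, ← hΘ.T0]
      have e3 : Θ ((Q - q) *ᵥ w') ⬝ᵥ (e *ᵥ w) = 0 := by
        have e4 : (P - p) * p = 0 := by rw [sub_mul, c.k.Pp, c.k.pp, sub_self]
        rw [e1, ← hΘ.T3 ((Q - q) *ᵥ w') (by rw [mulVec_mulVec, c.QqQq]), ← dotProduct_mulVec,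
          mulVec_mulVec, e4, zero_mulVec, dotProduct_zero]
      rw [e2, add_dotProduct, e3, add_zero, hΘ.T2 (q *ᵥ w') (by rw [mulVec_mulVec, c.k.qq]),
        mulVec_mulVec w' e q, c.k.eq, sub_dotProduct, smul_dotProduct, smul_dotProduct,
        smul_eq_mul, smul_eq_mul]
    intro w w'
    rw [h4, h4]
    ring
  have hne : S ≠ ⊥ := by
    intro h0
    rw [h0, Submodule.mem_bot] at he
    exact c.k.ne he
  refine (stab_top c.H hI ha ha (S := S) (fun x hx => hx.1) hne ?_ hx).2 w w'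
  intro s hs x hx y hy
  refine ⟨c.H.tri hx hy hs.1, fun w w' => ?_⟩
  have hz : x * y - y * x ∈ G := c.H.br _ hx.1 _ hy.1
  have hyx : P * (y * x) = 0 := by rw [← hy.2.1, ← mul_assoc, ← mul_assoc, c.H.PQ, zero_mul, zero_mul]
  have hyx' : y * x * P = 0 := by rw [← hx.2.2, mul_assoc, mul_assoc, c.H.QP, mul_zero, mul_zero]
  have hzP : P * (x * y - y * x) = (x * y - y * x) * P := by
    rw [mul_sub, sub_mul, hyx, hyx', ← mul_assoc, hx.2.1, mul_assoc x y P, hy.2.2]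
  obtain ⟨μ, hμ⟩ := c.tt_comm t hΘ h3 hz hzP
  obtain ⟨z, hzd⟩ : ∃ z, z = x * y - y * x := ⟨_, rfl⟩
  rw [← hzd] at hμ
  have e1 : x * y * s + s * y * x = z * s - s * z := by
    have e2 : x * s = 0 := pos_mul_pos c.H hx hs.1
    have e3 : s * x = 0 := pos_mul_pos c.H hs.1 hx
    have e4 : z * s - s * z = x * y * s - y * (x * s) - (s * x) * y + s * y * x := by
      rw [hzd]
      noncomm_ring
    rw [e4, e2, e3, mul_zero, zero_mul, sub_zero, sub_zero]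
  have e5 : ∀ w w', Θ w' ⬝ᵥ (z *ᵥ (s *ᵥ w)) =
      μ * (Θ w' ⬝ᵥ (s *ᵥ w)) - Θ (z *ᵥ w') ⬝ᵥ (s *ᵥ w) := by
    intro w w'
    have e6 := congrArg (fun v => v ⬝ᵥ (s *ᵥ w)) (hμ w')
    beta_reduce at e6
    unfold TT at e6
    rw [add_dotProduct, smul_dotProduct, smul_eq_mul, ← dotProduct_mulVec] at e6
    rw [← e6]
    ring
  rw [e1, sub_mulVec, sub_mulVec, dotProduct_sub, dotProduct_sub, ← mulVec_mulVec,
    ← mulVec_mulVec, ← mulVec_mulVec, ← mulVec_mulVec, e5, e5]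
  have h6 := hs.2 w w'
  have h7 := hs.2 (z *ᵥ w) w'
  have h8 := hs.2 w (z *ᵥ w')
  linear_combination μ * h6 - h7 - h8

include t in
/-- The elements of degree minus one. -/
theorem d_neg (hΘ : IsTheta G P Q e f p q φ1 φ2 v2 Θ) (h3 : trace (P - p) ≠ 1)
    (hI : IrrXY G P Q) (ha : 0 < a) {y : Matrix B B ℂ} (hy : y ∈ pos G Q P) (u u' : B → ℂ) :
    Θ (y *ᵥ u) ⬝ᵥ u' + Θ (y *ᵥ u') ⬝ᵥ u = 0 := by
  let S : Submodule ℂ (Matrix B B ℂ) :=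
    { carrier := {y | y ∈ pos G Q P ∧ ∀ u u', Θ (y *ᵥ u) ⬝ᵥ u' + Θ (y *ᵥ u') ⬝ᵥ u = 0}
      zero_mem' := ⟨Submodule.zero_mem _, fun w w' => by
        rw [zero_mulVec, zero_mulVec, map_zero, zero_dotProduct, zero_dotProduct, add_zero]⟩
      add_mem' := fun {x y} hx hy => ⟨Submodule.add_mem _ hx.1 hy.1, fun w w' => by
        rw [add_mulVec, add_mulVec, map_add, map_add, add_dotProduct, add_dotProduct,
          add_add_add_comm, hx.2, hy.2, add_zero]⟩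
      smul_mem' := fun r x hx => ⟨Submodule.smul_mem _ _ hx.1, fun w w' => by
        rw [smul_mulVec, smul_mulVec, map_smul, map_smul, smul_dotProduct, smul_dotProduct,
          ← smul_add, hx.2, smul_zero]⟩ }
  have hf : f ∈ S := by
    refine ⟨c.k.fmem, ?_⟩
    have h4 : ∀ u u', Θ (f *ᵥ u) ⬝ᵥ u' =
        (φ2 ⬝ᵥ u) * (φ1 ⬝ᵥ u') - (φ1 ⬝ᵥ u) * (φ2 ⬝ᵥ u') := by
      intro w w'
      rw [hΘ.T2 (f *ᵥ w) (by rw [mulVec_mulVec, c.k.qf]), mulVec_mulVec w e f, c.k.ef,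
        dotProduct_mulVec, dotProduct_mulVec, t.r1, t.r2, sub_dotProduct, smul_dotProduct,
        smul_dotProduct, smul_eq_mul, smul_eq_mul]
    intro w w'
    rw [h4, h4]
    ring
  have hne : S ≠ ⊥ := by
    intro h0
    rw [h0, Submodule.mem_bot] at hf
    apply c.k.ne
    rw [← c.k.pe, ← c.k.ef, hf, mul_zero, zero_mul]
  refine (stab_top c.H.symm hI.symm ha ha (S := S) (fun x hx => hx.1) hne ?_ hy).2 u u'
  intro s hs y hy x hx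
  refine ⟨c.H.symm.tri hy hx hs.1, fun w w' => ?_⟩
  have hz : x * y - y * x ∈ G := c.H.br _ hx.1 _ hy.1
  have hyx : P * (y * x) = 0 := by rw [← hy.2.1, ← mul_assoc, ← mul_assoc, c.H.PQ, zero_mul, zero_mul]
  have hyx' : y * x * P = 0 := by rw [← hx.2.2, mul_assoc, mul_assoc, c.H.QP, mul_zero, mul_zero]
  have hzP : P * (x * y - y * x) = (x * y - y * x) * P := by
    rw [mul_sub, sub_mul, hyx, hyx', ← mul_assoc, hx.2.1, mul_assoc x y P, hy.2.2]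
  obtain ⟨μ, hμ⟩ := c.tt_comm t hΘ h3 hz hzP
  obtain ⟨z, hzd⟩ : ∃ z, z = x * y - y * x := ⟨_, rfl⟩
  rw [← hzd] at hμ
  have e1 : y * x * s + s * x * y = s * z - z * s := by
    have e2 : y * s = 0 := pos_mul_pos c.H.symm hy hs.1
    have e3 : s * y = 0 := pos_mul_pos c.H.symm hs.1 hy
    have e4 : s * z - z * s = s * x * y - (s * y) * x - x * (y * s) + y * x * s := by
      rw [hzd]
      noncomm_ring
    rw [e4, e2, e3, zero_mul, mul_zero, sub_zero, sub_zero, add_comm]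
  have e5 : ∀ u u', Θ (z *ᵥ (s *ᵥ u)) ⬝ᵥ u' =
      μ * (Θ (s *ᵥ u) ⬝ᵥ u') - Θ (s *ᵥ u) ⬝ᵥ (z *ᵥ u') := by
    intro w w'
    have e6 := congrArg (fun v => v ⬝ᵥ w') (hμ (s *ᵥ w))
    beta_reduce at e6
    unfold TT at e6
    rw [add_dotProduct, smul_dotProduct, smul_eq_mul, ← dotProduct_mulVec] at e6
    rw [← e6]
    ring
  rw [e1, sub_mulVec, sub_mulVec, map_sub, map_sub, sub_dotProduct, sub_dotProduct,
    ← mulVec_mulVec, ← mulVec_mulVec, ← mulVec_mulVec, ← mulVec_mulVec, e5, e5]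
  have h6 := hs.2 w w'
  have h7 := hs.2 (z *ᵥ w) w'
  have h8 := hs.2 w (z *ᵥ w')
  linear_combination -μ * h6 + h7 + h8

include t in
/-- **The invariant symmetric form.** -/
theorem exists_form (hΘ : IsTheta G P Q e f p q φ1 φ2 v2 Θ) (h3 : trace (P - p) ≠ 1)
    (hI : IrrXY G P Q) (ha : 0 < a) :
    ∃ N : Matrix B B ℂ, (∀ v v' : B → ℂ, v ⬝ᵥ (N *ᵥ v') = v' ⬝ᵥ (N *ᵥ v)) ∧ N ≠ 0 ∧
      ∀ X ∈ G, ∃ μ : ℂ, ∀ v v' : B → ℂ,
        (X *ᵥ v) ⬝ᵥ (N *ᵥ v') + v ⬝ᵥ (N *ᵥ (X *ᵥ v')) = μ * (v ⬝ᵥ (N *ᵥ v')) := by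
  let M : Matrix B B ℂ := LinearMap.toMatrix' Θ
  have hM : ∀ w, M *ᵥ w = Θ w := fun w => by
    rw [← toLin'_apply, toLin'_toMatrix']
  have hN : ∀ v v' : B → ℂ, v ⬝ᵥ ((M + Mᵀ) *ᵥ v') = Θ v' ⬝ᵥ v + Θ v ⬝ᵥ v' := by
    intro v v'
    rw [add_mulVec, dotProduct_add, mulVec_transpose, hM, dotProduct_comm v (Θ v'),
      dotProduct_comm v (v' ᵥ* M), ← dotProduct_mulVec, hM, dotProduct_comm v' (Θ v)]
  refine ⟨M + Mᵀ, fun v v' => ?_, fun h0 => ?_, fun X hX => ?_⟩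
  · rw [hN, hN, add_comm]
  · have h4 := hN v1 (f *ᵥ v2)
    have e1 : Θ v1 = 0 := by
      rw [hΘ.T0, ← t.p1, mulVec_mulVec, c.Qp, zero_mulVec, map_zero]
    have e2 : Θ (f *ᵥ v2) = φ1 := by
      rw [hΘ.T2 (f *ᵥ v2) (by rw [mulVec_mulVec, c.k.qf]), mulVec_mulVec v2 e f, c.k.ef, t.p2,
        t.a22, t.a12, one_smul, zero_smul, sub_zero]
    rw [h0, zero_mulVec, dotProduct_zero, e1, e2, t.a11, zero_dotProduct, add_zero] at h4
    exact zero_ne_one h4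
  · obtain ⟨x, hx⟩ : ∃ x, x = P * X * Q := ⟨_, rfl⟩
    obtain ⟨y, hy⟩ : ∃ y, y = Q * X * P := ⟨_, rfl⟩
    obtain ⟨z, hz⟩ : ∃ z, z = P * X * P + Q * X * Q := ⟨_, rfl⟩
    have hX1 : X = x + y + z := by rw [hx, hy, hz]; exact c.H.split hX
    have hxm : x ∈ pos G P Q := by
      refine ⟨by rw [hx]; exact c.H.grP hX, ?_, ?_⟩
      · rw [hx, ← mul_assoc, ← mul_assoc, c.H.PP]
      · rw [hx, mul_assoc _ Q, c.H.QQ]
    have hym : y ∈ pos G Q P := by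
      refine ⟨by rw [hy]; exact c.H.grQ hX, ?_, ?_⟩
      · rw [hy, ← mul_assoc, ← mul_assoc, c.H.QQ]
      · rw [hy, mul_assoc _ P, c.H.PP]
    have hzm : z ∈ G := by rw [hz]; exact c.H.gr0 hX
    have hzP : P * z = z * P := by rw [hz]; exact c.H.gr0_comm X
    obtain ⟨μ, hμ⟩ := c.tt_comm t hΘ h3 hzm hzP
    refine ⟨μ, fun v v' => ?_⟩
    rw [hN, hN, hN]
    have e1 : ∀ v, Θ (X *ᵥ v) = Θ (y *ᵥ v) + Θ (z *ᵥ v) := by
      intro v
      have e2 : Q * x = 0 := by rw [← hxm.2.1, ← mul_assoc, c.H.QP, zero_mul]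
      rw [hX1, add_mulVec, add_mulVec, map_add, map_add, hΘ.T0 (x *ᵥ v), mulVec_mulVec, e2,
        zero_mulVec, map_zero, zero_add]
    have e3 : ∀ v v', Θ v ⬝ᵥ (X *ᵥ v') = Θ v ⬝ᵥ (x *ᵥ v') + Θ v ⬝ᵥ (z *ᵥ v') := by
      intro v v'
      have e2 : P * y = 0 := by rw [← hym.2.1, ← mul_assoc, c.H.PQ, zero_mul]
      have e4 : Θ v ⬝ᵥ (y *ᵥ v') = 0 := by
        rw [← hΘ.T1, ← dotProduct_mulVec, mulVec_mulVec, e2, zero_mulVec, dotProduct_zero]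
      rw [hX1, add_mulVec, add_mulVec, dotProduct_add, dotProduct_add, e4, add_zero]
    have e5 : ∀ v v', Θ (z *ᵥ v) ⬝ᵥ v' + Θ v ⬝ᵥ (z *ᵥ v') = μ * (Θ v ⬝ᵥ v') := by
      intro v v'
      have e6 := congrArg (fun w => w ⬝ᵥ v') (hμ v)
      beta_reduce at e6
      unfold TT at e6
      rw [add_dotProduct, smul_dotProduct, smul_eq_mul, ← dotProduct_mulVec] at e6
      exact e6
    have h4 := c.d_pos t hΘ h3 hI ha hxm v v'
    have h5 := c.d_neg t hΘ h3 hI ha hym v v'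
    have h6 := e5 v v'
    have h7 := e5 v' v
    rw [e1, e1, e3, e3, add_dotProduct, add_dotProduct]
    linear_combination h4 + h5 + h6 + h7

end Ctx

end

end Pool.Agent.K9h17.B
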