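import Mathlib
import Pool.Agent.K9h17.L.Pair
import Pool.Agent.K9h17.B.Form
import Pool.Agent.K9h17.B.One
import Pool.Agent.K9h17.B.Full

/-!
# Elements of rank one for involutions with equal odd multiplicities
-/

set_option linter.unusedSectionVars false

namespace Pool.Agent.K9h17.B

open Module Matrix
open Pool.Agent.Y4.G (trace_idemM)
open Pool.Agent.Y4.G.Lie (pos mem_pos)
open Pool.Agent.W548.Odd (rk)
open Pool.Agent.N183.JP
open Pool.Agent.K9h17.L

noncomputable section

section mat

variable {B : Type} [Fintype B] [DecidableEq B]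

variable {G : Submodule ℂ (Matrix B B ℂ)} {P Q : Matrix B B ℂ} {a b : ℕ}

/-- The partner of a minimal element is minimal. -/
theorem isMin_symm (H : LieP G P Q a b) {e f : Matrix B B ℂ} (he : IsMin G P Q e)
    (hf : f ∈ pos G Q P) (hefe : e * f * e = e) (hfef : f * e * f = f) : IsMin G Q P f := by
  have h1 : f ≠ 0 := by
    rintro rfl
    rw [mul_zero, zero_mul] at hefe
    exact he.1.2 hefe.symm
  refine ⟨⟨hf, h1⟩, fun y hy => ?_⟩
  obtain ⟨x, hx, h2, h3⟩ := exists_partner H.symm hy.1
  have hx0 : x ≠ 0 := by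
    rintro rfl
    rw [mul_zero, zero_mul] at h2
    exact hy.2 h2.symm
  calc f.rank = (f * e * f).rank := by rw [hfef]
  _ ≤ (f * e).rank := rank_mul_le_left _ _
  _ ≤ e.rank := rank_mul_le_right _ _
  _ ≤ x.rank := he.2 x ⟨hx, hx0⟩
  _ = (x * y * x).rank := by rw [h3]
  _ ≤ (x * y).rank := rank_mul_le_left _ _
  _ ≤ y.rank := rank_mul_le_right _ _

theorem nr1_symm (H : LieP G P Q a b) (h : NR1 G P Q) : NR1 G Q P := by
  intro y hy u hu
  obtain ⟨x, hx, h2, h3⟩ := exists_partner H.symm hy
  have h4 : x = 0 := by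
    refine h x hx (x *ᵥ u) fun v => ?_
    obtain ⟨c, hc⟩ := hu (x *ᵥ v)
    refine ⟨c, ?_⟩
    rw [← mulVec_smul, ← hc, mulVec_mulVec, mulVec_mulVec, h3]
  rw [← h2, h4, mul_zero, zero_mul]

/-- **The invariant form** if there are no elements of rank one. -/
theorem exists_form_of (H : LieP G P Q a a) (hR : P + Q ∈ G) (hI : IrrXY G P Q) (hodd : Odd a)
    (hNR : NR1 G P Q) (hnb : ∀ t : ℕ, 2 ≤ t → a ≠ (2 * t - 1).choose t) :
    ∃ N : Matrix B B ℂ, (∀ v v' : B → ℂ, v ⬝ᵥ (N *ᵥ v') = v' ⬝ᵥ (N *ᵥ v)) ∧ N ≠ 0 ∧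
      ∀ X ∈ G, ∃ μ : ℂ, ∀ v v' : B → ℂ,
        (X *ᵥ v) ⬝ᵥ (N *ᵥ v') + v ⬝ᵥ (N *ᵥ (X *ᵥ v')) = μ * (v ⬝ᵥ (N *ᵥ v')) := by
  have ha : 0 < a := hodd.pos
  obtain ⟨e, he⟩ := exists_min H ha ha
  obtain ⟨f, hf, hefe, hfef⟩ := exists_partner H he.1.1
  have k := trp_of_pair H he hf hefe hfef
  obtain ⟨m, hm⟩ : ∃ m : ℕ, trace (e * f) = m := ⟨_, trace_idemM k.pp⟩
  have hm0 : 1 ≤ m := by
    rcases Nat.eq_zero_or_pos m with h3 | h3
    · exfalso
      apply trp_ne k
      rw [hm, h3, Nat.cast_zero]
    · exact h3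
  have hm2 := k.two_le hNR hm hm0
  by_cases h0 : ∀ x ∈ pos G P Q, (P - e * f) * x * (Q - f * e) = 0
  · exfalso
    obtain ⟨d, s, t, hst, h1, h2⟩ := binom H k h0 hI
    have hst' : s = t := by
      have h3 : d.choose t = d.choose s := by rw [← h1, ← h2]
      have h4 := Nat.choose_symm_of_eq_add (n := d) (a := t) (b := d - t)
      rcases Nat.eq_zero_or_pos t with h5 | h5
      · subst h5
        rw [Nat.choose_eq_zero_of_lt (show d < s by omega)] at h3
        rw [Nat.choose_zero_right] at h3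
        omega
      · have h6 : t ≤ d := by
          by_contra h7
          rw [Nat.choose_eq_zero_of_lt (by omega)] at h1
          omega
        have h8 : d.choose s = d.choose (t - 1) := by
          have h9 : d = s + (t - 1) := by omega
          exact Nat.choose_symm_of_eq_add h9
        obtain ⟨r, rfl⟩ : ∃ r, t = r + 1 := ⟨t - 1, by omega⟩
        rw [Nat.add_sub_cancel] at h8
        have h10 := Nat.choose_succ_right_eq d r
        rw [h3, h8] at h10
        have h11 : 0 < d.choose r := by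
          rw [← h8, ← h2]
          exact ha
        have h12 := Nat.eq_of_mul_eq_mul_left h11 h10
        omega
    subst hst'
    have hd : d = 2 * s - 1 := by omega
    subst hd
    refine hnb s ?_ h1
    by_contra hs
    obtain rfl : s = 1 := by omega
    have h3 := H.trP
    have h5 : a = 1 := by rw [h1]; rfl
    subst h5
    -- rank one
    have h6 := trace_idemM (k.idP H.PP)
    rw [trace_sub, H.trP, hm] at h6
    have h7 : ((1 : ℕ) : ℂ) = ((finrank ℂ (LinearMap.range
        (mulVecLin (P - e * f))) + m : ℕ) : ℂ) := by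
      push_cast
      push_cast at h6
      rw [← h6]
      ring
    have h8 := Nat.cast_injective h7
    omega
  · push Not at h0
    obtain ⟨x, hx, hx0⟩ := h0
    have ht : trace (e * f) ≠ 1 := by
      rw [hm]
      intro h3
      have h4 : m = 1 := by exact_mod_cast h3
      omega
    have hf' := isMin_symm H he hf hefe hfef
    have k' := trp_symm H k
    have hR' : Q + P ∈ G := by rwa [add_comm]
    have ht' : trace (f * e) ≠ 1 := by rw [trace_mul_comm]; exact ht
    have hy : ∃ y ∈ pos G Q P, (Q - f * e) * y * (P - e * f) ≠ 0 := by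
      by_contra hcon
      push Not at hcon
      exact hx0 (no_two_symm H.symm k' hcon x hx)
    obtain ⟨y, hy, hy0⟩ := hy
    have fP : ∀ w, P * w = w → w * P = w → w ∈ LieI.cor G P := fun w h1 h2 =>
      full_P H hR hI hodd he hf hefe hfef ht hx hx0 h1 h2
    have fQ : ∀ w, Q * w = w → w * Q = w → w ∈ LieI.cor G Q := fun w h1 h2 =>
      full_P H.symm hR' hI.symm hodd hf' he.1.1 hfef hefe ht' hy hy0 h1 h2
    have hP0 : P ≠ 0 := by
      intro h3
      have h4 := H.trP
      rw [h3, trace_zero] at h4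
      have h5 : a = 0 := by exact_mod_cast h4.symm
      omega
    have hQ0 : Q ≠ 0 := by
      intro h3
      have h4 := H.trQ
      rw [h3, trace_zero] at h4
      have h5 : a = 0 := by exact_mod_cast h4.symm
      omega
    have hPp : P - e * f ≠ 0 := by
      intro h3
      apply hx0
      rw [h3, zero_mul, zero_mul]
    have c : Ctx G P Q a e f (e * f) (f * e) :=
      { H := H
        k := k
        kP := fun n hn h1 h2 => ker_scalar H.symm hI.symm hQ0 (nr1_symm H hNR) fP hn h1 h2
        kQ := fun n hn h1 h2 => ker_scalar H hI hP0 hNR fQ hn h1 h2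
        fP := fP
        fQ := fQ
        ht := ht
        hPp := hPp }
    have h3 : trace (P - e * f) ≠ 1 := by
      intro h4
      obtain ⟨v, φ, h5, -, -, -⟩ := exists_vec (k.idP H.PP) h4
      apply hx0
      refine hNR _ (k.mem0 hx) v fun u => ?_
      refine ⟨φ ⬝ᵥ ((x * (Q - f * e)) *ᵥ u), ?_⟩
      rw [← vm, ← h5, mulVec_mulVec, ← mul_assoc]
    obtain ⟨v1, φ1, v2, φ2, t⟩ := exists_two k.pp c.p0 ht
    obtain ⟨Θ, T0, T1, T2, T3, T4, T5, T6⟩ := c.exTheta t
    exact c.exists_form t (Θ := Θ) ⟨T0, T1, T2, T3, T4, T5, T6⟩ h3 hI ha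

end mat

variable {V : Type} [AddCommGroup V] [Module ℂ V] [FiniteDimensional ℂ V]
  {𝔤 : Submodule ℂ (End ℂ V)}

/-- A symmetric form with multipliers is invariant. -/
theorem form_zero
    (hirr : ∀ W : Submodule ℂ V, (∀ X ∈ 𝔤, X * X = (1 / 4 : ℂ) • 1 → ∀ u ∈ W, X u ∈ W) →
      W = ⊥ ∨ W = ⊤)
    (T : Set (End ℂ V)) (hT1 : ∀ X ∈ T, X ∈ 𝔤) (hT2 : ∀ X ∈ T, X * X = 1)
    (hgen : ∀ L : Submodule ℂ (End ℂ V), (∀ X ∈ T, X ∈ L) →
      (∀ X ∈ L, ∀ Y ∈ L, X * Y - Y * X ∈ L) → 𝔤 ≤ L)
    (hT : ∀ X ∈ T, LinearMap.trace ℂ V X = 0) (hn : finrank ℂ V ≠ 0)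
    (hNB : ∀ β : V →ₗ[ℂ] V →ₗ[ℂ] ℂ, (∀ u v, β u v = β v u) →
        (∀ X ∈ 𝔤, ∀ u v, β (X u) v + β u (X v) = 0) → ∀ u v, β u v = 0)
    (β : V →ₗ[ℂ] V →ₗ[ℂ] ℂ) (hs : ∀ u v, β u v = β v u)
    (hβ : ∀ X ∈ 𝔤, ∃ μ : ℂ, ∀ u v, β (X u) v + β u (X v) = μ * β u v) : ∀ u v, β u v = 0 := by
  -- the radical
  have hrad : LinearMap.ker β = ⊥ ∨ LinearMap.ker β = ⊤ := by
    refine hirr _ fun X hX _ u hu => ?_
    obtain ⟨μ, hμ⟩ := hβ X hX
    rw [LinearMap.mem_ker] at hu ⊢
    refine LinearMap.ext fun v => ?_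
    have h1 := hμ u v
    rw [hu, LinearMap.zero_apply, LinearMap.zero_apply, mul_zero, add_zero] at h1
    rw [h1, LinearMap.zero_apply]
  rcases hrad with hr | hr
  · have hinv : ∀ X ∈ 𝔤, ∀ u v, β (X u) v + β u (X v) = 0 := by
      let L : Submodule ℂ (End ℂ V) :=
        { carrier := {X | ∀ u v, β (X u) v + β u (X v) = 0}
          zero_mem' := fun u v => by simp
          add_mem' := fun {X Y} hX hY u v => by
            rw [LinearMap.add_apply, LinearMap.add_apply, map_add, map_add, LinearMap.add_apply,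
              add_add_add_comm, hX u v, hY u v, add_zero]
          smul_mem' := fun c X hX u v => by
            rw [LinearMap.smul_apply, LinearMap.smul_apply, map_smul, map_smul,
              LinearMap.smul_apply, ← smul_add, hX u v, smul_zero] }
      refine fun X hX => hgen L (fun D hD => ?_) (fun X hX Y hY => ?_) hX
      · obtain ⟨μ, hμ⟩ := hβ D (hT1 D hD)
        have hDD := hT2 D hD
        have htr := hT D hD
        intro u v
        rw [hμ]
        by_cases hμ0 : μ = 0
        · rw [hμ0, zero_mul]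
        exfalso
        have hDu : ∀ u, D (D u) = u := fun u => by
          have h1 := LinearMap.congr_fun hDD u
          exact h1
        -- the eigenspaces
        have h1 : ∀ u v, D u = u → D v = -v → β u v = 0 := by
          intro u v hu hv
          have h2 := hμ u v
          rw [hu, hv, map_neg, add_neg_cancel] at h2
          exact (mul_eq_zero.1 h2.symm).resolve_left hμ0
        have h2 : ∀ u v, D u = u → D v = v → (2 - μ) * β u v = 0 := by
          intro u v hu hv
          have h3 := hμ u v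
          rw [hu, hv] at h3
          linear_combination h3
        have h3 : ∀ u v, D u = -u → D v = -v → (2 + μ) * β u v = 0 := by
          intro u v hu hv
          have h3 := hμ u v
          rw [hu, hv, map_neg, map_neg, LinearMap.neg_apply] at h3
          linear_combination -h3
        have hdec : ∀ v : V, v = (1 / 2 : ℂ) • (v + D v) + (1 / 2 : ℂ) • (v - D v) := by
          intro v
          module
        have hp : ∀ v, D ((1 / 2 : ℂ) • (v + D v)) = (1 / 2 : ℂ) • (v + D v) := by
          intro v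
          rw [map_smul, map_add, hDu, add_comm]
        have hq : ∀ v, D ((1 / 2 : ℂ) • (v - D v)) = -((1 / 2 : ℂ) • (v - D v)) := by
          intro v
          rw [map_smul, map_sub, hDu, ← smul_neg, neg_sub]
        by_cases h4 : μ = 2
        · -- the second eigenspace vanishes
          have h5 : ∀ u, D u = -u → u = 0 := by
            intro u hu
            have h6 : u ∈ LinearMap.ker β := by
              rw [LinearMap.mem_ker]
              refine LinearMap.ext fun v => ?_
              rw [LinearMap.zero_apply, hdec v, map_add, hs u, h1 _ _ (hp v) hu, zero_add]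
              have h7 := h3 _ _ hu (hq v)
              rw [h4] at h7
              exact (mul_eq_zero.1 h7).resolve_left (by norm_num)
            rwa [hr, Submodule.mem_bot] at h6
          have h6 : D = 1 := by
            refine LinearMap.ext fun v => ?_
            have h7 := h5 _ (hq v)
            rw [smul_eq_zero] at h7
            exact (sub_eq_zero.1 (h7.resolve_left (by norm_num))).symm
          rw [h6, LinearMap.trace_one] at htr
          exact hn (by exact_mod_cast htr)
        · have h5 : ∀ u, D u = u → u = 0 := by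
            intro u hu
            have h6 : u ∈ LinearMap.ker β := by
              rw [LinearMap.mem_ker]
              refine LinearMap.ext fun v => ?_
              rw [LinearMap.zero_apply, hdec v, map_add, h1 _ _ hu (hq v), add_zero]
              exact (mul_eq_zero.1 (h2 _ _ hu (hp v))).resolve_left
                (fun h => h4 (sub_eq_zero.1 h).symm)
            rwa [hr, Submodule.mem_bot] at h6
          have h6 : D = -1 := by
            refine LinearMap.ext fun v => ?_
            have h7 := h5 _ (hp v)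
            rw [smul_eq_zero] at h7
            rw [LinearMap.neg_apply]
            exact eq_neg_of_add_eq_zero_right (h7.resolve_left (by norm_num))
          rw [h6, map_neg, LinearMap.trace_one] at htr
          exact hn (by exact_mod_cast (neg_eq_zero.1 htr))
      · intro u v
        change β ((X * Y - Y * X) u) v + β u ((X * Y - Y * X) v) = 0
        rw [LinearMap.sub_apply, LinearMap.sub_apply, Module.End.mul_apply, Module.End.mul_apply,
          Module.End.mul_apply, Module.End.mul_apply, map_sub, map_sub, LinearMap.sub_apply]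
        have h1 := hX (Y u) v
        have h2 := hX u (Y v)
        have h3 := hY (X u) v
        have h4 := hY u (X v)
        linear_combination h1 - h3 + h2 - h4
    exact hNB β hs hinv
  · intro u v
    have h1 : u ∈ LinearMap.ker β := by rw [hr]; trivial
    rw [LinearMap.mem_ker] at h1
    rw [h1, LinearMap.zero_apply]

/-- **Elements of rank one**: an irreducible Lie algebra of trace zero generated by involutions,
if half the dimension is odd and not a middle binomial coefficient, and if there is no invariant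
symmetric form. -/
theorem exists_rk1_odd (hbr : ∀ X ∈ 𝔤, ∀ Y ∈ 𝔤, X * Y - Y * X ∈ 𝔤)
    (hirr : ∀ W : Submodule ℂ V, (∀ X ∈ 𝔤, X * X = (1 / 4 : ℂ) • 1 → ∀ u ∈ W, X u ∈ W) →
      W = ⊥ ∨ W = ⊤)
    (T : Set (End ℂ V)) (hT1 : ∀ X ∈ T, X ∈ 𝔤) (hT2 : ∀ X ∈ T, X * X = 1)
    (hgen : ∀ L : Submodule ℂ (End ℂ V), (∀ X ∈ T, X ∈ L) →
      (∀ X ∈ L, ∀ Y ∈ L, X * Y - Y * X ∈ L) → 𝔤 ≤ L)
    (hT : ∀ X ∈ T, LinearMap.trace ℂ V X = 0)
    (hNB : ∀ β : V →ₗ[ℂ] V →ₗ[ℂ] ℂ, (∀ u v, β u v = β v u) →
        (∀ X ∈ 𝔤, ∀ u v, β (X u) v + β u (X v) = 0) → ∀ u v, β u v = 0)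
    {D : End ℂ V} (hD : D ∈ 𝔤) (hD2 : D * D = 1) {a : ℕ} (hn : finrank ℂ V = a + a)
    (hodd : Odd a) (hnb : ∀ t : ℕ, 3 ≤ t → a ≠ (2 * t - 1).choose t) :
    ∃ x ∈ 𝔤, D * x = x ∧ x * D = -x ∧ rk x = 1 := by
  have ha : 0 < a := hodd.pos
  have htr0 : ∀ X ∈ 𝔤, LinearMap.trace ℂ V X = 0 := by
    have h1 : 𝔤 ≤ LinearMap.ker (LinearMap.trace ℂ V) := by
      refine hgen _ (fun X hX => by rw [LinearMap.mem_ker, hT X hX]) fun X _ Y _ => ?_
      rw [LinearMap.mem_ker, map_sub, LinearMap.trace_mul_comm, sub_self]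
    exact fun X hX => LinearMap.mem_ker.1 (h1 hX)
  have htr : LinearMap.trace ℂ V D = (a : ℂ) - a := by rw [htr0 D hD, sub_self]
  by_cases ha3 : a = 3
  · subst ha3
    exact exists_rk1 hbr hirr (fun L hL1 hL2 => hgen L (fun X hX => hL1 X (hT1 X hX) (hT2 X hX)) hL2)
      hD hD2 htr hn ha ha (Or.inr ⟨Or.inr ⟨rfl, rfl⟩, htr0, hNB⟩)
  by_contra hcon
  push Not at hcon
  have hbr' := ads_br hbr
  have hirr' : ∀ W : Submodule ℂ V, (∀ X ∈ ads 𝔤, X * X = (1 / 4 : ℂ) • 1 → ∀ u ∈ W, X u ∈ W) →
      W = ⊥ ∨ W = ⊤ := fun W hW => hirr W fun X hX => hW X (le_ads hX)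
  have hD' : D ∈ ads 𝔤 := le_ads hD
  have H := lieP hbr' hirr' hD' hD2 htr hn
  have hNR : NR1 (mG (ads 𝔤)) (mm V (prj D)) (mm V (prj (-D))) :=
    nr1 fun x hx h1 h2 => hcon x (up_ads hbr hD hD2 hx h1 h2) h1 h2
  have hsum : mm V (prj D) + mm V (prj (-D)) = 1 := by rw [← map_add, prj_add, map_one]
  have hR : mm V (prj D) + mm V (prj (-D)) ∈ mG (ads 𝔤) := by
    rw [hsum, ← map_one (mm V)]
    exact mem_mG.2 one_ads
  have hI : IrrXY (mG (ads 𝔤)) (mm V (prj D)) (mm V (prj (-D))) := by
    intro U _ hU1 hU2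
    rcases irr_up hbr hirr T hT1 hT2 hgen hD hD2 htr hn (fun D' hD' a' b' h1 h2 h3 h4 => by
        rw [hT D' hD'] at h1
        have h5 : a' = b' := by
          have h6 : (a' : ℂ) = b' := by linear_combination -h1
          exact_mod_cast h6
        subst h5
        have h6 : a' = a := by omega
        subst h6
        rw [Nat.gcd_self]
        rintro ⟨r, hr⟩
        obtain ⟨s, hs⟩ := hodd
        have h7 : a' * (2 * r) = a' * a' := by rw [hr]; ring
        have h8 := Nat.eq_of_mul_eq_mul_left ha h7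
        omega) (U.comap (cf V).toLinearMap)
      (fun x hx u hu => by
        rw [Submodule.mem_comap] at hu ⊢
        change cf V (x u) ∈ U
        rw [← mm_mulVec]
        refine hU1 _ ⟨mem_mG.2 (le_ads hx.1), ?_, ?_⟩ _ hu
        · rw [← map_mul, prj_of_D hx.2.1]
        · rw [← map_mul, prj_of_D' hx.2.2])
      (fun x hx u hu => by
        rw [Submodule.mem_comap] at hu ⊢
        change cf V (x u) ∈ U
        rw [← mm_mulVec]
        refine hU2 _ ⟨mem_mG.2 (le_ads hx.1), ?_, ?_⟩ _ hu
        · rw [← map_mul, prj_of_D hx.2.1]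
        · have h3 := prj_of_D' hx.2.2
          rw [neg_neg] at h3
          rw [← map_mul, h3]) with h1 | h1
    · left
      rw [Submodule.eq_bot_iff] at h1 ⊢
      intro u hu
      have h2 := h1 ((cf V).symm u) (by
        rw [Submodule.mem_comap]
        change cf V ((cf V).symm u) ∈ U
        rwa [LinearEquiv.apply_symm_apply])
      rw [← (cf V).apply_symm_apply u, h2, map_zero]
    · right
      intro u _
      have h2 : (cf V).symm u ∈ U.comap (cf V).toLinearMap := by rw [h1]; trivial
      rw [Submodule.mem_comap] at h2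
      change cf V ((cf V).symm u) ∈ U at h2
      rwa [LinearEquiv.apply_symm_apply] at h2
  have hnb' : ∀ t : ℕ, 2 ≤ t → a ≠ (2 * t - 1).choose t := by
    intro t ht
    rcases Nat.lt_or_ge t 3 with h1 | h1
    · obtain rfl : t = 2 := by omega
      exact ha3
    · exact hnb t h1
  obtain ⟨N, hNs, hN0, hN⟩ := exists_form_of H hR hI hodd hNR hnb'
  have hn0 : finrank ℂ V ≠ 0 := by omega
  have h1 := form_zero hirr T hT1 hT2 hgen hT hn0 hNB
    ((Matrix.toBilin' N).compl₁₂ (cf V).toLinearMap (cf V).toLinearMap)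
    (fun u v => by
      change Matrix.toBilin' N (cf V u) (cf V v) = Matrix.toBilin' N (cf V v) (cf V u)
      rw [Matrix.toBilin'_apply', Matrix.toBilin'_apply', hNs])
    (fun X hX => by
      obtain ⟨μ, hμ⟩ := hN _ (mem_mG.2 (le_ads hX))
      refine ⟨μ, fun u v => ?_⟩
      change Matrix.toBilin' N (cf V (X u)) (cf V v) + Matrix.toBilin' N (cf V u) (cf V (X v)) =
        μ * Matrix.toBilin' N (cf V u) (cf V v)
      rw [Matrix.toBilin'_apply', Matrix.toBilin'_apply', Matrix.toBilin'_apply', ← mm_mulVec,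
        ← mm_mulVec]
      exact hμ _ _)
  apply hN0
  refine Matrix.ext fun i j => ?_
  have h2 := h1 ((cf V).symm (Pi.single i 1)) ((cf V).symm (Pi.single j 1))
  change Matrix.toBilin' N (cf V ((cf V).symm (Pi.single i 1)))
    (cf V ((cf V).symm (Pi.single j 1))) = 0 at h2
  rw [LinearEquiv.apply_symm_apply, LinearEquiv.apply_symm_apply, Matrix.toBilin'_apply',
    mulVec_single_one, single_one_dotProduct] at h2
  exact h2

end

end Pool.Agent.K9h17.B
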